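import Pool.Agent.H230R4.BSD.Key

/-! The contribution of the squares of the primes. -/

set_option autoImplicit false

open Complex Filter Topology Finset

namespace Pool.Agent.H230R4.BSD

open Pool.Agent.H438R3.BSD Pool.Agent.H341R2

section

variable (good : ℕ → Prop) [DecidablePred good] (α : ℕ → ℂ)

/-- the main part of `dd` at `1 + w` -/
noncomputable def mp (p : ℕ) (w : ℝ) : ℝ :=
  if good p then ((α p) ^ 2).re / p * ((p : ℝ) ^ (-(1 + 2 * w)) - (p : ℝ) ^ (-(1 + w))) else 0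

variable {good α}
variable (hgood : ∀ p, good p → p.Prime) (hα : ∀ p, good p → ‖α p‖ = (p : ℝ) ^ (1 / 2 : ℝ))

include hgood hα

lemma re_sq_le {p : ℕ} (hp : good p) : |((α p) ^ 2).re / p| ≤ 1 := by
  have hp0 : (0 : ℝ) < p := by exact_mod_cast (hgood p hp).pos
  have h1 : ‖(α p) ^ 2‖ = p := by
    rw [norm_pow, hα p hp, ← Real.rpow_natCast, ← Real.rpow_mul hp0.le]
    norm_num
  rw [abs_div, abs_of_pos hp0, div_le_one hp0]
  exact (Complex.abs_re_le_norm _).trans h1.le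

lemma pow_diff_nonneg {p : ℕ} (hp : good p) {w : ℝ} (hw : 0 ≤ w) :
    0 ≤ (p : ℝ) ^ (-(1 + w)) - (p : ℝ) ^ (-(1 + 2 * w)) := by
  have hp1 : (1 : ℝ) ≤ p := by exact_mod_cast (hgood p hp).one_lt.le
  have : (p : ℝ) ^ (-(1 + 2 * w)) ≤ (p : ℝ) ^ (-(1 + w)) :=
    Real.rpow_le_rpow_of_exponent_le hp1 (by linarith)
  linarith

lemma mp_le (p : ℕ) {w : ℝ} (hw : 0 ≤ w) : |mp good α p w| ≤
    (if p.Prime then (p : ℝ) ^ (-(1 + w)) else 0) - (if p.Prime then (p : ℝ) ^ (-(1 + 2 * w)) else 0) := by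
  unfold mp
  by_cases hp : good p
  · rw [if_pos hp, if_pos (hgood p hp), if_pos (hgood p hp), abs_mul, abs_sub_comm,
      abs_of_nonneg (pow_diff_nonneg hgood hα hp hw)]
    have h1 := re_sq_le hgood hα hp
    have h2 := pow_diff_nonneg hgood hα hp hw
    nlinarith
  · rw [if_neg hp, abs_zero]
    by_cases hpp : p.Prime
    · rw [if_pos hpp, if_pos hpp]
      have hp1 : (1 : ℝ) ≤ p := by exact_mod_cast hpp.one_lt.le
      have : (p : ℝ) ^ (-(1 + 2 * w)) ≤ (p : ℝ) ^ (-(1 + w)) :=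
        Real.rpow_le_rpow_of_exponent_le hp1 (by linarith)
      linarith
    · rw [if_neg hpp, if_neg hpp]; simp

lemma hasSum_diff {w : ℝ} (hw : 0 < w) : HasSum (fun p : ℕ =>
    (if p.Prime then (p : ℝ) ^ (-(1 + w)) else 0) - (if p.Prime then (p : ℝ) ^ (-(1 + 2 * w)) else 0))
    (lam w - lam (2 * w)) :=
  (lam_hasSum hw).sub (lam_hasSum (by linarith))

lemma mp_summable {w : ℝ} (hw : 0 < w) : Summable (fun p => mp good α p w) :=
  Summable.of_norm_bounded (hasSum_diff hgood hα hw).summable (fun p => mp_le hgood hα p hw.le)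

lemma mp_tsum_le {w : ℝ} (hw : 0 < w) : |∑' p, mp good α p w| ≤ lam w - lam (2 * w) := by
  rw [← (hasSum_diff hgood hα hw).tsum_eq]
  have h1 : ‖∑' p, mp good α p w‖ ≤ _ := tsum_of_norm_bounded (hasSum_diff hgood hα hw)
    (fun p => mp_le hgood hα p hw.le)
  rw [(hasSum_diff hgood hα hw).tsum_eq]
  exact h1

/-- one of the two pieces -/
lemma del_main {p : ℕ} {β : ℂ} (hp : p.Prime) (hβ : ‖β‖ = (p : ℝ) ^ (1 / 2 : ℝ)) {w : ℝ} (hw : 0 ≤ w) :
    ‖del p β (1 + w) - β ^ 2 / p * (((p : ℝ) ^ (-(1 + 2 * w)) - (p : ℝ) ^ (-(1 + w)) : ℝ) : ℂ) / 2‖ ≤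
      4 * (p : ℝ) ^ (-(3 / 2) : ℝ) := by
  have hp0 : (0 : ℝ) < p := by exact_mod_cast hp.pos
  have hp1 : (1 : ℝ) ≤ p := by exact_mod_cast hp.one_lt.le
  have hp2 : (2 : ℝ) ≤ p := by exact_mod_cast hp.two_le
  have hpc : (p : ℂ) ≠ 0 := by exact_mod_cast hp.ne_zero
  have h1 := norm_a hp hβ (1 + w)
  have h2 := norm_b hp hβ
  have hre : ((1 : ℂ) + w).re = 1 + w := by simp
  rw [hre] at h1
  have h3 : ‖β * (p : ℂ) ^ (-(1 + w) : ℂ)‖ ≤ (p : ℝ) ^ (-(1 / 2) : ℝ) := by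
    rw [h1]
    exact Real.rpow_le_rpow_of_exponent_le hp1 (by linarith)
  have h4 : (p : ℝ) ^ (-(1 / 2) : ℝ) ≤ 0.71 := x_rpow_le hp2 (by norm_num)
  have h5 := rr_le3 (h3.trans h4)
  have h6 := rr_le3 (h2.le.trans h4)
  have h7 : ((p : ℝ) ^ (-(1 / 2) : ℝ)) ^ 3 = (p : ℝ) ^ (-(3 / 2) : ℝ) := by
    rw [← Real.rpow_natCast, ← Real.rpow_mul hp0.le]
    norm_num
  have h8 : ‖β * (p : ℂ) ^ (-(1 + w) : ℂ)‖ ^ 3 ≤ (p : ℝ) ^ (-(3 / 2) : ℝ) := by
    rw [← h7]; exact pow_le_pow_left₀ (norm_nonneg _) h3 3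
  have h9 : ‖β / (p : ℂ)‖ ^ 3 = (p : ℝ) ^ (-(3 / 2) : ℝ) := by rw [h2, h7]
  have h10 : ‖(p : ℂ) ^ (1 - (1 + w) : ℂ)‖ ≤ 1 := by
    rw [Complex.norm_natCast_cpow_of_pos hp.pos]
    have : (1 - (1 + w) : ℂ).re = -w := by simp
    rw [this]
    exact Real.rpow_le_one_of_one_le_of_nonpos hp1 (by linarith)
  have e1 : del p β (1 + w) - β ^ 2 / p * (((p : ℝ) ^ (-(1 + 2 * w)) - (p : ℝ) ^ (-(1 + w)) : ℝ) : ℂ) / 2 =
      (rr (β * (p : ℂ) ^ (-(1 + w) : ℂ)) - (β * (p : ℂ) ^ (-(1 + w) : ℂ)) ^ 2 / 2) -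
      (p : ℂ) ^ (1 - (1 + w) : ℂ) * (rr (β / p) - (β / p) ^ 2 / 2) := by
    unfold del
    have c1 : (((p : ℝ) ^ (-(1 + 2 * w)) : ℝ) : ℂ) = (p : ℂ) ^ (-(1 + 2 * w) : ℂ) := by
      rw [Complex.ofReal_cpow hp0.le]; push_cast; rfl
    have c2 : (((p : ℝ) ^ (-(1 + w)) : ℝ) : ℂ) = (p : ℂ) ^ (-(1 + w) : ℂ) := by
      rw [Complex.ofReal_cpow hp0.le]; push_cast; rfl
    have c3 : (p : ℂ) * ((p : ℂ) ^ (-(1 + w) : ℂ)) ^ 2 = (p : ℂ) ^ (-(1 + 2 * w) : ℂ) := by
      rw [sq, ← Complex.cpow_add _ _ hpc]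
      nth_rewrite 1 [← Complex.cpow_one (p : ℂ)]
      rw [← Complex.cpow_add _ _ hpc]
      congr 1
      ring
    have c4 : (p : ℂ) ^ (1 - (1 + w) : ℂ) = p * (p : ℂ) ^ (-(1 + w) : ℂ) := by
      rw [sub_eq_add_neg 1 (1 + (w : ℂ)), Complex.cpow_add _ _ hpc, Complex.cpow_one]
    push_cast
    rw [c1, c2, ← c3, c4]
    field_simp
    ring
  rw [e1]
  refine (norm_sub_le _ _).trans ?_
  rw [norm_mul]
  have h11 : ‖(p : ℂ) ^ (1 - (1 + w) : ℂ)‖ * ‖rr (β / p) - (β / p) ^ 2 / 2‖ ≤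
      1 * (2 * ‖β / (p : ℂ)‖ ^ 3) := by
    apply mul_le_mul h10 h6 (norm_nonneg _) zero_le_one
  rw [h9] at h11
  linarith

/-- the error term -/
noncomputable def er (_hgood : ∀ p, good p → p.Prime) (_hα : ∀ p, good p → ‖α p‖ = (p : ℝ) ^ (1 / 2 : ℝ))
    (p : ℕ) (w : ℝ) : ℂ := dd good α p (1 + w) - (mp good α p w : ℂ)

lemma er_le (p : ℕ) {w : ℝ} (hw : 0 ≤ w) : ‖er hgood hα p w‖ ≤ 8 * (p : ℝ) ^ (-(3 / 2) : ℝ) := by
  unfold er dd mp
  by_cases hp : good p
  · rw [if_pos hp, if_pos hp]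
    have h1 := del_main hgood hα (hgood p hp) (hα p hp) hw
    have h2 := del_main hgood hα (hgood p hp) (norm_conj_alpha hgood hα hp) hw
    have e : del p (α p) (1 + w) + del p (starRingEnd ℂ (α p)) (1 + w) -
        ((((α p) ^ 2).re / p * ((p : ℝ) ^ (-(1 + 2 * w)) - (p : ℝ) ^ (-(1 + w))) : ℝ) : ℂ) =
        (del p (α p) (1 + w) - (α p) ^ 2 / p *
          (((p : ℝ) ^ (-(1 + 2 * w)) - (p : ℝ) ^ (-(1 + w)) : ℝ) : ℂ) / 2) +
        (del p (starRingEnd ℂ (α p)) (1 + w) - (starRingEnd ℂ (α p)) ^ 2 / p *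
          (((p : ℝ) ^ (-(1 + 2 * w)) - (p : ℝ) ^ (-(1 + w)) : ℝ) : ℂ) / 2) := by
      have h3 : ((((α p) ^ 2).re : ℝ) : ℂ) = ((α p) ^ 2 + (starRingEnd ℂ (α p)) ^ 2) / 2 := by
        rw [← map_pow, Complex.add_conj]
        push_cast
        ring
      push_cast
      rw [h3]
      ring
    rw [e]
    refine (norm_add_le _ _).trans ?_
    linarith
  · rw [if_neg hp, if_neg hp]
    simp only [Complex.ofReal_zero, sub_zero, norm_zero]
    positivity

lemma er_tendsto (p : ℕ) : Tendsto (fun w : ℝ => er hgood hα p w) (𝓝[>] 0) (𝓝 0) := by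
  unfold er dd mp
  by_cases hp : good p
  · simp only [if_pos hp]
    have hpp := hgood p hp
    have hp0 : (0 : ℝ) < p := by exact_mod_cast hpp.pos
    have hcd : ∀ β : ℂ, ‖β‖ = (p : ℝ) ^ (1 / 2 : ℝ) →
        Tendsto (fun w : ℝ => del p β (1 + w)) (𝓝[>] 0) (𝓝 0) := by
      intro β hβ
      have h1 : ContinuousAt (del p β) (1 : ℂ) := (del_differentiable hpp hβ (by simp)).continuousAt
      have h2 : ContinuousAt (fun w : ℝ => del p β (1 + w)) 0 := by
        have h0 : ContinuousAt (fun w : ℝ => (1 + w : ℂ)) (0 : ℝ) := by fun_prop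
        have h1' : ContinuousAt (del p β) ((fun w : ℝ => (1 + w : ℂ)) (0 : ℝ)) := by simpa using h1
        exact ContinuousAt.comp (g := del p β) (f := fun w : ℝ => (1 + w : ℂ)) (x := (0 : ℝ)) h1' h0
      have h3 := h2.tendsto
      have h4 : del p β (1 + ((0 : ℝ) : ℂ)) = 0 := by
        have hpc : (p : ℂ) ≠ 0 := by exact_mod_cast hpp.ne_zero
        unfold del
        simp only [Complex.ofReal_zero, add_zero, sub_self, Complex.cpow_zero, one_mul]
        rw [Complex.cpow_neg_one, div_eq_mul_inv, sub_self]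
      rw [h4] at h3
      exact h3.mono_left nhdsWithin_le_nhds
    have h1 := (hcd _ (hα p hp)).add (hcd _ (norm_conj_alpha hgood hα hp))
    have h2 : Tendsto (fun w : ℝ => ((((α p) ^ 2).re / p *
        ((p : ℝ) ^ (-(1 + 2 * w)) - (p : ℝ) ^ (-(1 + w))) : ℝ) : ℂ)) (𝓝[>] 0) (𝓝 0) := by
      have hc : ContinuousAt (fun w : ℝ => (((α p) ^ 2).re / p *
        ((p : ℝ) ^ (-(1 + 2 * w)) - (p : ℝ) ^ (-(1 + w))) : ℝ)) 0 := by
        have c1 : ContinuousAt (fun w : ℝ => (p : ℝ) ^ (-(1 + 2 * w))) 0 :=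
          ContinuousAt.rpow (by fun_prop) (by fun_prop) (Or.inl hp0.ne')
        have c2 : ContinuousAt (fun w : ℝ => (p : ℝ) ^ (-(1 + w))) 0 :=
          ContinuousAt.rpow (by fun_prop) (by fun_prop) (Or.inl hp0.ne')
        exact continuousAt_const.mul (c1.sub c2)
      have h3 := hc.tendsto
      simp only [mul_zero, add_zero, sub_self] at h3
      have h4 := (Complex.continuous_ofReal.tendsto 0).comp h3
      simp only [Complex.ofReal_zero] at h4
      exact h4.mono_left nhdsWithin_le_nhds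
    have h3 := h1.sub h2
    simpa using h3
  · simp only [if_neg hp, Complex.ofReal_zero, sub_zero]
    exact tendsto_const_nhds

lemma er_tsum : Tendsto (fun w : ℝ => ∑' p, er hgood hα p w) (𝓝[>] 0) (𝓝 0) := by
  have h := tendsto_tsum_of_dominated_convergence (𝓕 := 𝓝[>] (0 : ℝ))
    (f := fun w p => er hgood hα p w) (g := fun _ => (0 : ℂ))
    (bound := fun p : ℕ => 8 * (p : ℝ) ^ (-(3 / 2) : ℝ))
    ((Real.summable_nat_rpow.2 (by norm_num)).mul_left 8) (fun p => er_tendsto hgood hα p) (by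
      filter_upwards [self_mem_nhdsWithin] with w hw p
      exact er_le hgood hα p (le_of_lt hw))
  simpa using h

/-- `DD` without its small part -/
lemma DD_eq {w : ℝ} (hw : 0 < w) : (∑' p, dd good α p (1 + w)).re =
    ∑' p, mp good α p w + (∑' p, er hgood hα p w).re := by
  have h1 : Summable (fun p => (mp good α p w : ℂ)) := by
    exact (Complex.hasSum_ofReal.2 (mp_summable hgood hα hw).hasSum).summable
  have h2 : Summable (fun p => er hgood hα p w) := by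
    refine Summable.of_norm_bounded ((Real.summable_nat_rpow.2
      (by norm_num : (-(3 / 2) : ℝ) < -1)).mul_left 8) (fun p => er_le hgood hα p hw.le)
  have h3 : (∑' p, dd good α p (1 + w)) = ((∑' p, mp good α p w : ℝ) : ℂ) + ∑' p, er hgood hα p w := by
    rw [Complex.ofReal_tsum, ← h1.tsum_add h2]
    refine tsum_congr fun p => ?_
    unfold er
    ring
  rw [h3, add_re, ofReal_re]

theorem DD_abs_le (η : ℝ) (hη : 0 < η) :
    ∀ᶠ w : ℝ in 𝓝[>] 0, |(∑' p, dd good α p (1 + w)).re| ≤ Real.log 2 + η := by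
  have h1 : Tendsto (fun w : ℝ => ‖∑' p, er hgood hα p w‖) (𝓝[>] 0) (𝓝 0) := by
    have := (er_tsum hgood hα).norm
    simpa using this
  have hη2 : (0 : ℝ) < η / 2 := by linarith
  filter_upwards [self_mem_nhdsWithin, h1.eventually (eventually_lt_nhds hη2),
    lam_sub_tendsto.eventually (eventually_lt_nhds (by linarith : Real.log 2 < Real.log 2 + η / 2))]
    with w hw h2 h3
  rw [DD_eq hgood hα hw]
  have h4 := mp_tsum_le hgood hα hw
  have h5 := Complex.abs_re_le_norm (∑' p, er hgood hα p w)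
  refine (abs_add_le _ _).trans ?_
  linarith

open Classical in
/-- The limit, if the series of the symmetric square has a limit at the edge. -/
theorem DD_limit (hfin : {p : ℕ | p.Prime ∧ ¬ good p}.Finite) (Φ : ℝ)
    (hΦ : Tendsto (fun w : ℝ => ∑' p : ℕ, if good p then
      ((2 * (α p).re) ^ 2 / p - 1) * (p : ℝ) ^ (-(1 + w)) else 0) (𝓝[>] 0) (𝓝 Φ)) :
    Tendsto (fun w : ℝ => (∑' p, dd good α p (1 + w)).re) (𝓝[>] 0) (𝓝 (Real.log 2 / 2)) := by
  set f : ℝ → ℕ → ℝ := fun w p => if good p then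
      ((2 * (α p).re) ^ 2 / p - 1) * (p : ℝ) ^ (-(1 + w)) else 0 with hf
  -- summability of `f`
  have hfs : ∀ w : ℝ, 0 < w → Summable (f w) := by
    intro w hw
    refine Summable.of_norm_bounded ((lam_hasSum hw).summable.mul_left 5) (fun p => ?_)
    rw [hf]
    simp only
    by_cases hp : good p
    · rw [if_pos hp, if_pos (hgood p hp), norm_mul]
      have hp0 : (0 : ℝ) < p := by exact_mod_cast (hgood p hp).pos
      have h1 : ‖(p : ℝ) ^ (-(1 + w))‖ = (p : ℝ) ^ (-(1 + w)) := by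
        rw [Real.norm_eq_abs, abs_of_pos (by positivity)]
      rw [h1]
      refine mul_le_mul_of_nonneg_right ?_ (by positivity)
      have h2 : |(α p).re| ≤ (p : ℝ) ^ (1 / 2 : ℝ) := (Complex.abs_re_le_norm _).trans (hα p hp).le
      have h3 : (α p).re ^ 2 ≤ p := by
        have h4 : |(α p).re| ^ 2 ≤ ((p : ℝ) ^ (1 / 2 : ℝ)) ^ 2 := pow_le_pow_left₀ (abs_nonneg _) h2 2
        rw [sq_abs, ← Real.rpow_natCast ((p : ℝ) ^ (1 / 2 : ℝ)) 2, ← Real.rpow_mul hp0.le] at h4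
        norm_num at h4
        exact h4
      have h5 : 0 ≤ (2 * (α p).re) ^ 2 / p := by positivity
      have h6 : (2 * (α p).re) ^ 2 / p ≤ 4 := by
        rw [div_le_iff₀ hp0]
        nlinarith
      rw [Real.norm_eq_abs, abs_le]
      constructor <;> linarith
    · rw [if_neg hp, norm_zero]
      split_ifs <;> positivity
  -- the bad primes
  set bd : ℝ → ℕ → ℝ := fun w p => if p ∈ hfin.toFinset then
      (p : ℝ) ^ (-(1 + w)) - (p : ℝ) ^ (-(1 + 2 * w)) else 0 with hbd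
  have hbds : ∀ w : ℝ, HasSum (bd w) (∑ p ∈ hfin.toFinset, ((p : ℝ) ^ (-(1 + w)) - (p : ℝ) ^ (-(1 + 2 * w)))) := by
    intro w
    have h1 : ∀ p ∉ hfin.toFinset, bd w p = 0 := fun p hp => by rw [hbd]; simp only; rw [if_neg hp]
    have h2 : HasSum (bd w) (∑ p ∈ hfin.toFinset, bd w p) := hasSum_sum_of_ne_finset_zero h1
    convert h2 using 1
    refine Finset.sum_congr rfl fun p hp => ?_
    rw [hbd]; simp only; rw [if_pos hp]
  have hbd0 : Tendsto (fun w : ℝ => ∑ p ∈ hfin.toFinset, ((p : ℝ) ^ (-(1 + w)) - (p : ℝ) ^ (-(1 + 2 * w))))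
      (𝓝[>] 0) (𝓝 0) := by
    have h1 : Tendsto (fun w : ℝ => ∑ p ∈ hfin.toFinset, ((p : ℝ) ^ (-(1 + w)) - (p : ℝ) ^ (-(1 + 2 * w))))
      (𝓝[>] 0) (𝓝 (∑ p ∈ hfin.toFinset, (0 : ℝ))) := by
      refine tendsto_finsetSum _ fun p hp => ?_
      have hpp : p.Prime := ((hfin.mem_toFinset).1 hp).1
      have hp0 : (0 : ℝ) < p := by exact_mod_cast hpp.pos
      have c1 : ContinuousAt (fun w : ℝ => (p : ℝ) ^ (-(1 + w)) - (p : ℝ) ^ (-(1 + 2 * w))) 0 := by
        refine ContinuousAt.sub ?_ ?_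
        · exact ContinuousAt.rpow (by fun_prop) (by fun_prop) (Or.inl hp0.ne')
        · exact ContinuousAt.rpow (by fun_prop) (by fun_prop) (Or.inl hp0.ne')
      have h2 := c1.tendsto
      simp only [mul_zero, add_zero, sub_self] at h2
      exact h2.mono_left nhdsWithin_le_nhds
    simpa using h1
  have hmain : Tendsto (fun w : ℝ => ∑' p, mp good α p w) (𝓝[>] 0) (𝓝 (Real.log 2 / 2)) := by
    have h1 : Tendsto (fun w : ℝ => -(1 / 2) * (∑' p, f w p - ∑' p, f (2 * w) p) +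
        1 / 2 * ((lam w - lam (2 * w)) -
          ∑ p ∈ hfin.toFinset, ((p : ℝ) ^ (-(1 + w)) - (p : ℝ) ^ (-(1 + 2 * w))))) (𝓝[>] 0)
        (𝓝 (-(1 / 2) * (Φ - Φ) + 1 / 2 * (Real.log 2 - 0))) := by
      refine Tendsto.add (Tendsto.const_mul _ (hΦ.sub (hΦ.comp two_mul_tendsto))) ?_
      exact Tendsto.const_mul _ (lam_sub_tendsto.sub hbd0)
    have e1 : -(1 / 2) * (Φ - Φ) + 1 / 2 * (Real.log 2 - 0) = Real.log 2 / 2 := by ring
    rw [e1] at h1
    refine h1.congr' ?_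
    filter_upwards [self_mem_nhdsWithin] with w hw
    have hw : 0 < w := hw
    have s1 := (hfs w hw).hasSum
    have s2 := (hfs (2 * w) (by linarith)).hasSum
    have s3 := hasSum_diff hgood hα hw
    have s4 := hbds w
    have s5 := ((s1.sub s2).mul_left (-(1 / 2) : ℝ)).add ((s3.sub s4).mul_left (1 / 2 : ℝ))
    rw [← s5.tsum_eq]
    refine tsum_congr fun p => ?_
    rw [hf, hbd]
    simp only
    unfold mp
    by_cases hp : good p
    · have hpp := hgood p hp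
      have hnb : p ∉ hfin.toFinset := by
        intro h
        exact ((hfin.mem_toFinset).1 h).2 hp
      have hp0 : (0 : ℝ) < p := by exact_mod_cast hpp.pos
      rw [if_pos hp, if_pos hp, if_pos hpp, if_pos hpp, if_neg hnb, if_pos hp]
      have h3 : ((α p) ^ 2).re = 2 * (α p).re ^ 2 - p := by
        have h4 : ‖α p‖ ^ 2 = p := by
          rw [hα p hp, ← Real.rpow_natCast, ← Real.rpow_mul hp0.le]
          norm_num
        rw [← Complex.normSq_eq_norm_sq, Complex.normSq_apply] at h4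
        rw [sq, Complex.mul_re]
        linarith
      rw [h3]
      field_simp
      ring
    · rw [if_neg hp, if_neg hp, if_neg hp]
      by_cases hpp : p.Prime
      · have hb : p ∈ hfin.toFinset := (hfin.mem_toFinset).2 ⟨hpp, hp⟩
        rw [if_pos hpp, if_pos hpp, if_pos hb]
        ring
      · have hb : p ∉ hfin.toFinset := fun h => hpp ((hfin.mem_toFinset).1 h).1
        rw [if_neg hpp, if_neg hpp, if_neg hb]
        ring
  have h2 : Tendsto (fun w : ℝ => (∑' p, er hgood hα p w).re) (𝓝[>] 0) (𝓝 0) := by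
    have := (Complex.continuous_re.tendsto 0).comp (er_tsum hgood hα)
    simpa [Function.comp_def] using this
  have h3 := hmain.add h2
  rw [add_zero] at h3
  refine h3.congr' ?_
  filter_upwards [self_mem_nhdsWithin] with w hw
  exact (DD_eq hgood hα hw).symm

end

end Pool.Agent.H230R4.BSD
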