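import Pool.Agent.H230R4.BSD.Dlim

/-! Limit points of the products of Birch and Swinnerton-Dyer. -/

set_option autoImplicit false

open Filter Topology

namespace Pool.Agent.H230R4.BSD

open Pool.Agent.H438R3.BSD Pool.Agent.H341R2

/-- a sequence with small steps has limit points between its upper and lower values -/
lemma cross {u : ℕ → ℝ} (hinc : Tendsto (fun n => u (n + 1) - u n) atTop (𝓝 0)) {A B : ℝ}
    (hAB : A ≤ B) (h1 : ∀ c < A, ∃ᶠ n in atTop, c < u n) (h2 : ∀ c, B < c → ∃ᶠ n in atTop, u n < c) :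
    ∃ c ∈ Set.Icc A B, ∃ φ : ℕ → ℕ, StrictMono φ ∧ Tendsto (fun n => u (φ n)) atTop (𝓝 c) := by
  have hfr : ∀ k : ℕ, ∃ᶠ n in atTop, A - 1 / ((k : ℝ) + 1) ≤ u n ∧ u n ≤ B + 1 / ((k : ℝ) + 1) := by
    intro k
    set δ : ℝ := 1 / ((k : ℝ) + 1) with hδ
    have hδ0 : 0 < δ := by positivity
    by_contra hcon
    rw [not_frequently] at hcon
    have hs : ∀ᶠ n in atTop, |u (n + 1) - u n| < 2 * δ := by
      have := (Metric.tendsto_nhds.1 hinc) (2 * δ) (by positivity)
      filter_upwards [this] with n hn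
      rwa [Real.dist_eq, sub_zero] at hn
    obtain ⟨N, hN⟩ := eventually_atTop.1 (hcon.and hs)
    by_cases hlow : ∃ n, N ≤ n ∧ u n < A - δ
    · obtain ⟨n1, hn1, hn2⟩ := hlow
      have hall : ∀ n, n1 ≤ n → u n < A - δ := by
        intro n hn
        induction n, hn using Nat.le_induction with
        | base => exact hn2
        | succ n hn ih =>
          have h3 := (hN n (hn1.trans hn)).2
          have h4 := (hN (n + 1) (by omega)).1
          have h5 := (abs_lt.1 h3).2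
          by_contra h6
          push Not at h6
          exact h4 ⟨h6, by linarith⟩
      obtain ⟨n, hn, hn3⟩ := ((frequently_atTop.1 (h1 (A - δ) (by linarith))) n1)
      exact absurd (hall n hn) (not_lt.2 hn3.le)
    · push Not at hlow
      have hall : ∀ n, N ≤ n → B + δ < u n := by
        intro n hn
        by_contra h6
        push Not at h6
        exact (hN n hn).1 ⟨hlow n hn, h6⟩
      obtain ⟨n, hn, hn3⟩ := ((frequently_atTop.1 (h2 (B + δ) (by linarith))) N)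
      exact absurd (hall n hn) (not_lt.2 hn3.le)
  obtain ⟨φ, hφ, hφ2⟩ := extraction_forall_of_frequently hfr
  have hK : ∀ n, u (φ n) ∈ Set.Icc (A - 1) (B + 1) := by
    intro n
    have h3 := hφ2 n
    have h4 : 1 / ((n : ℝ) + 1) ≤ 1 := by
      rw [div_le_one (by positivity)]
      have : (0 : ℝ) ≤ n := by positivity
      linarith
    exact ⟨by linarith [h3.1], by linarith [h3.2]⟩
  obtain ⟨c, _, ψ, hψ, hlim⟩ := (isCompact_Icc (a := A - 1) (b := B + 1)).tendsto_subseq hK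
  have hz : Tendsto (fun n : ℕ => 1 / (((ψ n : ℕ) : ℝ) + 1)) atTop (𝓝 0) :=
    (tendsto_one_div_add_atTop_nhds_zero_nat (𝕜 := ℝ)).comp hψ.tendsto_atTop
  refine ⟨c, ⟨?_, ?_⟩, fun n => φ (ψ n), hφ.comp hψ, hlim⟩
  · have h3 : Tendsto (fun n : ℕ => A - 1 / (((ψ n : ℕ) : ℝ) + 1)) atTop (𝓝 (A - 0)) :=
      tendsto_const_nhds.sub hz
    rw [sub_zero] at h3
    exact le_of_tendsto_of_tendsto' h3 hlim fun n => (hφ2 (ψ n)).1
  · have h3 : Tendsto (fun n : ℕ => B + 1 / (((ψ n : ℕ) : ℝ) + 1)) atTop (𝓝 (B + 0)) :=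
      tendsto_const_nhds.add hz
    rw [add_zero] at h3
    exact le_of_tendsto_of_tendsto' hlim h3 fun n => (hφ2 (ψ n)).2

/-- `log log (n + 1) - log log n` tends to zero -/
lemma loglog_step : Tendsto (fun n : ℕ => Real.log (Real.log ((n + 1 : ℕ) : ℝ)) -
    Real.log (Real.log (n : ℝ))) atTop (𝓝 0) := by
  have h1 := mertens_two
  have h2 := h1.comp (tendsto_add_atTop_nat 1)
  have h3 := h1.sub h2
  rw [sub_self] at h3
  have h4 : Tendsto (fun n : ℕ => (∑ p ∈ (Finset.Icc 1 (n + 1)).filter Nat.Prime, (1 : ℝ) / p) -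
      ∑ p ∈ (Finset.Icc 1 n).filter Nat.Prime, (1 : ℝ) / p) atTop (𝓝 0) := by
    refine squeeze_zero (fun n => ?_) (fun n => ?_) (tendsto_one_div_add_atTop_nhds_zero_nat (𝕜 := ℝ))
    · rw [Finset.sum_filter, Finset.sum_filter, Finset.sum_Icc_succ_top (by omega)]
      rw [add_sub_cancel_left]
      split_ifs <;> positivity
    · rw [Finset.sum_filter, Finset.sum_filter, Finset.sum_Icc_succ_top (by omega)]
      rw [add_sub_cancel_left]
      push_cast
      split_ifs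
      · exact le_rfl
      · positivity
  have h5 := h3.add h4
  rw [add_zero] at h5
  refine h5.congr fun n => ?_
  simp only [Function.comp]
  ring

section

variable {a b : ℤ}

/-- the sequence `log EP(n) - κ log log n` -/
noncomputable def uu (a b : ℤ) (κ : ℝ) (n : ℕ) : ℝ := Real.log (EP a b n) - κ * Real.log (Real.log n)

lemma uu_step (a b : ℤ) (κ : ℝ) : Tendsto (fun n => uu a b κ (n + 1) - uu a b κ n) atTop (𝓝 0) := by
  classical
  have hg : ∀ p, Good a b p → p.Prime := fun p hp => hp.1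
  have ha : ∀ p, Good a b p → ‖al a b p‖ = (p : ℝ) ^ (1 / 2 : ℝ) := fun p hp => al_norm hp
  have h1 : Tendsto (fun n : ℕ => Real.log (EP a b (n + 1)) - Real.log (EP a b n)) atTop (𝓝 0) := by
    have hz : Tendsto (fun n : ℕ => 5 * (((n + 1 : ℕ) : ℝ)) ^ (-(1 / 2) : ℝ)) atTop (𝓝 0) := by
      have h2 : Tendsto (fun n : ℕ => (((n + 1 : ℕ) : ℝ)) ^ (-(1 / 2) : ℝ)) atTop (𝓝 0) :=
        ((tendsto_rpow_neg_atTop (by norm_num : (0 : ℝ) < 1 / 2)).comp tendsto_natCast_atTop_atTop).comp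
          (tendsto_add_atTop_nat 1)
      have h3 := h2.const_mul 5
      rw [mul_zero] at h3
      exact h3
    refine squeeze_zero_norm (fun n => ?_) hz
    rw [log_EP, log_EP, Finset.sum_Icc_succ_top (by omega), add_sub_cancel_left, Real.norm_eq_abs]
    split_ifs
    · exact ell_le hg ha (n + 1) (by omega)
    · rw [abs_zero]; positivity
  have h2 := h1.sub (loglog_step.const_mul κ)
  rw [mul_zero, sub_zero] at h2
  refine h2.congr fun n => ?_
  unfold uu
  ring

lemma exp_uu (κ : ℝ) {n : ℕ} (hn : 3 ≤ n) : EP a b n / Real.log n ^ κ = Real.exp (uu a b κ n) := by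
  have hl : 0 < Real.log n := Real.log_pos (by exact_mod_cast (by omega : 1 < n))
  unfold uu
  rw [Real.exp_sub, Real.exp_log (EP_pos a b n), Real.rpow_def_of_pos hl, mul_comm κ]

/-- the leading coefficient -/
lemma lead {F : ℂ → ℂ} (hF : Differentiable ℂ F) (m : ℕ) (hm : analyticOrderAt F 1 = m) :
    ∃ l : ℂ, l ≠ 0 ∧ Tendsto (fun s => F s / (s - 1) ^ m) (𝓝[≠] 1) (𝓝 l) := by
  have han : AnalyticAt ℂ F 1 := hF.analyticAt 1
  obtain ⟨g, hg, hg1, hg2⟩ := (han.analyticOrderAt_eq_natCast).1 hm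
  refine ⟨g 1, hg1, ?_⟩
  have h1 : Tendsto g (𝓝[≠] 1) (𝓝 (g 1)) := hg.continuousAt.tendsto.mono_left nhdsWithin_le_nhds
  refine h1.congr' ?_
  filter_upwards [hg2.filter_mono nhdsWithin_le_nhds, self_mem_nhdsWithin] with s hs1 hs2
  have h3 : (s - 1) ^ m ≠ 0 := pow_ne_zero _ (sub_ne_zero.2 hs2)
  rw [hs1, smul_eq_mul, mul_div_cancel_left₀ _ h3]

lemma log_lead {F : ℂ → ℂ} {m : ℕ} {l : ℂ} (hl : l ≠ 0)
    (h : Tendsto (fun s => F s / (s - 1) ^ m) (𝓝[≠] 1) (𝓝 l)) :
    Tendsto (fun w : ℝ => Real.log ‖F (1 + w)‖ - m * Real.log w) (𝓝[>] 0) (𝓝 (Real.log ‖l‖)) := by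
  have hpath : Tendsto (fun ε : ℝ => (1 + ε : ℂ)) (𝓝[>] 0) (𝓝[≠] 1) := by
    rw [tendsto_nhdsWithin_iff]
    constructor
    · have : ContinuousAt (fun ε : ℝ => (1 + ε : ℂ)) 0 := by fun_prop
      have h2 := this.tendsto
      simp only [Complex.ofReal_zero, add_zero] at h2
      exact h2.mono_left nhdsWithin_le_nhds
    · filter_upwards [self_mem_nhdsWithin] with ε hε
      have hε' : (0 : ℝ) < ε := hε
      simp only [Set.mem_compl_iff, Set.mem_singleton_iff, add_eq_left]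
      exact_mod_cast hε'.ne'
  have hc := h.comp hpath
  have h1 := hc.norm.log (by simpa using hl)
  have hne : ∀ᶠ w : ℝ in 𝓝[>] 0, F (1 + w) / ((1 + w : ℂ) - 1) ^ m ≠ 0 :=
    hc.eventually (isOpen_ne.mem_nhds hl)
  refine h1.congr' ?_
  filter_upwards [self_mem_nhdsWithin, hne] with w hw hw2
  have hw : 0 < w := hw
  have h3 : F (1 + w) ≠ 0 := by
    intro h0
    rw [h0, zero_div] at hw2
    exact hw2 rfl
  simp only [Function.comp]
  rw [add_sub_cancel_left, norm_div, norm_pow, Complex.norm_real, Real.norm_eq_abs, abs_of_pos hw,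
    Real.log_div (by simpa using h3) (by positivity), Real.log_pow]

open Classical in
/-- **The critical exponent.** -/
theorem crit {F : ℂ → ℂ} (hF : IsL a b F) (ε : ℝ) (hε : ε = 1 ∨ ε = -1) (D : ℝ)
    (hD : ∀ η : ℝ, 0 < η → ∀ᶠ w : ℝ in 𝓝[>] 0,
      ε * D - η ≤ ε * (∑' p, dd (Good a b) (al a b) p (1 + w)).re) (C0 : ℝ)
    (m : ℕ) (h : ∀ᶠ n : ℕ in atTop, ε * uu a b m n ≤ C0)
    (hreal : ε = -1 → ∀ σ : ℝ, 1 < σ → F σ ≠ 0) (l : ℂ) (hl : l ≠ 0)
    (hlim : Tendsto (fun s => F s / (s - 1) ^ m) (𝓝[≠] 1) (𝓝 l)) :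
    ε * (m * Real.eulerMascheroniConstant - Real.log ‖l‖ + D) ≤ C0 := by
  have hg : ∀ p, Good a b p → p.Prime := fun p hp => hp.1
  have ha : ∀ p, Good a b p → ‖al a b p‖ = (p : ℝ) ^ (1 / 2 : ℝ) := fun p hp => al_norm hp
  have hε1 : |ε| = 1 := by rcases hε with h | h <;> rw [h] <;> simp
  refine le_of_forall_pos_le_add fun η' hη' => ?_
  set η : ℝ := η' / 4 with hη
  have hη0 : 0 < η := by positivity
  set γ := Real.eulerMascheroniConstant with hγ
  set C1 : ℝ := C0 - ε * m * (γ - KK) + η with hC1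
  -- the hypothesis of `key`
  have hM := (mertens_two.const_mul (ε * m)).sub_const (ε * m * (γ - KK))
  rw [sub_self] at hM
  have hM2 : ∀ᶠ n : ℕ in atTop, |ε * m * (∑ p ∈ (Finset.Icc 1 n).filter Nat.Prime, (1 : ℝ) / p -
      Real.log (Real.log n)) - ε * m * (γ - KK)| < η := by
    have := (Metric.tendsto_nhds.1 hM) η hη0
    filter_upwards [this] with n hn
    rwa [Real.dist_eq, sub_zero] at hn
  obtain ⟨n0, hn0⟩ := eventually_atTop.1 (h.and hM2)
  have hG : ∀ n, n0 ≤ n → 0 ≤ PS C1 (mm (Good a b) (al a b) ε m) n := by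
    intro n hn
    obtain ⟨h1, h2⟩ := hn0 n hn
    rw [PS_eq, hC1]
    unfold uu at h1
    have h3 := (abs_lt.1 h2).1
    set S : ℝ := ∑ p ∈ (Finset.Icc 1 n).filter Nat.Prime, (1 : ℝ) / p with hS
    have e1 : ε * (m * S - Real.log (EP a b n)) =
        ε * m * (S - Real.log (Real.log n)) -
          ε * (Real.log (EP a b n) - m * Real.log (Real.log n)) := by ring
    rw [e1]
    linarith
  have hkey := key hg ha ε m C1 hε n0 hG F hF.1 (prod_of_isL hF) hreal η hη0
  have hD2 := hD η hη0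
  have hL := ((log_lead hl hlim).add (lam_log_tendsto.const_mul (m : ℝ))).const_mul ε
  have hL2 : ∀ᶠ w : ℝ in 𝓝[>] 0, ε * ((Real.log ‖F (1 + w)‖ - m * Real.log w) +
      m * (lam w + Real.log w)) < ε * (Real.log ‖l‖ + m * -KK) + η :=
    hL.eventually (eventually_lt_nhds (by linarith))
  obtain ⟨w, hw1, hw2, hw3⟩ := (hkey.and (hD2.and hL2)).exists
  have e2 : ε * ((Real.log ‖F (1 + w)‖ - m * Real.log w) + m * (lam w + Real.log w)) =
      ε * Real.log ‖F (1 + w)‖ + ε * (m * lam w) := by ring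
  rw [e2] at hw3
  have e3 : ε * (((∑' p, dd (Good a b) (al a b) p (1 + w)).re) - m * lam w) =
      ε * (∑' p, dd (Good a b) (al a b) p (1 + w)).re - ε * (m * lam w) := by ring
  rw [e3] at hw1
  have e4 : η' = 4 * η := by rw [hη]; ring
  rw [e4]
  nlinarith

end

end Pool.Agent.H230R4.BSD
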