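import Pool.Agent.H306R2.Karamata2

/-! Karamata's theorem in dimension one with a sharp cut. -/

set_option autoImplicit false

open Filter Topology MeasureTheory

namespace Pool.Agent.H230R4.BSD

open Pool.Agent.H306R2

lemma kar_smooth (g : ℕ → ℝ) (hg : ∀ n, 0 ≤ g n) (hg0 : g 0 = 0)
    (hs : ∀ w : ℝ, 0 < w → Summable (fun n : ℕ => g n * (n : ℝ) ^ (-w))) (A : ℝ) (hA : 0 ≤ A)
    (hlim : Tendsto (fun w : ℝ => w * ∑' n : ℕ, g n * (n : ℝ) ^ (-w)) (𝓝[>] 0) (𝓝 A))
    (φ : ℝ → ℝ) (hφ : Continuous φ) (M : ℝ) (hM : 0 ≤ M) (h0 : ∀ u, M ≤ u → φ u = 0) :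
    Tendsto (fun L : ℝ => (∑' n : ℕ, g n * φ (Real.log n / L)) / L) atTop
      (𝓝 (A * ∫ u in Set.Ioi (0 : ℝ), φ u)) := by
  let e : (Fin 1 → ℕ) ≃ ℕ := Equiv.funUnique (Fin 1) ℕ
  have he : ∀ b : Fin 1 → ℕ, e b = b 0 := fun b => rfl
  have H : KH 1 (fun b => g (b 0)) := by
    refine ⟨fun b => hg _, fun b hb => ?_, fun s hs0 => ?_⟩
    · obtain ⟨i, hi⟩ := hb
      have : i = 0 := Subsingleton.elim _ _
      rw [this] at hi
      simp only [hi, hg0]
    · have h1 := (e.summable_iff).2 (hs (s 0) (hs0 0))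
      refine h1.congr fun b => ?_
      simp only [Function.comp_apply, he, Finset.univ_unique, Fin.default_eq_zero,
        Finset.prod_singleton]
  have hk := karamata H 1 A hA (fun _ => 1) (fun _ => one_pos) (by
    intro s hs0
    have h1 : Tendsto (fun L : ℝ => s 0 / L) atTop (𝓝[>] 0) := by
      rw [tendsto_nhdsWithin_iff]
      refine ⟨tendsto_const_nhds.div_atTop tendsto_id, ?_⟩
      filter_upwards [eventually_gt_atTop 0] with L hL
      exact div_pos (hs0 0) hL
    have h2 := (hlim.comp h1).div_const (s 0)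
    have h3 : A * ∏ i : Fin 1, (s i) ^ (-(1 : ℝ)) = A / s 0 := by
      simp only [Finset.univ_unique, Fin.default_eq_zero, Finset.prod_singleton]
      rw [Real.rpow_neg_one]; rfl
    rw [h3]
    refine h2.congr' ?_
    filter_upwards [eventually_gt_atTop 0] with L hL
    simp only [Function.comp]
    have h4 : (∑' b : Fin 1 → ℕ, g (b 0) * ∏ i, (b i : ℝ) ^ (-(s i / L))) =
        ∑' n : ℕ, g n * (n : ℝ) ^ (-(s 0 / L)) := by
      rw [← e.tsum_eq]
      refine tsum_congr fun b => ?_
      simp only [he, Finset.univ_unique, Fin.default_eq_zero, Finset.prod_singleton]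
    rw [h4, Real.rpow_one]
    have := (hs0 0).ne'
    field_simp) (fun u => φ (u 0)) (by fun_prop) M (by
      intro u _ hu
      obtain ⟨i, hi⟩ := hu
      have : i = 0 := Subsingleton.elim _ _
      rw [this] at hi
      exact h0 _ hi) hM
  have h5 : ∫ u : Fin 1 → ℝ, Gd (fun _ => 1) u * φ (u 0) = ∫ u in Set.Ioi (0 : ℝ), φ u := by
    rw [← integral_indicator measurableSet_Ioi,
      ← (volume_preserving_funUnique (Fin 1) ℝ).integral_comp
        (MeasurableEquiv.measurableEmbedding _)]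
    refine integral_congr_ae (Eventually.of_forall fun u => ?_)
    simp only [MeasurableEquiv.funUnique_apply, Fin.default_eq_zero]
    unfold Gd gd
    simp only [Finset.univ_unique, Fin.default_eq_zero, Finset.prod_singleton, sub_self,
      Real.rpow_zero, Real.Gamma_one, div_one]
    by_cases hu : 0 < u 0
    · rw [if_pos hu, Set.indicator_of_mem (by exact hu), one_mul]
    · rw [if_neg hu, Set.indicator_of_notMem (by exact hu), zero_mul]
  rw [h5] at hk
  refine hk.congr' ?_
  filter_upwards [eventually_gt_atTop 0] with L hL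
  rw [Real.rpow_one]
  congr 1
  rw [← e.tsum_eq]
  refine tsum_congr fun b => ?_
  rfl

lemma integrable_cut {φ : ℝ → ℝ} (hφ : Continuous φ) {M : ℝ} (h0 : ∀ u, M ≤ u → φ u = 0) :
    IntegrableOn φ (Set.Ioi 0) := by
  have h1 : IntegrableOn φ (Set.Icc 0 M) := hφ.continuousOn.integrableOn_compact isCompact_Icc
  have h2 : IntegrableOn φ (Set.Ioi M) := by
    refine IntegrableOn.congr_fun (integrableOn_zero) ?_ measurableSet_Ioi
    intro u hu
    exact (h0 u (le_of_lt hu)).symm
  refine (h1.union h2).mono_set ?_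
  intro u hu
  rcases le_or_gt u M with h | h
  · exact Or.inl ⟨le_of_lt hu, h⟩
  · exact Or.inr h

/-- **Karamata's theorem.** -/
theorem kar (g : ℕ → ℝ) (hg : ∀ n, 0 ≤ g n) (hg0 : g 0 = 0)
    (hs : ∀ w : ℝ, 0 < w → Summable (fun n : ℕ => g n * (n : ℝ) ^ (-w))) (A : ℝ)
    (hlim : Tendsto (fun w : ℝ => w * ∑' n : ℕ, g n * (n : ℝ) ^ (-w)) (𝓝[>] 0) (𝓝 A)) :
    Tendsto (fun N : ℕ => (∑ n ∈ Finset.Icc 1 N, g n) / Real.log N) atTop (𝓝 A) := by
  have hA : 0 ≤ A := by
    refine ge_of_tendsto hlim ?_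
    filter_upwards [self_mem_nhdsWithin] with w hw
    exact mul_nonneg (le_of_lt hw) (tsum_nonneg fun n => mul_nonneg (hg n) (by positivity))
  have hlogN : Tendsto (fun N : ℕ => Real.log (N : ℝ)) atTop atTop :=
    Real.tendsto_log_atTop.comp tendsto_natCast_atTop_atTop
  rw [Metric.tendsto_nhds]
  intro ε hε
  set δ : ℝ := ε / (2 * (A + 1)) with hδ
  have hδ0 : 0 < δ := by positivity
  have hAδ : A * δ ≤ ε / 2 := by
    rw [hδ, mul_div_assoc']
    rw [div_le_div_iff₀ (by positivity) (by norm_num)]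
    nlinarith
  -- the two test functions
  set φ2 : ℝ → ℝ := fun u => max 0 (min 1 ((1 + δ - u) / δ)) with hφ2
  set φ1 : ℝ → ℝ := fun u => max 0 (min 1 ((1 - u) / δ)) with hφ1
  have c2 : Continuous φ2 := by rw [hφ2]; fun_prop
  have c1 : Continuous φ1 := by rw [hφ1]; fun_prop
  have z2 : ∀ u, 1 + δ ≤ u → φ2 u = 0 := by
    intro u hu
    rw [hφ2]
    simp only
    have : (1 + δ - u) / δ ≤ 0 := div_nonpos_of_nonpos_of_nonneg (by linarith) hδ0.le
    exact max_eq_left ((min_le_right _ _).trans this)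
  have z1 : ∀ u, 1 ≤ u → φ1 u = 0 := by
    intro u hu
    rw [hφ1]
    simp only
    have : (1 - u) / δ ≤ 0 := div_nonpos_of_nonpos_of_nonneg (by linarith) hδ0.le
    exact max_eq_left ((min_le_right _ _).trans this)
  have n2 : ∀ u, 0 ≤ φ2 u := fun u => le_max_left _ _
  have n1 : ∀ u, 0 ≤ φ1 u := fun u => le_max_left _ _
  have l2 : ∀ u, φ2 u ≤ 1 := fun u => max_le zero_le_one (min_le_left _ _)
  have l1 : ∀ u, φ1 u ≤ 1 := fun u => max_le zero_le_one (min_le_left _ _)
  have o2 : ∀ u, u ≤ 1 → φ2 u = 1 := by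
    intro u hu
    rw [hφ2]
    simp only
    have : 1 ≤ (1 + δ - u) / δ := by rw [le_div_iff₀ hδ0]; linarith
    rw [min_eq_left this, max_eq_right zero_le_one]
  have o1 : ∀ u, u ≤ 1 - δ → φ1 u = 1 := by
    intro u hu
    rw [hφ1]
    simp only
    have : 1 ≤ (1 - u) / δ := by rw [le_div_iff₀ hδ0]; linarith
    rw [min_eq_left this, max_eq_right zero_le_one]
  have i2 : ∫ u in Set.Ioi (0 : ℝ), φ2 u ≤ 1 + δ := by
    have h1 : ∫ u in Set.Ioi (0 : ℝ), φ2 u ≤
        ∫ u in Set.Ioi (0 : ℝ), (Set.Iic (1 + δ)).indicator (fun _ => (1 : ℝ)) u := by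
      refine integral_mono (integrable_cut c2 z2) ?_ (fun u => ?_)
      · rw [integrable_indicator_iff measurableSet_Iic]
        refine (integrableOn_const (C := (1 : ℝ)) ?_)
        rw [Measure.restrict_apply measurableSet_Iic, Set.inter_comm, Set.Ioi_inter_Iic]
        simp
      · by_cases h : u ≤ 1 + δ
        · rw [Set.indicator_of_mem (by exact h)]; exact l2 u
        · rw [Set.indicator_of_notMem (by exact h)]
          exact (z2 u (by linarith [not_le.1 h])).le
    refine h1.trans (le_of_eq ?_)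
    rw [integral_indicator measurableSet_Iic, Measure.restrict_restrict measurableSet_Iic,
      Set.inter_comm, Set.Ioi_inter_Iic]
    simp
    linarith
  have i1 : 1 - δ ≤ ∫ u in Set.Ioi (0 : ℝ), φ1 u := by
    have h1 : ∫ u in Set.Ioi (0 : ℝ), (Set.Iic (1 - δ)).indicator (fun _ => (1 : ℝ)) u ≤
        ∫ u in Set.Ioi (0 : ℝ), φ1 u := by
      refine integral_mono ?_ (integrable_cut c1 z1) (fun u => ?_)
      · rw [integrable_indicator_iff measurableSet_Iic]
        refine (integrableOn_const (C := (1 : ℝ)) ?_)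
        rw [Measure.restrict_apply measurableSet_Iic, Set.inter_comm, Set.Ioi_inter_Iic]
        simp
      · by_cases h : u ≤ 1 - δ
        · rw [Set.indicator_of_mem (by exact h)]; exact (o1 u h).ge
        · rw [Set.indicator_of_notMem (by exact h)]
          exact n1 u
    refine le_trans ?_ h1
    rw [integral_indicator measurableSet_Iic, Measure.restrict_restrict measurableSet_Iic,
      Set.inter_comm, Set.Ioi_inter_Iic]
    simp
  have k2 := (kar_smooth g hg hg0 hs A hA hlim φ2 c2 (1 + δ) (by positivity) z2).comp hlogN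
  have k1 := (kar_smooth g hg hg0 hs A hA hlim φ1 c1 1 zero_le_one z1).comp hlogN
  have e2 : A * ∫ u in Set.Ioi (0 : ℝ), φ2 u ≤ A + ε / 2 := by
    have := mul_le_mul_of_nonneg_left i2 hA
    linarith
  have e1 : A - ε / 2 ≤ A * ∫ u in Set.Ioi (0 : ℝ), φ1 u := by
    have := mul_le_mul_of_nonneg_left i1 hA
    linarith
  -- finite support
  have fs : ∀ (φ : ℝ → ℝ) (M L : ℝ), 0 < L → (∀ u, M ≤ u → φ u = 0) →
      Summable (fun n : ℕ => g n * φ (Real.log n / L)) := by
    intro φ M L hL hz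
    refine summable_of_ne_finset_zero (s := Finset.range (⌈Real.exp (M * L)⌉₊ + 1)) (fun n hn => ?_)
    rw [Finset.mem_range, not_lt] at hn
    have h1 : Real.exp (M * L) ≤ n := (Nat.le_ceil _).trans (by exact_mod_cast (by omega))
    have h2 : M * L ≤ Real.log n := by
      rw [← Real.log_exp (M * L)]
      exact Real.log_le_log (Real.exp_pos _) h1
    rw [hz _ (by rwa [le_div_iff₀ hL]), mul_zero]
  filter_upwards [k2.eventually (eventually_lt_nhds (b := A + ε) (by linarith)),
    k1.eventually (eventually_gt_nhds (b := A - ε) (by linarith)),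
    hlogN.eventually (eventually_gt_atTop 0), eventually_ge_atTop 1] with N h2 h1 hL hN
  simp only [Function.comp] at h1 h2
  set L := Real.log (N : ℝ) with hLdef
  have hN0 : (0 : ℝ) < N := by exact_mod_cast hN
  have u2 : ∑ n ∈ Finset.Icc 1 N, g n ≤ ∑' n : ℕ, g n * φ2 (Real.log n / L) := by
    refine le_trans ?_ ((fs φ2 _ L hL z2).sum_le_tsum (Finset.Icc 1 N)
      (fun n _ => mul_nonneg (hg n) (n2 _)))
    refine Finset.sum_le_sum fun n hn => ?_
    have h3 := Finset.mem_Icc.1 hn
    have h4 : Real.log n / L ≤ 1 := by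
      rw [div_le_one hL]
      exact Real.log_le_log (by exact_mod_cast h3.1) (by exact_mod_cast h3.2)
    rw [o2 _ h4, mul_one]
  have u1 : ∑' n : ℕ, g n * φ1 (Real.log n / L) ≤ ∑ n ∈ Finset.Icc 1 N, g n := by
    have h3 : ∀ n ∉ Finset.Icc 1 N, g n * φ1 (Real.log n / L) = 0 := by
      intro n hn
      rcases Nat.eq_zero_or_pos n with h0 | h0
      · rw [h0, hg0, zero_mul]
      · have h4 : N < n := by
          by_contra h5
          exact hn (Finset.mem_Icc.2 ⟨h0, not_lt.1 h5⟩)
        have h5 : 1 ≤ Real.log n / L := by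
          rw [one_le_div hL]
          exact Real.log_le_log hN0 (by exact_mod_cast h4.le)
        rw [z1 _ h5, mul_zero]
    rw [tsum_eq_sum h3]
    refine Finset.sum_le_sum fun n _ => ?_
    exact mul_le_of_le_one_right (hg n) (l1 _)
  rw [Real.dist_eq, abs_lt]
  constructor
  · have h5 : (∑' n : ℕ, g n * φ1 (Real.log n / L)) / L ≤ (∑ n ∈ Finset.Icc 1 N, g n) / L :=
      div_le_div_of_nonneg_right u1 hL.le
    linarith
  · have h5 : (∑ n ∈ Finset.Icc 1 N, g n) / L ≤ (∑' n : ℕ, g n * φ2 (Real.log n / L)) / L :=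
      div_le_div_of_nonneg_right u2 hL.le
    linarith

end Pool.Agent.H230R4.BSD
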