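import Pool.Agent.H230R4.BSD.Fin
import Pool.Agent.H230R4.BSD.Kar

/-! The generating function of the partial products with its exact behaviour at the centre. -/

set_option autoImplicit false

open Complex Filter Topology Finset

namespace Pool.Agent.H230R4.BSD

open Pool.Agent.H438R3.BSD

section

variable {good : ℕ → Prop} {α : ℕ → ℂ}
variable [DecidablePred good]
variable (hgood : ∀ p, good p → p.Prime) (hα : ∀ p, good p → ‖α p‖ = (p : ℝ) ^ (1 / 2 : ℝ))

include hgood hα

/-- **One-sided bounds with exact constants.** -/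
theorem key2 (ε κ C : ℝ) (hε : ε = 1 ∨ ε = -1) (n0 : ℕ)
    (hG : ∀ n, n0 ≤ n → 0 ≤ PS C (mm good α ε κ) n) (F : ℂ → ℂ) (hF : Differentiable ℂ F)
    (hprod : ∀ s : ℂ, 3 / 2 < s.re → HasProd (fun p : ℕ => if good p then
      ((1 - α p * (p : ℂ) ^ (-s)) * (1 - starRingEnd ℂ (α p) * (p : ℂ) ^ (-s)))⁻¹ else 1) (F s))
    (hreal : ε = -1 → ∀ σ : ℝ, 1 < σ → F σ ≠ 0) :
    (∀ s : ℂ, 1 < s.re → LSeriesSummable
      (fun n => ((if n0 ≤ n then PS C (mm good α ε κ) n else 0 : ℝ) : ℂ)) s) ∧
    (∀ s : ℂ, 1 < s.re → F s ≠ 0) ∧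
    Tendsto (fun w : ℝ => w * (LSeries
        (fun n => ((if n0 ≤ n then PS C (mm good α ε κ) n else 0 : ℝ) : ℂ)) ((1 + w : ℝ) : ℂ)).re -
      (ε * Real.log ‖F (1 + w)‖ -
        ε * ((∑' p, dd good α p (1 + w)).re - κ * Pool.Agent.H341R2.lam w) + C)) (𝓝[>] 0) (𝓝 0) := by
  have hε1 : |ε| = 1 := by rcases hε with h | h <;> rw [h] <;> simp
  have hε2 : (ε : ℂ) * ε = 1 := by
    rcases hε with h | h <;> rw [h] <;> push_cast <;> ring
  have hε3 : ε * ε = 1 := by rcases hε with h | h <;> rw [h] <;> norm_num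
  set m := mm good α ε κ with hm
  set Kc : ℝ := |C| + 2 * (|κ| + 5) with hKc
  have hKc0 : 0 ≤ Kc := by positivity
  have hPS : ∀ n : ℕ, 1 ≤ n → |PS C m n| ≤ Kc * (n : ℝ) ^ (1 / 2 : ℝ) :=
    fun n hn => PS_le hgood hα ε κ C hε1 n hn
  set G : ℕ → ℝ := fun n => if n0 ≤ n then PS C m n else 0 with hGdef
  have hG0 : ∀ n, 0 ≤ G n := by
    intro n
    rw [hGdef]
    simp only
    split_ifs with h
    · exact hG n h
    · exact le_rfl
  set W : ℂ → ℂ := fun s => (∑' p, dd good α p s) - κ * LSeries pr s - ε * (EE C m s + C) +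
    ε * (s - 1) * fin0 n0 (PS C m) s with hW
  have hWd : DifferentiableOn ℂ W {s | 1 < s.re} := by
    apply DifferentiableOn.add
    · apply DifferentiableOn.sub
      · exact (DD_differentiable hgood hα).sub (pr_differentiable.const_mul _)
      · exact ((EE_differentiable hKc0 hPS).add_const _).const_mul _
    · apply DifferentiableOn.mul (by fun_prop)
      exact (fin0_differentiable n0 (PS C m)).differentiableOn
  have hrel : ∀ s : ℂ, 3 / 2 < s.re →
      F s = exp (W s + ε * (s - 1) * LSeries (fun n => (G n : ℂ)) s) := by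
    intro s hs
    have hs1 : 1 < s.re := by linarith
    -- the sum over the terms
    have hL : Summable (fun n : ℕ => (ell good α n : ℂ) * (n : ℂ) ^ (1 - s)) := by
      refine Summable.of_norm_bounded
        ((Real.summable_nat_rpow.2 (by linarith : 1 / 2 - s.re < -1)).mul_left 5) (fun n => ?_)
      rcases Nat.eq_zero_or_pos n with h0 | h0
      · rw [h0]
        have : ¬ good 0 := fun h => Nat.not_prime_zero (hgood 0 h)
        simp only [ell, if_neg this, Complex.ofReal_zero, zero_mul, norm_zero]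
        positivity
      · have hn0 : (0 : ℝ) < n := by exact_mod_cast h0
        rw [norm_mul, Complex.norm_real, Real.norm_eq_abs, Complex.norm_natCast_cpow_of_pos h0]
        have h1 := ell_le hgood hα n h0
        calc |ell good α n| * (n : ℝ) ^ (1 - s).re ≤
            (5 * (n : ℝ) ^ (-(1 / 2) : ℝ)) * (n : ℝ) ^ (1 - s).re :=
              mul_le_mul_of_nonneg_right h1 (by positivity)
          _ = 5 * ((n : ℝ) ^ (-(1 / 2) : ℝ) * (n : ℝ) ^ (1 - s).re) := by ring
          _ = 5 * (n : ℝ) ^ (1 / 2 - s.re) := by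
              rw [← Real.rpow_add hn0]; congr 2; simp; ring
    have hD := dd_summable hgood hα hs1
    have hLL : HasSum (fun p => LL good α p s)
        ((∑' p, dd good α p s) - ∑' n : ℕ, (ell good α n : ℂ) * (n : ℂ) ^ (1 - s)) := by
      have h1 := hD.hasSum.sub hL.hasSum
      have e : (fun p => LL good α p s) = fun p => dd good α p s - (ell good α p : ℂ) * (p : ℂ) ^ (1 - s) := by
        funext p
        rw [dd_eq hgood hα]
        ring
      rw [e]
      exact h1
    have hFe : F s = exp ((∑' p, dd good α p s) - ∑' n : ℕ, (ell good α n : ℂ) * (n : ℂ) ^ (1 - s)) := by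
      refine (hprod s hs).unique ?_
      have h2 := hLL.cexp
      convert h2 using 1
      funext p
      simp only [Function.comp_apply]
      unfold LL
      split_ifs with hp
      · have hpp := hgood p hp
        have hp2 : (2 : ℝ) ≤ p := by exact_mod_cast hpp.two_le
        have hne : ∀ β : ℂ, ‖β‖ = (p : ℝ) ^ (1 / 2 : ℝ) → 1 - β * (p : ℂ) ^ (-s) ≠ 0 := by
          intro β hβ h0
          have h3 := norm_a hpp hβ s
          have h4 : ‖β * (p : ℂ) ^ (-s)‖ < 1 := by
            rw [h3]; exact lt_of_le_of_lt (x_rpow_le hp2 (by linarith)) (by norm_num)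
          have h5 : β * (p : ℂ) ^ (-s) = 1 := (sub_eq_zero.1 h0).symm
          rw [h5, norm_one] at h4
          exact lt_irrefl _ h4
        rw [Complex.exp_add, Complex.exp_neg, Complex.exp_neg, Complex.exp_log (hne _ (hα p hp)),
          Complex.exp_log (hne _ (norm_conj_alpha hgood hα hp)), mul_inv]
      · rw [Complex.exp_zero]
    have hP : HasSum (fun n : ℕ => (m (n + 1) : ℂ) * ((n + 1 : ℕ) : ℂ) ^ (1 - s))
        (ε * (κ * LSeries pr s - ∑' n : ℕ, (ell good α n : ℂ) * (n : ℂ) ^ (1 - s))) := by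
      have h1 : HasSum (LSeries.term pr s) (LSeries pr s) := (pr_summable hs1).hasSum
      have h2 := ((h1.mul_left (κ : ℂ)).sub hL.hasSum).mul_left (ε : ℂ)
      have e : (fun n : ℕ => (ε : ℂ) * (κ * LSeries.term pr s n - (ell good α n : ℂ) * (n : ℂ) ^ (1 - s))) =
          fun n : ℕ => (m n : ℂ) * ((n : ℕ) : ℂ) ^ (1 - s) := by
        funext n
        by_cases hp : n.Prime
        · have hnc : (n : ℂ) ≠ 0 := by exact_mod_cast hp.ne_zero
          rw [LSeries.term_of_ne_zero hp.ne_zero, hm]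
          unfold mm pr
          rw [if_pos hp, if_pos hp, sub_eq_add_neg 1 s, Complex.cpow_add _ _ hnc, Complex.cpow_one,
            Complex.cpow_neg]
          have hns : (n : ℂ) ^ s ≠ 0 := by
            rw [Complex.cpow_ne_zero_iff]; exact Or.inl hnc
          push_cast
          field_simp
        · have hng : ¬ good n := fun h => hp (hgood n h)
          rw [hm]
          unfold mm ell LSeries.term pr
          simp [hp, hng]
      rw [e] at h2
      have h3 := (hasSum_nat_add_iff' (f := fun n : ℕ => (m n : ℂ) * ((n : ℕ) : ℂ) ^ (1 - s)) 1).2 h2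
      have h4 : m 0 = 0 := by rw [hm]; unfold mm; simp [Nat.not_prime_zero]
      simp only [sum_range_one, h4, Complex.ofReal_zero, zero_mul, sub_zero] at h3
      exact h3
    have hab := abel_rel hKc0 hPS s hs _ hP
    have hsp := (split_LSeries n0 (PS C m) s (PS_summable hPS s hs)).2
    rw [hFe]
    congr 1
    have e6 : (ε : ℂ) * (s - 1) * LSeries (fun n => (PS C m n : ℂ)) s =
        ε * (EE C m s + C + ε * (κ * LSeries pr s - ∑' n : ℕ, (ell good α n : ℂ) * (n : ℂ) ^ (1 - s))) := by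
      rw [← hab]; ring
    have e7 : (ε : ℂ) * (s - 1) * LSeries (fun n => (G n : ℂ)) s =
        ε * (EE C m s + C + ε * (κ * LSeries pr s - ∑' n : ℕ, (ell good α n : ℂ) * (n : ℂ) ^ (1 - s))) -
          ε * (s - 1) * fin0 n0 (PS C m) s := by
      rw [← e6, hsp]
      ring
    rw [e7, hW]
    simp only
    linear_combination (-(κ * LSeries pr s - ∑' n : ℕ, (ell good α n : ℂ) * (n : ℂ) ^ (1 - s))) * hε2
  obtain ⟨hsum, hall⟩ := core G hG0 ε hε F W hF hWd
    (fun s hs => (split_LSeries n0 (PS C m) s (PS_summable hPS s hs)).1) hrel hreal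
  refine ⟨hsum, fun s hs => by rw [hall s hs]; exact Complex.exp_ne_zero _, ?_⟩
  have hw1 : ∀ᶠ w : ℝ in 𝓝[>] 0, w ≤ 1 := by
    have : Set.Iic (1 : ℝ) ∈ 𝓝 (0 : ℝ) := Iic_mem_nhds one_pos
    exact mem_nhdsWithin_of_mem_nhds this
  -- the two small terms
  have hs1 : Tendsto (fun w : ℝ => w * (2 * Kc * K32)) (𝓝[>] 0) (𝓝 0) := by
    have : Tendsto (fun w : ℝ => w * (2 * Kc * K32)) (𝓝 0) (𝓝 (0 * (2 * Kc * K32))) :=
      (continuous_id.mul continuous_const).tendsto 0
    rw [zero_mul] at this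
    exact this.mono_left nhdsWithin_le_nhds
  have hs2 : Tendsto (fun w : ℝ => w * ‖fin0 n0 (PS C m) (1 + w)‖) (𝓝[>] 0) (𝓝 0) := by
    have hc : Continuous (fun w : ℝ => w * ‖fin0 n0 (PS C m) (1 + w)‖) := by
      have := (fin0_differentiable n0 (PS C m)).continuous
      fun_prop
    have := hc.tendsto 0
    rw [zero_mul] at this
    exact this.mono_left nhdsWithin_le_nhds
  have hs3 := hs1.add hs2
  rw [add_zero] at hs3
  refine squeeze_zero_norm' ?_ hs3
  filter_upwards [self_mem_nhdsWithin, hw1] with w h3 h4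
  have hw : (0 : ℝ) < w := h3
  have hre : (1 : ℝ) < ((1 : ℂ) + w).re := by simp [hw]
  have h5 := hall (1 + w) hre
  have h6 : Real.log ‖F (1 + w)‖ = (W (1 + w)).re +
      (ε * ((1 + w : ℂ) - 1) * LSeries (fun n => (G n : ℂ)) (1 + w)).re := by
    rw [h5, Complex.norm_exp, Real.log_exp, add_re]
  have h7 : (ε * ((1 + w : ℂ) - 1) * LSeries (fun n => (G n : ℂ)) (1 + w)).re =
      ε * (w * (LSeries (fun n => (G n : ℂ)) ((1 + w : ℝ) : ℂ)).re) := by
    have e1 : (ε : ℂ) * ((1 + w : ℂ) - 1) = ((ε * w : ℝ) : ℂ) := by push_cast; ring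
    have e2 : ((1 : ℂ) + w) = ((1 + w : ℝ) : ℂ) := by push_cast; rfl
    rw [e1, Complex.re_ofReal_mul, e2]
    ring
  have h10 : ε * Real.log ‖F (1 + w)‖ = ε * (W (1 + w)).re +
      w * (LSeries (fun n => (G n : ℂ)) ((1 + w : ℝ) : ℂ)).re := by
    rw [h6, h7, mul_add, ← mul_assoc ε ε, hε3, one_mul]
  have h11 : (W (1 + w)).re = (∑' p, dd good α p (1 + w)).re - κ * Pool.Agent.H341R2.lam w -
      ε * ((EE C m (1 + w)).re + C) + ε * (w * (fin0 n0 (PS C m) (1 + w)).re) := by
    rw [hW]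
    simp only
    rw [pr_eq_lam hw]
    have e1 : (ε : ℂ) * ((1 + w : ℂ) - 1) = ((ε * w : ℝ) : ℂ) := by push_cast; ring
    rw [e1]
    simp only [sub_re, re_ofReal_mul, add_re, ofReal_re]
    ring
  have h13 : |(EE C m (1 + w)).re| ≤ w * (2 * Kc * K32) := by
    refine (Complex.abs_re_le_norm _).trans ((EE_bound hKc0 hPS (1 + w) hre.le).2.trans ?_)
    have e3 : ‖(1 : ℂ) + w - 1‖ = w := by
      rw [add_sub_cancel_left, Complex.norm_real, Real.norm_eq_abs, abs_of_pos hw]
    have e4 : ‖(1 : ℂ) + w‖ = 1 + w := by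
      have : ((1 : ℂ) + w) = ((1 + w : ℝ) : ℂ) := by push_cast; rfl
      rw [this, Complex.norm_real, Real.norm_eq_abs, abs_of_pos (by linarith)]
    rw [e3, e4]
    have hK32 : 0 ≤ K32 := tsum_nonneg fun n => by positivity
    have e5 : w * (1 + w) ≤ w * 2 := by nlinarith
    calc w * (1 + w) * Kc * K32 ≤ w * 2 * Kc * K32 := by gcongr
      _ = _ := by ring
  have h14 : |w * (fin0 n0 (PS C m) (1 + w)).re| ≤ w * ‖fin0 n0 (PS C m) (1 + w)‖ := by
    rw [abs_mul, abs_of_pos hw]
    exact mul_le_mul_of_nonneg_left (Complex.abs_re_le_norm _) hw.le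
  have e20 : w * (LSeries (fun n => (G n : ℂ)) ((1 + w : ℝ) : ℂ)).re -
      (ε * Real.log ‖F (1 + w)‖ - ε * ((∑' p, dd good α p (1 + w)).re -
        κ * Pool.Agent.H341R2.lam w) + C) =
      (EE C m (1 + w)).re - (w * (fin0 n0 (PS C m) (1 + w)).re) := by
    rw [h10, h11]
    linear_combination ((EE C m (1 + w)).re + C - (w * (fin0 n0 (PS C m) (1 + w)).re)) * hε3
  rw [e20, Real.norm_eq_abs]
  refine (abs_sub _ _).trans ?_
  linarith

end

end Pool.Agent.H230R4.BSD
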