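import Pool.Agent.H438R3.BSD.Main2
import Pool.Agent.H305R2.MertensE

/-! Constants in the theorems of Mertens. -/

set_option autoImplicit false

open Filter Topology Complex

namespace Pool.Agent.H230R4.BSD

open Pool.Agent.H305R2 Pool.Agent.H341R2 Pool.Agent.H438R3.BSD

/-- the constant `γ - M` -/
noncomputable def KK : ℝ := ∑' n, kk 0 n

lemma lam_eq_fp {d : ℝ} (hd : 0 < d) : ∑' n : ℕ, fp n * (n : ℝ) ^ (-d) = lam d := by
  have h1 := lam_hasSum hd
  rw [← h1.tsum_eq]
  refine tsum_congr fun n => ?_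
  by_cases hn : n.Prime
  · have hn0 : (0 : ℝ) < n := by exact_mod_cast hn.pos
    unfold fp
    rw [if_pos hn, if_pos hn, neg_add, Real.rpow_add hn0, Real.rpow_neg_one, one_div]
  · simp [fp, hn]

lemma tendsto_one_add : Tendsto (fun d : ℝ => 1 + d) (𝓝[>] 0) (𝓝[>] 1) := by
  refine tendsto_nhdsWithin_iff.2 ⟨?_, ?_⟩
  · have : Tendsto (fun d : ℝ => 1 + d) (𝓝 0) (𝓝 (1 + 0)) := by
      exact (continuous_const.add continuous_id).tendsto 0
    rw [add_zero] at this
    exact this.mono_left nhdsWithin_le_nhds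
  · filter_upwards [self_mem_nhdsWithin] with d hd
    have hd : 0 < d := hd
    simp only [Set.mem_Ioi]
    linarith

theorem lam_log_tendsto : Tendsto (fun w : ℝ => lam w + Real.log w) (𝓝[>] 0) (𝓝 (-KK)) := by
  have hlog : Tendsto (fun d : ℝ => Real.log (riemannZeta ((1 + d : ℝ) : ℂ)).re + Real.log d) (𝓝[>] 0)
      (𝓝 0) := by
    have h1 := log_riemannZeta_add_log_sub_isLittleO_ofReal.tendsto_div_nhds_zero
    simp only [div_one] at h1
    have h3 := h1.comp tendsto_one_add
    refine h3.congr fun d => ?_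
    simp only [Function.comp, add_sub_cancel_left]
  have h := hlog.sub tendsto_tsum_kk
  rw [zero_sub] at h
  refine h.congr' ?_
  filter_upwards [self_mem_nhdsWithin] with d hd
  rw [log_zeta_eq hd, lam_eq_fp hd]
  ring

theorem two_mul_tendsto : Tendsto (fun w : ℝ => 2 * w) (𝓝[>] 0) (𝓝[>] 0) := by
  rw [tendsto_nhdsWithin_iff]
  constructor
  · have : Tendsto (fun w : ℝ => 2 * w) (𝓝 0) (𝓝 (2 * 0)) :=
      (continuous_const.mul continuous_id).tendsto 0
    rw [mul_zero] at this
    exact this.mono_left nhdsWithin_le_nhds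
  · filter_upwards [self_mem_nhdsWithin] with w hw
    have hw : 0 < w := hw
    show 0 < 2 * w
    linarith

theorem lam_sub_tendsto : Tendsto (fun w : ℝ => lam w - lam (2 * w)) (𝓝[>] 0) (𝓝 (Real.log 2)) := by
  have h1 := lam_log_tendsto
  have h2 := h1.comp two_mul_tendsto
  have h3 := (h1.sub h2).add_const (Real.log 2)
  rw [sub_self, zero_add] at h3
  refine h3.congr' ?_
  filter_upwards [self_mem_nhdsWithin] with w hw
  have hw : 0 < w := hw
  simp only [Function.comp]
  rw [Real.log_mul (by norm_num) hw.ne']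
  ring

theorem mertens_two : Tendsto
    (fun N : ℕ => ∑ p ∈ (Finset.Icc 1 N).filter Nat.Prime, (1 : ℝ) / p - Real.log (Real.log N))
    atTop (𝓝 (Real.eulerMascheroniConstant - KK)) := by
  obtain ⟨M, hM⟩ := mertens_inv_tendsto
  have hs : Tendsto (fun N : ℕ => ∑ n ∈ Finset.range (N + 1), kk 0 n) atTop (𝓝 KK) :=
    ((summable_kk le_rfl).hasSum.tendsto_sum_nat).comp (tendsto_add_atTop_nat 1)
  have h1 := (hM.add hs)
  have h3 := mertens_three.log (Real.exp_pos _).ne'
  rw [Real.log_exp] at h3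
  have h4 : M + KK = Real.eulerMascheroniConstant := by
    refine tendsto_nhds_unique h1 (h3.congr' ?_)
    filter_upwards [eventually_ge_atTop 3] with N hN
    have hl : 0 < Real.log N := Real.log_pos (by exact_mod_cast (by omega : 1 < N))
    have hpos : ∀ p ∈ (Finset.Icc 1 N).filter Nat.Prime, (0 : ℝ) < (1 - (p : ℝ)⁻¹)⁻¹ := by
      intro p hp
      have hp2 : (2 : ℝ) ≤ p := by exact_mod_cast (Finset.mem_filter.1 hp).2.two_le
      have : (p : ℝ)⁻¹ ≤ 2⁻¹ := inv_anti₀ (by norm_num) hp2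
      have : (0 : ℝ) < 1 - (p : ℝ)⁻¹ := by linarith [this, (by norm_num : (2 : ℝ)⁻¹ < 1)]
      positivity
    rw [Real.log_div (Finset.prod_pos hpos).ne' hl.ne', Real.log_prod (fun p hp => (hpos p hp).ne')]
    have e1 : ∑ n ∈ Finset.range (N + 1), kk 0 n = ∑ p ∈ (Finset.Icc 1 N).filter Nat.Prime, kk 0 p := by
      rw [Finset.sum_filter]
      have e2 : Finset.range (N + 1) = insert 0 (Finset.Icc 1 N) := by
        ext k; simp only [Finset.mem_range, Finset.mem_insert, Finset.mem_Icc]; omega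
      rw [e2, Finset.sum_insert (by simp)]
      have e3 : kk 0 0 = 0 := by simp [kk, Nat.not_prime_zero]
      rw [e3, zero_add]
      refine Finset.sum_congr rfl fun k _ => ?_
      by_cases hk : k.Prime
      · rw [if_pos hk]
      · rw [if_neg hk]; simp [kk, hk]
    rw [e1]
    have e4 : ∑ p ∈ (Finset.Icc 1 N).filter Nat.Prime, Real.log (1 - (p : ℝ)⁻¹)⁻¹ =
        ∑ p ∈ (Finset.Icc 1 N).filter Nat.Prime, ((1 : ℝ) / p) +
          ∑ p ∈ (Finset.Icc 1 N).filter Nat.Prime, kk 0 p := by
      rw [← Finset.sum_add_distrib]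
      refine Finset.sum_congr rfl fun p hp => ?_
      have hpp := (Finset.mem_filter.1 hp).2
      unfold kk
      rw [if_pos hpp, Real.log_inv, add_zero, Real.rpow_neg_one]
      ring
    rw [e4]
    ring
  have h5 : M = Real.eulerMascheroniConstant - KK := by linarith
  rw [← h5]
  exact hM

end Pool.Agent.H230R4.BSD
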