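import Pool.Agent.H230R4.BSD.TJac

/-! Sums over prime powers for the odd cohomology of powers of hyperelliptic curves. -/

set_option autoImplicit false

open Filter Topology

namespace Pool.Agent.H230R4.BSD.TCn

open Pool.Agent.H341R2 (GoodPrime traceH goodFactor)
open Pool.Agent.H230R4.BSD.TJac (SJ mem_SJ card_SJ)

open Classical in
/-- the normalised traces at the good primes -/
noncomputable def cN (f : Polynomial ℤ) (n j : ℕ) (p : Nat.Primes) (m : ℕ) : ℝ :=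
  if GoodPrime f 1 p then (traceH n (2 * j + 1) f 1 p m : ℝ) / ((p : ℕ) : ℝ) ^ (m * j) else 0

lemma pdN (f : Polynomial ℤ) (hd : 1 ≤ f.natDegree) (n j : ℕ) :
    PD (fun p : Nat.Primes => (p : ℕ)) (cN f n j) ((5 * f.natDegree + 1 + 2) ^ n) 1 SJ := by
  refine ⟨by positivity, fun p => p.2.two_le, fun p m hm => ?_, mem_SJ, card_SJ⟩
  unfold cN
  split_ifs with h
  · have h1 := Pool.Agent.H438R3.BSD.Gen.cH_le f hd n j (p : ℕ) ⟨p.2, h⟩ m hm
    unfold Pool.Agent.H438R3.BSD.Gen.cH at h1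
    rw [dif_pos p.2] at h1
    exact h1
  · rw [abs_zero]
    positivity

open Classical in
lemma tdN (f : Polynomial ℤ) (hd : 1 ≤ f.natDegree) (n j : ℕ) {F : ℂ → ℂ}
    (hF : Pool.Agent.H438R3.BSD.Gen.IsLH f n j F) :
    TD (tq (fun p : Nat.Primes => (p : ℕ)) (cN f n j) SJ)
      ((1 : ℕ) * ((5 * f.natDegree + 1 + 2) ^ n)) F := by
  refine q_td (pdN f hd n j) hF.1 fun s hs => ?_
  have h1 := hF.2 s hs
  have e : (fun v : Nat.Primes => Complex.exp (∑' k : ℕ, (cN f n j v (k + 1) : ℂ) *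
      (((v : ℕ)) : ℂ) ^ (-((k + 1 : ℂ) * s)) / (k + 1 : ℂ))) =
      fun p : Nat.Primes => if GoodPrime f 1 p then goodFactor n (2 * j + 1) f 1 p (s + j) else 1 := by
    funext p
    unfold cN
    split_ifs with h
    · unfold goodFactor
      congr 1
      refine tsum_congr fun m => ?_
      have hpc : ((p : ℕ) : ℂ) ≠ 0 := by exact_mod_cast p.2.ne_zero
      have e1 : ((p : ℕ) : ℂ) ^ (-((m + 1 : ℂ) * (s + j))) =
          ((p : ℕ) : ℂ) ^ (-((m + 1 : ℂ) * s)) / (((p : ℕ) : ℂ) ^ ((m + 1) * j)) := by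
        rw [← Complex.cpow_natCast, ← Complex.cpow_sub _ _ hpc]
        congr 1
        push_cast
        ring
      rw [e1]
      push_cast
      ring
    · simp
  rw [e]
  exact h1

open Classical in
/-- the sum of `-trace / ((k + 1) p ^ ((k + 1) (j + 1)))` over the pairs `(p, k)`, `k ≥ 0`, with `p` a
prime of good reduction and `p ^ (k + 1) ≤ x`; `trace` is the trace of the `(k + 1)`-th power of
Frobenius on `H^(2 j + 1)` of the `n`-th power of the curve -/
noncomputable def T (f : Polynomial ℤ) (n j : ℕ) (x : ℕ) : ℝ :=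
  ∑ᶠ q : Nat.Primes × ℕ, if GoodPrime f 1 q.1 ∧ (q.1 : ℕ) ^ (q.2 + 1) ≤ x then
    -(traceH n (2 * j + 1) f 1 q.1 (q.2 + 1) : ℝ) /
      (((q.2 : ℝ) + 1) * ((q.1 : ℕ) : ℝ) ^ ((q.2 + 1) * (j + 1))) else 0

open Classical in
lemma T_eqN (f : Polynomial ℤ) (hd : 1 ≤ f.natDegree) (n j : ℕ) (x : ℕ) :
    T f n j x = ∑ N ∈ Finset.Icc 1 x, tq (fun p : Nat.Primes => (p : ℕ)) (cN f n j) SJ N := by
  rw [← T_eq (pdN f hd n j) x]
  unfold T
  refine finsum_congr fun q => ?_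
  unfold aq cN
  by_cases h1 : GoodPrime f 1 q.1
  · by_cases h2 : (q.1 : ℕ) ^ (q.2 + 1) ≤ x
    · rw [if_pos ⟨h1, h2⟩, if_pos h2, if_pos h1]
      have hp0 : (0 : ℝ) < ((q.1 : ℕ) : ℝ) := by exact_mod_cast q.1.2.pos
      rw [Nat.mul_succ, pow_add, neg_div, neg_div, div_div]
      congr 2
      ring
    · rw [if_neg (fun h => h2 h.2), if_neg h2]
  · rw [if_neg (fun h => h1 h.1), if_neg h1]
    simp

end Pool.Agent.H230R4.BSD.TCn
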