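import Pool.Agent.H230R4.BSD.TPl

/-! Sums over prime powers: the final form. -/

set_option autoImplicit false

open Filter Topology

namespace Pool.Agent.H230R4.BSD

lemma ordT {t : ℕ → ℝ} {K : ℝ} {F : ℂ → ℂ} (h : TD t K F) : ∃ m : ℕ, analyticOrderAt F 1 = m := by
  have h1 : analyticOrderAt F 1 ≠ ⊤ := by
    intro htop
    rw [analyticOrderAt_eq_top] at htop
    have h2 := (h.diff.differentiableOn (s := Set.univ)).analyticOnNhd isOpen_univ
    have h3 := h2.eqOn_zero_of_preconnected_of_eventuallyEq_zero isPreconnected_univ (Set.mem_univ 1) htop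
    have h4 := h.eq 2 (by norm_num)
    rw [h3 (Set.mem_univ 2)] at h4
    exact Complex.exp_ne_zero _ h4.symm
  exact ⟨(analyticOrderAt F 1).toNat, (ENat.coe_toNat h1).symm⟩

/-- The final form: `T` is the sequence of the partial sums. -/
theorem endT {t : ℕ → ℝ} {K : ℝ} {F : ℂ → ℂ} (h : TD t K F) (T : ℕ → ℝ)
    (hT : ∀ x, T x = ∑ N ∈ Finset.Icc 1 x, t N) :
    ∃ (m : ℕ) (l : ℂ), analyticOrderAt F 1 = m ∧ l ≠ 0 ∧
    Tendsto (fun s => F s / (s - 1) ^ m) (𝓝[≠] 1) (𝓝 l) ∧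
    (∀ c < m * Real.eulerMascheroniConstant - Real.log ‖l‖,
      ∃ᶠ n : ℕ in atTop, c < T n - m * Real.log (Real.log n)) ∧
    ((∀ σ : ℝ, 1 < σ → F σ ≠ 0) → ∃ φ : ℕ → ℕ, StrictMono φ ∧
      Tendsto (fun n => T (φ n) - m * Real.log (Real.log (φ n))) atTop
        (𝓝 (m * Real.eulerMascheroniConstant - Real.log ‖l‖))) ∧
    ((∃ C, ∀ᶠ n : ℕ in atTop, T n - m * Real.log (Real.log n) ≤ C) ∨
      ((∀ σ : ℝ, 1 < σ → F σ ≠ 0) ∧
        ∃ C, ∀ᶠ n : ℕ in atTop, C ≤ T n - m * Real.log (Real.log n)) →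
      (∀ s : ℂ, 1 < s.re → F s ≠ 0) ∧
      Tendsto (fun N : ℕ => (∑ n ∈ Finset.Icc 2 N, (T n - m * Real.log (Real.log n)) / n) /
        Real.log N) atTop (𝓝 (m * Real.eulerMascheroniConstant - Real.log ‖l‖))) := by
  obtain ⟨m, hm⟩ := ordT h
  obtain ⟨l, hl, hlim⟩ := lead h.diff m hm
  have hu : ∀ n : ℕ, T n - m * Real.log (Real.log n) = ut t m n := by
    intro n
    unfold ut
    rw [hT]
  obtain ⟨h1, h2, h3⟩ := finT h m l hl hlim
  refine ⟨m, l, hm, hl, hlim, ?_⟩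
  simp_rw [hu]
  exact ⟨h1, h2, h3⟩

end Pool.Agent.H230R4.BSD
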