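import Pool.Agent.H230R4.BSD.TGen

/-! Sums over prime powers at the critical exponent. -/

set_option autoImplicit false

open Filter Topology

namespace Pool.Agent.H230R4.BSD

open Pool.Agent.H438R3.BSD Pool.Agent.H341R2

/-- the sequence `∑_{k ≤ n} t(k) - κ log log n` -/
noncomputable def ut (t : ℕ → ℝ) (κ : ℝ) (n : ℕ) : ℝ :=
  ∑ k ∈ Finset.Icc 1 n, t k - κ * Real.log (Real.log n)

section

variable {t : ℕ → ℝ} {K : ℝ} {F : ℂ → ℂ}

lemma ut_step (h : TD t K F) (κ : ℝ) :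
    Tendsto (fun n => ut t κ (n + 1) - ut t κ n) atTop (𝓝 0) := by
  have h1 : Tendsto (fun n : ℕ => t (n + 1)) atTop (𝓝 0) := by
    have hz : Tendsto (fun n : ℕ => K * (((n + 1 : ℕ) : ℝ)) ^ (-(1 / 2) : ℝ)) atTop (𝓝 0) := by
      have h2 : Tendsto (fun n : ℕ => (((n + 1 : ℕ) : ℝ)) ^ (-(1 / 2) : ℝ)) atTop (𝓝 0) :=
        ((tendsto_rpow_neg_atTop (by norm_num : (0 : ℝ) < 1 / 2)).comp tendsto_natCast_atTop_atTop).comp
          (tendsto_add_atTop_nat 1)
      have h3 := h2.const_mul K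
      rw [mul_zero] at h3
      exact h3
    refine squeeze_zero_norm (fun n => ?_) hz
    rw [Real.norm_eq_abs]
    exact h.le (n + 1) (by omega)
  have h2 := h1.sub (loglog_step.const_mul κ)
  rw [mul_zero, sub_zero] at h2
  refine h2.congr fun n => ?_
  unfold ut
  rw [Finset.sum_Icc_succ_top (by omega)]
  ring

/-- **The Tauberian theorem** at the critical exponent. -/
theorem taubT (h : TD t K F) (ε : ℝ) (hε : ε = 1 ∨ ε = -1) (C0 : ℝ)
    (m : ℕ) (hb : ∀ᶠ n : ℕ in atTop, ε * ut t m n ≤ C0)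
    (hreal : ε = -1 → ∀ σ : ℝ, 1 < σ → F σ ≠ 0) (l : ℂ) (hl : l ≠ 0)
    (hlim : Tendsto (fun s => F s / (s - 1) ^ m) (𝓝[≠] 1) (𝓝 l)) :
    (∀ s : ℂ, 1 < s.re → F s ≠ 0) ∧
    Tendsto (fun N : ℕ => (∑ n ∈ Finset.Icc 2 N, ut t m n / n) / Real.log N) atTop
      (𝓝 (m * Real.eulerMascheroniConstant - Real.log ‖l‖)) := by
  have hε3 : ε * ε = 1 := by rcases hε with h | h <;> rw [h] <;> norm_num
  set γ := Real.eulerMascheroniConstant with hγ
  set dn : ℕ → ℝ := fun n => (∑ p ∈ (Finset.Icc 1 n).filter Nat.Prime, (1 : ℝ) / p) -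
    Real.log (Real.log n) with hdn
  have hdlim : Tendsto dn atTop (𝓝 (γ - KK)) := mertens_two
  set C1 : ℝ := C0 - ε * m * (γ - KK) + 1 with hC1
  have hM := (hdlim.const_mul (ε * m)).sub_const (ε * m * (γ - KK))
  rw [sub_self] at hM
  have hM2 : ∀ᶠ n : ℕ in atTop, |ε * m * dn n - ε * m * (γ - KK)| < 1 := by
    have := (Metric.tendsto_nhds.1 hM) 1 one_pos
    filter_upwards [this] with n hn
    rwa [Real.dist_eq, sub_zero] at hn
  have hPSn : ∀ n : ℕ, PS C1 (mt t ε m) n = C1 - ε * ut t m n + ε * m * dn n := by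
    intro n
    rw [PSt_eq, hdn]
    unfold ut
    ring
  obtain ⟨n1, hn1⟩ := eventually_atTop.1 (hb.and hM2)
  set n0 := max n1 2 with hn0
  have hG : ∀ n, n0 ≤ n → 0 ≤ PS C1 (mt t ε m) n := by
    intro n hn
    obtain ⟨h1, h2⟩ := hn1 n ((le_max_left _ _).trans hn)
    rw [hPSn, hC1]
    have h3 := (abs_lt.1 h2).1
    linarith
  obtain ⟨hsum, hne, hk⟩ := keyT h ε m C1 hε n0 hG hreal
  refine ⟨hne, ?_⟩
  set G : ℕ → ℝ := fun n => if n0 ≤ n then PS C1 (mt t ε m) n else 0 with hGdef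
  have hG0 : ∀ n, 0 ≤ G n := by
    intro n
    rw [hGdef]
    simp only
    split_ifs with h
    · exact hG n h
    · exact le_rfl
  have hn02 : 2 ≤ n0 := le_max_right _ _
  have hG1 : G 1 = 0 := by
    rw [hGdef]
    simp only
    rw [if_neg (by omega)]
  set A : ℝ := ε * (Real.log ‖l‖ - m * KK) + C1 with hA
  have hlimA : Tendsto (fun w : ℝ => w * (LSeries (fun n => (G n : ℂ)) ((1 + w : ℝ) : ℂ)).re)
      (𝓝[>] 0) (𝓝 A) := by
    have h1 := ((log_lead hl hlim).add (lam_log_tendsto.const_mul (m : ℝ))).const_mul ε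
    have h2 := hk.add (h1.add_const C1)
    have e1 : 0 + (ε * (Real.log ‖l‖ + m * -KK) + C1) = A := by rw [hA]; ring
    rw [e1] at h2
    refine h2.congr fun w => ?_
    rw [hGdef]
    ring
  have h5 := kar_L G hG0 hG1 hsum A hlimA
  -- the remaining part
  have h6 : Tendsto (fun n => ut t m n + ε * G n) atTop (𝓝 (ε * C1 + m * (γ - KK))) := by
    have h7 := (hdlim.const_mul (m : ℝ)).const_add (ε * C1)
    refine h7.congr' ?_
    filter_upwards [eventually_ge_atTop n0] with n hn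
    rw [hGdef]
    simp only
    rw [if_pos hn, hPSn]
    linear_combination (ut t m n - m * dn n) * hε3
  have h8 := (logavg h6).sub (h5.const_mul ε)
  have e2 : ε * C1 + m * (γ - KK) - ε * A = m * γ - Real.log ‖l‖ := by
    rw [hA]
    linear_combination (-(Real.log ‖l‖ - m * KK)) * hε3
  rw [e2] at h8
  refine h8.congr fun N => ?_
  rw [← mul_div_assoc, ← sub_div, Finset.mul_sum, ← Finset.sum_sub_distrib]
  congr 1
  refine Finset.sum_congr rfl fun n _ => ?_
  ring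

/-- an eventual upper bound bounds the limit of the logarithmic means -/
lemma logavg_le {v : ℕ → ℝ} {L C : ℝ} (ε : ℝ) (hb : ∀ᶠ n in atTop, ε * v n ≤ C)
    (h : Tendsto (fun N : ℕ => (∑ n ∈ Finset.Icc 2 N, v n / n) / Real.log N) atTop (𝓝 L)) :
    ε * L ≤ C := by
  have h1 : Tendsto (fun n => min (C - ε * v n) 0) atTop (𝓝 0) := by
    refine tendsto_const_nhds.congr' ?_
    filter_upwards [hb] with n hn
    rw [min_eq_right (by linarith)]
  have h2 := logavg0 h1
  have h3 := (harm.const_mul C).sub (h.const_mul ε)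
  rw [mul_one] at h3
  have h4 : 0 ≤ C - ε * L := by
    refine le_of_tendsto_of_tendsto h2 h3 ?_
    filter_upwards [log_nat_tendsto.eventually (eventually_gt_atTop 0)] with N hN
    rw [← mul_div_assoc, ← mul_div_assoc, ← sub_div]
    apply div_le_div_of_nonneg_right _ hN.le
    rw [Finset.mul_sum, Finset.mul_sum, ← Finset.sum_sub_distrib]
    refine Finset.sum_le_sum fun n _ => ?_
    have h5 : min (C - ε * v n) 0 ≤ C - ε * v n := min_le_left _ _
    have h6 := div_le_div_of_nonneg_right h5 (Nat.cast_nonneg n : (0 : ℝ) ≤ n)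
    refine h6.trans (le_of_eq ?_)
    ring
  linarith

/-- **The constant.**  `m` is the order and `l` the leading coefficient of `F` at `1`. -/
theorem finT (h : TD t K F) (m : ℕ) (l : ℂ) (hl : l ≠ 0)
    (hlim : Tendsto (fun s => F s / (s - 1) ^ m) (𝓝[≠] 1) (𝓝 l)) :
    (∀ c < m * Real.eulerMascheroniConstant - Real.log ‖l‖, ∃ᶠ n : ℕ in atTop, c < ut t m n) ∧
    ((∀ σ : ℝ, 1 < σ → F σ ≠ 0) → ∃ φ : ℕ → ℕ, StrictMono φ ∧
      Tendsto (fun n => ut t m (φ n)) atTop
        (𝓝 (m * Real.eulerMascheroniConstant - Real.log ‖l‖))) ∧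
    ((∃ C, ∀ᶠ n : ℕ in atTop, ut t m n ≤ C) ∨
      ((∀ σ : ℝ, 1 < σ → F σ ≠ 0) ∧ ∃ C, ∀ᶠ n : ℕ in atTop, C ≤ ut t m n) →
      (∀ s : ℂ, 1 < s.re → F s ≠ 0) ∧
      Tendsto (fun N : ℕ => (∑ n ∈ Finset.Icc 2 N, ut t m n / n) / Real.log N) atTop
        (𝓝 (m * Real.eulerMascheroniConstant - Real.log ‖l‖))) := by
  set L : ℝ := m * Real.eulerMascheroniConstant - Real.log ‖l‖ with hL
  have hup : ∀ c < L, ∃ᶠ n : ℕ in atTop, c < ut t m n := by
    intro c hc hcon
    have h1 : ∀ᶠ n : ℕ in atTop, (1 : ℝ) * ut t m n ≤ c := by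
      filter_upwards [hcon] with n hn
      rw [one_mul]
      exact not_lt.1 hn
    have h2 := (taubT h 1 (Or.inl rfl) c m h1 (fun h => by norm_num at h) l hl hlim).2
    have h3 := logavg_le 1 h1 h2
    rw [one_mul] at h3
    exact absurd h3 (not_le.2 hc)
  have hdn : (∀ σ : ℝ, 1 < σ → F σ ≠ 0) → ∀ c, L < c → ∃ᶠ n : ℕ in atTop, ut t m n < c := by
    intro hreal c hc hcon
    have h1 : ∀ᶠ n : ℕ in atTop, (-1 : ℝ) * ut t m n ≤ -c := by
      filter_upwards [hcon] with n hn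
      have := not_lt.1 hn
      linarith
    have h2 := (taubT h (-1) (Or.inr rfl) (-c) m h1 (fun _ => hreal) l hl hlim).2
    have h3 := logavg_le (-1) h1 h2
    linarith
  refine ⟨hup, fun hreal => ?_, ?_⟩
  · obtain ⟨c, hc, φ, hφ, hφ2⟩ := cross (ut_step h m) (le_refl L) hup (hdn hreal)
    have : c = L := le_antisymm hc.2 hc.1
    rw [this] at hφ2
    exact ⟨φ, hφ, hφ2⟩
  · rintro (⟨C, hC⟩ | ⟨hreal, C, hC⟩)
    · exact taubT h 1 (Or.inl rfl) C m (by
        filter_upwards [hC] with n hn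
        rwa [one_mul]) (fun h => by norm_num at h) l hl hlim
    · exact taubT h (-1) (Or.inr rfl) (-C) m (by
        filter_upwards [hC] with n hn
        linarith) (fun _ => hreal) l hl hlim

end

end Pool.Agent.H230R4.BSD
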