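import Pool.Agent.H230R4.BSD.Tau

/-! Sums over prime powers: the one-sided theorem with the exact constant, for an arbitrary
sequence `t` with `|t n| ≤ K n ^ (-1/2)` and `F s = exp (-∑ t n n ^ (1 - s))`. -/

set_option autoImplicit false

open Complex Filter Topology Finset

namespace Pool.Agent.H230R4.BSD

open Pool.Agent.H438R3.BSD

/-- the data: a real sequence of size `n ^ (-1/2)` and an entire function -/
structure TD (t : ℕ → ℝ) (K : ℝ) (F : ℂ → ℂ) : Prop where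
  K0 : 0 ≤ K
  zero : t 0 = 0
  le : ∀ n : ℕ, 1 ≤ n → |t n| ≤ K * (n : ℝ) ^ (-(1 / 2) : ℝ)
  diff : Differentiable ℂ F
  eq : ∀ s : ℂ, 3 / 2 < s.re → F s = exp (-∑' n : ℕ, (t n : ℂ) * (n : ℂ) ^ (1 - s))

/-- the coefficients -/
noncomputable def mt (t : ℕ → ℝ) (ε κ : ℝ) (n : ℕ) : ℝ := ε * ((if n.Prime then κ / n else 0) - t n)

section

variable {t : ℕ → ℝ} {K : ℝ} {F : ℂ → ℂ}

lemma mt_le (h : TD t K F) (ε κ : ℝ) (hε : |ε| = 1) (n : ℕ) (hn : 1 ≤ n) :
    |mt t ε κ n| ≤ (|κ| + K) * (n : ℝ) ^ (-(1 / 2) : ℝ) := by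
  have hn0 : (0 : ℝ) < n := by exact_mod_cast hn
  have hn1 : (1 : ℝ) ≤ n := by exact_mod_cast hn
  unfold mt
  rw [abs_mul, hε, one_mul, add_mul]
  refine (abs_sub _ _).trans (add_le_add ?_ (h.le n hn))
  have h1 : (0 : ℝ) ≤ (n : ℝ) ^ (-(1 / 2) : ℝ) := by positivity
  split_ifs
  · rw [abs_div, abs_of_pos hn0, div_eq_mul_inv]
    refine mul_le_mul_of_nonneg_left ?_ (abs_nonneg _)
    rw [← Real.rpow_neg_one]
    exact Real.rpow_le_rpow_of_exponent_le hn1 (by norm_num)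
  · rw [abs_zero]; positivity

lemma PSt_le (h : TD t K F) (ε κ C : ℝ) (hε : |ε| = 1) (n : ℕ) (hn : 1 ≤ n) :
    |PS C (mt t ε κ) n| ≤ (|C| + 2 * (|κ| + K)) * (n : ℝ) ^ (1 / 2 : ℝ) := by
  have hn1 : (1 : ℝ) ≤ n := by exact_mod_cast hn
  have hK := h.K0
  have h1 : |∑ k ∈ Icc 1 n, mt t ε κ k| ≤ (|κ| + K) * (2 * (n : ℝ) ^ (1 / 2 : ℝ)) := by
    refine (Finset.abs_sum_le_sum_abs _ _).trans ?_
    refine (Finset.sum_le_sum fun k hk => mt_le h ε κ hε k (Finset.mem_Icc.1 hk).1).trans ?_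
    rw [← Finset.mul_sum]
    exact mul_le_mul_of_nonneg_left (sum_rpow_half n) (by positivity)
  have h2 : (1 : ℝ) ≤ (n : ℝ) ^ (1 / 2 : ℝ) := Real.one_le_rpow hn1 (by norm_num)
  unfold PS
  refine (abs_add_le _ _).trans ?_
  have h3 : |C| ≤ |C| * (n : ℝ) ^ (1 / 2 : ℝ) := by
    nlinarith [abs_nonneg C]
  nlinarith

lemma PSt_eq (ε κ C : ℝ) (n : ℕ) : PS C (mt t ε κ) n =
    C + ε * (κ * (∑ p ∈ (Finset.Icc 1 n).filter Nat.Prime, (1 : ℝ) / p) - ∑ k ∈ Icc 1 n, t k) := by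
  unfold PS mt
  rw [← Finset.mul_sum, Finset.sum_sub_distrib, Finset.sum_filter]
  have e : ∑ k ∈ Icc 1 n, (if k.Prime then κ / (k : ℝ) else 0) =
      κ * ∑ k ∈ Icc 1 n, (if k.Prime then (1 : ℝ) / k else 0) := by
    rw [Finset.mul_sum]
    refine Finset.sum_congr rfl fun k _ => ?_
    split_ifs
    · ring
    · ring
  rw [e]

lemma t_summable (h : TD t K F) {s : ℂ} (hs : 3 / 2 < s.re) :
    Summable (fun n : ℕ => (t n : ℂ) * (n : ℂ) ^ (1 - s)) := by
  refine Summable.of_norm_bounded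
    ((Real.summable_nat_rpow.2 (by linarith : 1 / 2 - s.re < -1)).mul_left K) (fun n => ?_)
  have hK := h.K0
  rcases Nat.eq_zero_or_pos n with h0 | h0
  · rw [h0, h.zero]
    simp only [Complex.ofReal_zero, zero_mul, norm_zero]
    positivity
  · have hn0 : (0 : ℝ) < n := by exact_mod_cast h0
    rw [norm_mul, Complex.norm_real, Real.norm_eq_abs, Complex.norm_natCast_cpow_of_pos h0]
    have h1 := h.le n h0
    calc |t n| * (n : ℝ) ^ (1 - s).re ≤
        (K * (n : ℝ) ^ (-(1 / 2) : ℝ)) * (n : ℝ) ^ (1 - s).re :=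
          mul_le_mul_of_nonneg_right h1 (by positivity)
      _ = K * ((n : ℝ) ^ (-(1 / 2) : ℝ) * (n : ℝ) ^ (1 - s).re) := by ring
      _ = K * (n : ℝ) ^ (1 / 2 - s.re) := by
          rw [← Real.rpow_add hn0]; congr 2; simp; ring

/-- **One-sided bounds with exact constants.** -/
theorem keyT (h : TD t K F) (ε κ C : ℝ) (hε : ε = 1 ∨ ε = -1) (n0 : ℕ)
    (hG : ∀ n, n0 ≤ n → 0 ≤ PS C (mt t ε κ) n)
    (hreal : ε = -1 → ∀ σ : ℝ, 1 < σ → F σ ≠ 0) :
    (∀ s : ℂ, 1 < s.re → LSeriesSummable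
      (fun n => ((if n0 ≤ n then PS C (mt t ε κ) n else 0 : ℝ) : ℂ)) s) ∧
    (∀ s : ℂ, 1 < s.re → F s ≠ 0) ∧
    Tendsto (fun w : ℝ => w * (LSeries
        (fun n => ((if n0 ≤ n then PS C (mt t ε κ) n else 0 : ℝ) : ℂ)) ((1 + w : ℝ) : ℂ)).re -
      (ε * Real.log ‖F (1 + w)‖ + ε * (κ * Pool.Agent.H341R2.lam w) + C)) (𝓝[>] 0) (𝓝 0) := by
  have hε1 : |ε| = 1 := by rcases hε with h | h <;> rw [h] <;> simp
  have hε2 : (ε : ℂ) * ε = 1 := by
    rcases hε with h | h <;> rw [h] <;> push_cast <;> ring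
  have hε3 : ε * ε = 1 := by rcases hε with h | h <;> rw [h] <;> norm_num
  set m := mt t ε κ with hm
  set Kc : ℝ := |C| + 2 * (|κ| + K) with hKc
  have hK := h.K0
  have hKc0 : 0 ≤ Kc := by positivity
  have hPS : ∀ n : ℕ, 1 ≤ n → |PS C m n| ≤ Kc * (n : ℝ) ^ (1 / 2 : ℝ) :=
    fun n hn => PSt_le h ε κ C hε1 n hn
  set G : ℕ → ℝ := fun n => if n0 ≤ n then PS C m n else 0 with hGdef
  have hG0 : ∀ n, 0 ≤ G n := by
    intro n
    rw [hGdef]
    simp only
    split_ifs with h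
    · exact hG n h
    · exact le_rfl
  set W : ℂ → ℂ := fun s => - (κ * LSeries pr s) - ε * (EE C m s + C) +
    ε * (s - 1) * fin0 n0 (PS C m) s with hW
  have hWd : DifferentiableOn ℂ W {s | 1 < s.re} := by
    apply DifferentiableOn.add
    · apply DifferentiableOn.sub
      · exact (pr_differentiable.const_mul _).neg
      · exact ((EE_differentiable hKc0 hPS).add_const _).const_mul _
    · apply DifferentiableOn.mul (by fun_prop)
      exact (fin0_differentiable n0 (PS C m)).differentiableOn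
  have hrel : ∀ s : ℂ, 3 / 2 < s.re →
      F s = exp (W s + ε * (s - 1) * LSeries (fun n => (G n : ℂ)) s) := by
    intro s hs
    have hs1 : 1 < s.re := by linarith
    have hL := t_summable h hs
    have hP : HasSum (fun n : ℕ => (m (n + 1) : ℂ) * ((n + 1 : ℕ) : ℂ) ^ (1 - s))
        (ε * (κ * LSeries pr s - ∑' n : ℕ, (t n : ℂ) * (n : ℂ) ^ (1 - s))) := by
      have h1 : HasSum (LSeries.term pr s) (LSeries pr s) := (pr_summable hs1).hasSum
      have h2 := ((h1.mul_left (κ : ℂ)).sub hL.hasSum).mul_left (ε : ℂ)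
      have e : (fun n : ℕ => (ε : ℂ) * (κ * LSeries.term pr s n - (t n : ℂ) * (n : ℂ) ^ (1 - s))) =
          fun n : ℕ => (m n : ℂ) * ((n : ℕ) : ℂ) ^ (1 - s) := by
        funext n
        by_cases hp : n.Prime
        · have hnc : (n : ℂ) ≠ 0 := by exact_mod_cast hp.ne_zero
          rw [LSeries.term_of_ne_zero hp.ne_zero, hm]
          unfold mt pr
          rw [if_pos hp, if_pos hp, sub_eq_add_neg 1 s, Complex.cpow_add _ _ hnc, Complex.cpow_one,
            Complex.cpow_neg]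
          have hns : (n : ℂ) ^ s ≠ 0 := by
            rw [Complex.cpow_ne_zero_iff]; exact Or.inl hnc
          push_cast
          field_simp
        · rw [hm]
          unfold mt LSeries.term pr
          simp [hp]
          ring
      rw [e] at h2
      have h3 := (hasSum_nat_add_iff' (f := fun n : ℕ => (m n : ℂ) * ((n : ℕ) : ℂ) ^ (1 - s)) 1).2 h2
      have h4 : m 0 = 0 := by rw [hm]; unfold mt; simp [Nat.not_prime_zero, h.zero]
      simp only [sum_range_one, h4, Complex.ofReal_zero, zero_mul, sub_zero] at h3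
      exact h3
    have hab := abel_rel hKc0 hPS s hs _ hP
    have hsp := (split_LSeries n0 (PS C m) s (PS_summable hPS s hs)).2
    rw [h.eq s hs]
    congr 1
    have e6 : (ε : ℂ) * (s - 1) * LSeries (fun n => (PS C m n : ℂ)) s =
        ε * (EE C m s + C + ε * (κ * LSeries pr s - ∑' n : ℕ, (t n : ℂ) * (n : ℂ) ^ (1 - s))) := by
      rw [← hab]; ring
    have e7 : (ε : ℂ) * (s - 1) * LSeries (fun n => (G n : ℂ)) s =
        ε * (EE C m s + C + ε * (κ * LSeries pr s - ∑' n : ℕ, (t n : ℂ) * (n : ℂ) ^ (1 - s))) -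
          ε * (s - 1) * fin0 n0 (PS C m) s := by
      rw [← e6, hsp]
      ring
    rw [e7, hW]
    simp only
    linear_combination (-(κ * LSeries pr s - ∑' n : ℕ, (t n : ℂ) * (n : ℂ) ^ (1 - s))) * hε2
  obtain ⟨hsum, hall⟩ := core G hG0 ε hε F W h.diff hWd
    (fun s hs => (split_LSeries n0 (PS C m) s (PS_summable hPS s hs)).1) hrel hreal
  refine ⟨hsum, fun s hs => by rw [hall s hs]; exact Complex.exp_ne_zero _, ?_⟩
  have hw1 : ∀ᶠ w : ℝ in 𝓝[>] 0, w ≤ 1 := by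
    have : Set.Iic (1 : ℝ) ∈ 𝓝 (0 : ℝ) := Iic_mem_nhds one_pos
    exact mem_nhdsWithin_of_mem_nhds this
  -- the two small terms
  have hs1 : Tendsto (fun w : ℝ => w * (2 * Kc * K32)) (𝓝[>] 0) (𝓝 0) := by
    have : Tendsto (fun w : ℝ => w * (2 * Kc * K32)) (𝓝 0) (𝓝 (0 * (2 * Kc * K32))) :=
      (continuous_id.mul continuous_const).tendsto 0
    rw [zero_mul] at this
    exact this.mono_left nhdsWithin_le_nhds
  have hs2 : Tendsto (fun w : ℝ => w * ‖fin0 n0 (PS C m) (1 + w)‖) (𝓝[>] 0) (𝓝 0) := by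
    have hc : Continuous (fun w : ℝ => w * ‖fin0 n0 (PS C m) (1 + w)‖) := by
      have := (fin0_differentiable n0 (PS C m)).continuous
      fun_prop
    have := hc.tendsto 0
    rw [zero_mul] at this
    exact this.mono_left nhdsWithin_le_nhds
  have hs3 := hs1.add hs2
  rw [add_zero] at hs3
  refine squeeze_zero_norm' ?_ hs3
  filter_upwards [self_mem_nhdsWithin, hw1] with w h3 h4
  have hw : (0 : ℝ) < w := h3
  have hre : (1 : ℝ) < ((1 : ℂ) + w).re := by simp [hw]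
  have h5 := hall (1 + w) hre
  have h6 : Real.log ‖F (1 + w)‖ = (W (1 + w)).re +
      (ε * ((1 + w : ℂ) - 1) * LSeries (fun n => (G n : ℂ)) (1 + w)).re := by
    rw [h5, Complex.norm_exp, Real.log_exp, add_re]
  have h7 : (ε * ((1 + w : ℂ) - 1) * LSeries (fun n => (G n : ℂ)) (1 + w)).re =
      ε * (w * (LSeries (fun n => (G n : ℂ)) ((1 + w : ℝ) : ℂ)).re) := by
    have e1 : (ε : ℂ) * ((1 + w : ℂ) - 1) = ((ε * w : ℝ) : ℂ) := by push_cast; ring
    have e2 : ((1 : ℂ) + w) = ((1 + w : ℝ) : ℂ) := by push_cast; rfl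
    rw [e1, Complex.re_ofReal_mul, e2]
    ring
  have h10 : ε * Real.log ‖F (1 + w)‖ = ε * (W (1 + w)).re +
      w * (LSeries (fun n => (G n : ℂ)) ((1 + w : ℝ) : ℂ)).re := by
    rw [h6, h7, mul_add, ← mul_assoc ε ε, hε3, one_mul]
  have h11 : (W (1 + w)).re = - (κ * Pool.Agent.H341R2.lam w) -
      ε * ((EE C m (1 + w)).re + C) + ε * (w * (fin0 n0 (PS C m) (1 + w)).re) := by
    rw [hW]
    simp only
    rw [pr_eq_lam hw]
    have e1 : (ε : ℂ) * ((1 + w : ℂ) - 1) = ((ε * w : ℝ) : ℂ) := by push_cast; ring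
    rw [e1]
    simp only [sub_re, re_ofReal_mul, add_re, ofReal_re, neg_re]
    ring
  have h13 : |(EE C m (1 + w)).re| ≤ w * (2 * Kc * K32) := by
    refine (Complex.abs_re_le_norm _).trans ((EE_bound hKc0 hPS (1 + w) hre.le).2.trans ?_)
    have e3 : ‖(1 : ℂ) + w - 1‖ = w := by
      rw [add_sub_cancel_left, Complex.norm_real, Real.norm_eq_abs, abs_of_pos hw]
    have e4 : ‖(1 : ℂ) + w‖ = 1 + w := by
      have : ((1 : ℂ) + w) = ((1 + w : ℝ) : ℂ) := by push_cast; rfl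
      rw [this, Complex.norm_real, Real.norm_eq_abs, abs_of_pos (by linarith)]
    rw [e3, e4]
    have hK32 : 0 ≤ K32 := tsum_nonneg fun n => by positivity
    have e5 : w * (1 + w) ≤ w * 2 := by nlinarith
    calc w * (1 + w) * Kc * K32 ≤ w * 2 * Kc * K32 := by gcongr
      _ = _ := by ring
  have h14 : |w * (fin0 n0 (PS C m) (1 + w)).re| ≤ w * ‖fin0 n0 (PS C m) (1 + w)‖ := by
    rw [abs_mul, abs_of_pos hw]
    exact mul_le_mul_of_nonneg_left (Complex.abs_re_le_norm _) hw.le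
  have e20 : w * (LSeries (fun n => (G n : ℂ)) ((1 + w : ℝ) : ℂ)).re -
      (ε * Real.log ‖F (1 + w)‖ + ε * (κ * Pool.Agent.H341R2.lam w) + C) =
      (EE C m (1 + w)).re - (w * (fin0 n0 (PS C m) (1 + w)).re) := by
    rw [h10, h11]
    linear_combination ((EE C m (1 + w)).re + C - (w * (fin0 n0 (PS C m) (1 + w)).re)) * hε3
  rw [e20, Real.norm_eq_abs]
  refine (abs_sub _ _).trans ?_
  linarith

end

end Pool.Agent.H230R4.BSD
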