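import Pool.Agent.H230R4.BSD.TKey4
import Pool.Agent.H438R3.BSD.Jac

/-! Sums over prime powers for Jacobians of hyperelliptic curves. -/

set_option autoImplicit false

open Filter Topology

namespace Pool.Agent.H230R4.BSD.TJac

open Pool.Agent.H438R3.BSD.Jac (trace IsL trace_eq)
open Pool.Agent.H341R2 (GoodPrime)

open Classical in
/-- the traces at the good primes -/
noncomputable def cJ (f : Polynomial ℤ) (p : Nat.Primes) (m : ℕ) : ℝ :=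
  if GoodPrime f 1 p then (trace f p m : ℝ) else 0

/-- the pairs `(p, k)` with `p ^ (k + 1) = N` -/
noncomputable def SJ (N : ℕ) : Finset (Nat.Primes × ℕ) :=
  Set.Finite.toFinset (s := {q : Nat.Primes × ℕ | (q.1 : ℕ) ^ (q.2 + 1) = N}) (by
    refine Set.Subsingleton.finite fun q hq r hr => ?_
    have h1 : (q.1 : ℕ) ^ (q.2 + 1) = N := hq
    have h2 : (r.1 : ℕ) ^ (r.2 + 1) = N := hr
    obtain ⟨p, k⟩ := q
    obtain ⟨p', k'⟩ := r
    simp only at h1 h2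
    have h3 := h1.trans h2.symm
    have h4 := (Nat.Prime.pow_inj p.2 p'.2 h3)
    exact Prod.ext (Subtype.ext h4.1) h4.2)

lemma mem_SJ (N : ℕ) (q : Nat.Primes × ℕ) : q ∈ SJ N ↔ (q.1 : ℕ) ^ (q.2 + 1) = N := by
  unfold SJ
  rw [Set.Finite.mem_toFinset]
  rfl

lemma card_SJ (N : ℕ) : (SJ N).card ≤ 1 := by
  rw [Finset.card_le_one]
  intro q hq r hr
  have h1 := (mem_SJ N q).1 hq
  have h2 := (mem_SJ N r).1 hr
  obtain ⟨p, k⟩ := q
  obtain ⟨p', k'⟩ := r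
  simp only at h1 h2
  have h3 := h1.trans h2.symm
  have h4 := (Nat.Prime.pow_inj p.2 p'.2 h3)
  exact Prod.ext (Subtype.ext h4.1) h4.2

lemma pdJ (f : Polynomial ℤ) (hd : 1 ≤ f.natDegree) :
    PD (fun p : Nat.Primes => (p : ℕ)) (cJ f) (5 * f.natDegree + 1) 1 SJ := by
  refine ⟨by positivity, fun p => p.2.two_le, fun p m hm => ?_, mem_SJ, card_SJ⟩
  unfold cJ
  have hp0 : (0 : ℝ) < ((p : ℕ) : ℝ) := by exact_mod_cast p.2.pos
  split_ifs with h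
  · have h1 := Pool.Agent.H341R2.traceH1_bound h hd m (by omega)
    have e : Real.sqrt (((p : ℕ) : ℝ) ^ m) = ((p : ℕ) : ℝ) ^ ((m : ℝ) / 2) := by
      rw [Real.sqrt_eq_rpow, ← Real.rpow_natCast, ← Real.rpow_mul hp0.le]
      congr 1
      ring
    rw [e] at h1
    exact h1
  · rw [abs_zero]
    positivity

open Classical in
lemma tdJ (f : Polynomial ℤ) (hd : 1 ≤ f.natDegree) {F : ℂ → ℂ} (hF : IsL f F) :
    TD (tq (fun p : Nat.Primes => (p : ℕ)) (cJ f) SJ) ((1 : ℕ) * (5 * f.natDegree + 1)) F := by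
  refine q_td (pdJ f hd) hF.1 fun s hs => ?_
  have h1 := hF.2 s hs
  have e : (fun v : Nat.Primes => Complex.exp (∑' k : ℕ, (cJ f v (k + 1) : ℂ) *
      (((v : ℕ)) : ℂ) ^ (-((k + 1 : ℂ) * s)) / (k + 1 : ℂ))) =
      fun p : Nat.Primes => if GoodPrime f 1 p then
      Complex.exp (∑' m : ℕ, (trace f p (m + 1) : ℂ) * ((p : ℕ) : ℂ) ^ (-((m + 1 : ℂ) * s)) / (m + 1 : ℂ))
      else 1 := by
    funext p
    unfold cJ
    split_ifs with h
    · norm_cast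
    · simp
  rw [e]
  exact h1

open Classical in
/-- the sum of `-trace(p, k + 1) / ((k + 1) p^(k + 1))` over the pairs `(p, k)`, `k ≥ 0`, with `p` a
prime of good reduction and `p^(k + 1) ≤ x` -/
noncomputable def T (f : Polynomial ℤ) (x : ℕ) : ℝ :=
  ∑ᶠ q : Nat.Primes × ℕ, if GoodPrime f 1 q.1 ∧ (q.1 : ℕ) ^ (q.2 + 1) ≤ x then
    -(trace f q.1 (q.2 + 1) : ℝ) / (((q.2 : ℝ) + 1) * ((q.1 : ℕ) : ℝ) ^ (q.2 + 1)) else 0

open Classical in
lemma T_eqJ (f : Polynomial ℤ) (hd : 1 ≤ f.natDegree) (x : ℕ) :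
    T f x = ∑ N ∈ Finset.Icc 1 x, tq (fun p : Nat.Primes => (p : ℕ)) (cJ f) SJ N := by
  rw [← T_eq (pdJ f hd) x]
  unfold T
  refine finsum_congr fun q => ?_
  unfold aq cJ
  by_cases h1 : GoodPrime f 1 q.1
  · by_cases h2 : (q.1 : ℕ) ^ (q.2 + 1) ≤ x
    · rw [if_pos ⟨h1, h2⟩, if_pos h2, if_pos h1]
    · rw [if_neg (fun h => h2 h.2), if_neg h2]
  · rw [if_neg (fun h => h1 h.1), if_neg h1]
    simp

/-- The theorem for the Jacobian of `y² = f(x)`. -/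
theorem main (f : Polynomial ℤ) (hd : 1 ≤ f.natDegree) {F : ℂ → ℂ} (hF : IsL f F) :
    ∃ (m : ℕ) (l : ℂ), analyticOrderAt F 1 = m ∧ l ≠ 0 ∧
    Tendsto (fun s => F s / (s - 1) ^ m) (𝓝[≠] 1) (𝓝 l) ∧
    (∀ c < m * Real.eulerMascheroniConstant - Real.log ‖l‖,
      (∃ᶠ n : ℕ in atTop, c < T f n - m * Real.log (Real.log n)) ∧
      ∃ᶠ n : ℕ in atTop, c < LM (T f) m n) ∧
    ((∀ σ : ℝ, 1 < σ → F σ ≠ 0) →
      (∃ φ : ℕ → ℕ, StrictMono φ ∧
        Tendsto (fun n => T f (φ n) - m * Real.log (Real.log (φ n))) atTop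
          (𝓝 (m * Real.eulerMascheroniConstant - Real.log ‖l‖))) ∧
      ∃ φ : ℕ → ℕ, StrictMono φ ∧ Tendsto (fun n => LM (T f) m (φ n)) atTop
        (𝓝 (m * Real.eulerMascheroniConstant - Real.log ‖l‖))) ∧
    ((∃ C, ∀ᶠ n : ℕ in atTop, T f n - m * Real.log (Real.log n) ≤ C) ∨
      ((∀ σ : ℝ, 1 < σ → F σ ≠ 0) ∧
        ∃ C, ∀ᶠ n : ℕ in atTop, C ≤ T f n - m * Real.log (Real.log n)) →
      (∀ s : ℂ, 1 < s.re → F s ≠ 0) ∧
      Tendsto (LM (T f) m) atTop (𝓝 (m * Real.eulerMascheroniConstant - Real.log ‖l‖))) :=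
  pointsT (tdJ f hd hF) (tq_one (pdJ f hd)) (T f) (T_eqJ f hd)

end Pool.Agent.H230R4.BSD.TJac
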