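import Pool.Agent.H230R4.BSD.TEnd
import Pool.Agent.H438R3.BSD.Gen2

/-! Sums over prime powers: one-sided bounds for the logarithmic averages. -/

set_option autoImplicit false

open Complex Filter Topology Finset

namespace Pool.Agent.H230R4.BSD

open Pool.Agent.H438R3.BSD

section

variable {t : ℕ → ℝ} {K : ℝ} {F : ℂ → ℂ}

/-- The abstract theorem, for logarithmic averages. -/
theorem abs2T (h : TD t K F) (ε κ C : ℝ) (hε : ε = 1 ∨ ε = -1)
    (hG : ∀ n, 0 ≤ AS C (mt t ε κ) n)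
    (hreal : ε = -1 → ∀ σ : ℝ, 1 < σ → F σ ≠ 0) :
    (∀ s : ℂ, 1 < s.re → F s ≠ 0) ∧
    ∃ K : ℝ, ∀ᶠ w : ℝ in 𝓝[>] 0, ε * (κ * Real.log w) - K ≤ ε * Real.log ‖F (1 + w)‖ := by
  have hε1 : |ε| = 1 := by rcases hε with h | h <;> rw [h] <;> simp
  have hε2 : (ε : ℂ) * ε = 1 := by
    rcases hε with h | h <;> rw [h] <;> push_cast <;> ring
  have hε3 : ε * ε = 1 := by rcases hε with h | h <;> rw [h] <;> norm_num
  have hApos := h.K0
  set m := mt t ε κ with hm
  set Kc : ℝ := |C| + 2 * (|κ| + K) with hKc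
  have hKc0 : 0 ≤ Kc := by positivity
  have hPS : ∀ n : ℕ, 1 ≤ n → |PS C m n| ≤ Kc * (n : ℝ) ^ (1 / 2 : ℝ) :=
    fun n hn => PSt_le h ε κ C hε1 n hn
  have hAS : ∀ n : ℕ, 1 ≤ n → |AS C m n| ≤ 2 * Kc * (n : ℝ) ^ (1 / 2 : ℝ) :=
    fun n _ => AS_le hKc0 hPS n
  set E2 : ℂ → ℂ := EE 0 (fun k => PS C m k / k) with hE2
  set W : ℂ → ℂ := fun s => -(κ * LSeries pr s) - ε * (EE C m s + C)
    - ε * ((s - 1) * E2 s) with hW
  have hWd : DifferentiableOn ℂ W {s | 1 < s.re} := by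
    apply DifferentiableOn.sub
    · apply DifferentiableOn.sub
      · exact (pr_differentiable.const_mul _).neg
      · exact ((EE_differentiable hKc0 hPS).add_const _).const_mul _
    · apply DifferentiableOn.const_mul
      apply DifferentiableOn.mul (by fun_prop)
      exact EE_differentiable (by positivity : (0 : ℝ) ≤ 2 * Kc) hAS
  have hrel : ∀ s : ℂ, 3 / 2 < s.re →
      F s = exp (W s + ε * (s - 1) ^ 2 * LSeries (fun n => (AS C m n : ℂ)) s) := by
    intro s hs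
    have hs1 : 1 < s.re := by linarith
    have hFe := h.eq s hs
    have hL := t_summable h hs
    have hP : HasSum (fun n : ℕ => (m (n + 1) : ℂ) * ((n + 1 : ℕ) : ℂ) ^ (1 - s))
        (ε * (κ * LSeries pr s - ∑' n : ℕ, (t n : ℂ) * (n : ℂ) ^ (1 - s))) := by
      have h1 : HasSum (LSeries.term pr s) (LSeries pr s) := (pr_summable hs1).hasSum
      have h2 := ((h1.mul_left (κ : ℂ)).sub hL.hasSum).mul_left (ε : ℂ)
      have e : (fun n : ℕ => (ε : ℂ) * (κ * LSeries.term pr s n - (t n : ℂ) * (n : ℂ) ^ (1 - s))) =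
          fun n : ℕ => (m n : ℂ) * ((n : ℕ) : ℂ) ^ (1 - s) := by
        funext n
        by_cases hp : n.Prime
        · have hnc : (n : ℂ) ≠ 0 := by exact_mod_cast hp.ne_zero
          rw [LSeries.term_of_ne_zero hp.ne_zero, hm]
          unfold mt pr
          rw [if_pos hp, if_pos hp, sub_eq_add_neg 1 s, Complex.cpow_add _ _ hnc, Complex.cpow_one,
            Complex.cpow_neg]
          have hns : (n : ℂ) ^ s ≠ 0 := by
            rw [Complex.cpow_ne_zero_iff]; exact Or.inl hnc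
          push_cast
          field_simp
        · rw [hm]
          unfold mt LSeries.term pr
          simp [hp]
          ring
      rw [e] at h2
      have h3 := (hasSum_nat_add_iff' (f := fun n : ℕ => (m n : ℂ) * ((n : ℕ) : ℂ) ^ (1 - s)) 1).2 h2
      have h4 : m 0 = 0 := by rw [hm]; unfold mt; simp [Nat.not_prime_zero, h.zero]
      simp only [sum_range_one, h4, Complex.ofReal_zero, zero_mul, sub_zero] at h3
      exact h3
    have hab := abel_rel hKc0 hPS s hs _ hP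
    have hP2 : HasSum (fun n : ℕ => ((PS C m (n + 1) / ((n + 1 : ℕ) : ℝ) : ℝ) : ℂ) * ((n + 1 : ℕ) : ℂ) ^ (1 - s))
        (LSeries (fun n => (PS C m n : ℂ)) s) := by
      have h3 : HasSum (LSeries.term (fun n => (PS C m n : ℂ)) s) (LSeries (fun n => (PS C m n : ℂ)) s) :=
        (PS_summable hPS s hs).hasSum
      have h4 := (hasSum_nat_add_iff' (f := LSeries.term (fun n => (PS C m n : ℂ)) s) 1).2 h3
      simp only [sum_range_one, LSeries.term_zero, sub_zero] at h4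
      have e : (fun n : ℕ => ((PS C m (n + 1) / ((n + 1 : ℕ) : ℝ) : ℝ) : ℂ) * ((n + 1 : ℕ) : ℂ) ^ (1 - s)) =
          fun n => LSeries.term (fun n => (PS C m n : ℂ)) s (n + 1) := by
        funext n
        have hn : ((n + 1 : ℕ) : ℂ) ≠ 0 := by exact_mod_cast (by omega : n + 1 ≠ 0)
        have hns : ((n + 1 : ℕ) : ℂ) ^ s ≠ 0 := by
          rw [Complex.cpow_ne_zero_iff]; exact Or.inl hn
        rw [LSeries.term_of_ne_zero (by omega : n + 1 ≠ 0), sub_eq_add_neg 1 s,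
          Complex.cpow_add _ _ hn, Complex.cpow_one, Complex.cpow_neg]
        push_cast at hn hns ⊢
        field_simp
      rw [e]
      exact h4
    have hab2 := abel_rel (C := 0) (m := fun k => PS C m k / k) (by positivity : (0 : ℝ) ≤ 2 * Kc) hAS s hs _ hP2
    have hab2' : (s - 1) * LSeries (fun n => (AS C m n : ℂ)) s = E2 s + LSeries (fun n => (PS C m n : ℂ)) s := by
      have := hab2
      simp only [Complex.ofReal_zero, add_zero] at this
      exact this
    rw [hFe]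
    congr 1
    have e6 : (ε : ℂ) * (s - 1) ^ 2 * LSeries (fun n => (AS C m n : ℂ)) s =
        ε * ((s - 1) * E2 s) + ε * (EE C m s + C + ε * (κ * LSeries pr s -
          ∑' n : ℕ, (t n : ℂ) * (n : ℂ) ^ (1 - s))) := by
      have e7 : (ε : ℂ) * (s - 1) ^ 2 * LSeries (fun n => (AS C m n : ℂ)) s =
          ε * ((s - 1) * ((s - 1) * LSeries (fun n => (AS C m n : ℂ)) s)) := by ring
      rw [e7, hab2', ← hab]; ring
    rw [e6, hW]
    simp only
    linear_combination (-(κ * LSeries pr s - ∑' n : ℕ, (t n : ℂ) * (n : ℂ) ^ (1 - s))) * hε2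
  obtain ⟨hsum, hall⟩ := core2 (AS C m) hG ε hε F W h.diff hWd (fun s hs => PS_summable hAS s hs) hrel hreal
  refine ⟨fun s hs => by rw [hall s hs]; exact Complex.exp_ne_zero _, ?_⟩
  obtain ⟨C1, hC1⟩ := Pool.Agent.H341R2.lam_bounded
  refine ⟨|κ| * C1 + (2 * Kc * K32 + |C|) + 4 * Kc * K32, ?_⟩
  have hw1 : ∀ᶠ w : ℝ in 𝓝[>] 0, w ≤ 1 := by
    have : Set.Iic (1 : ℝ) ∈ 𝓝 (0 : ℝ) := Iic_mem_nhds one_pos
    exact mem_nhdsWithin_of_mem_nhds this
  filter_upwards [hC1, self_mem_nhdsWithin, hw1] with w h2 h3 h4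
  have hw : (0 : ℝ) < w := h3
  have hre : (1 : ℝ) < ((1 : ℂ) + w).re := by simp [hw]
  have h5 := hall (1 + w) hre
  have h6 : Real.log ‖F (1 + w)‖ = (W (1 + w)).re +
      (ε * ((1 + w : ℂ) - 1) ^ 2 * LSeries (fun n => (AS C m n : ℂ)) (1 + w)).re := by
    rw [h5, Complex.norm_exp, Real.log_exp, add_re]
  have h7 : (ε * ((1 + w : ℂ) - 1) ^ 2 * LSeries (fun n => (AS C m n : ℂ)) (1 + w)).re =
      ε * (w ^ 2 * (LSeries (fun n => (AS C m n : ℂ)) ((1 + w : ℝ) : ℂ)).re) := by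
    have e1 : (ε : ℂ) * ((1 + w : ℂ) - 1) ^ 2 = ((ε * w ^ 2 : ℝ) : ℂ) := by push_cast; ring
    have e2 : ((1 : ℂ) + w) = ((1 + w : ℝ) : ℂ) := by push_cast; rfl
    rw [e1, Complex.re_ofReal_mul, e2]
    ring
  have h8 := re_LSeries_nonneg (AS C m) hG (1 + w)
  have h9 : 0 ≤ w ^ 2 * (LSeries (fun n => (AS C m n : ℂ)) ((1 + w : ℝ) : ℂ)).re := mul_nonneg (by positivity) h8
  have h10 : ε * Real.log ‖F (1 + w)‖ = ε * (W (1 + w)).re +
      w ^ 2 * (LSeries (fun n => (AS C m n : ℂ)) ((1 + w : ℝ) : ℂ)).re := by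
    rw [h6, h7, mul_add, ← mul_assoc ε ε, hε3, one_mul]
  rw [h10]
  have h11 : (W (1 + w)).re = -(κ * Pool.Agent.H341R2.lam w) -
      ε * ((EE C m (1 + w)).re + C) - ε * (w * (E2 (1 + w)).re) := by
    rw [hW]
    simp only
    rw [pr_eq_lam hw]
    have e8 : ((1 : ℂ) + w - 1) * E2 (1 + w) = (w : ℂ) * E2 (1 + w) := by ring
    rw [e8]
    simp only [sub_re, re_ofReal_mul, add_re, ofReal_re, neg_re]
  have h13 : |(EE C m (1 + w)).re| ≤ 2 * Kc * K32 := by
    refine (Complex.abs_re_le_norm _).trans ((EE_bound hKc0 hPS (1 + w) hre.le).2.trans ?_)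
    have e3 : ‖(1 : ℂ) + w - 1‖ = w := by
      rw [add_sub_cancel_left, Complex.norm_real, Real.norm_eq_abs, abs_of_pos hw]
    have e4 : ‖(1 : ℂ) + w‖ = 1 + w := by
      have : ((1 : ℂ) + w) = ((1 + w : ℝ) : ℂ) := by push_cast; rfl
      rw [this, Complex.norm_real, Real.norm_eq_abs, abs_of_pos (by linarith)]
    rw [e3, e4]
    have hK32 : 0 ≤ K32 := tsum_nonneg fun n => by positivity
    have e5 : w * (1 + w) ≤ 2 := by nlinarith
    calc w * (1 + w) * Kc * K32 ≤ 2 * Kc * K32 := by gcongr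
      _ = _ := rfl
  have hK32 : 0 ≤ K32 := tsum_nonneg fun n => by positivity
  have h13b : |w * (E2 (1 + w)).re| ≤ 4 * Kc * K32 := by
    rw [abs_mul, abs_of_pos hw]
    have h20 : |(E2 (1 + w)).re| ≤ 4 * Kc * K32 := by
      refine (Complex.abs_re_le_norm _).trans
        ((EE_bound (by positivity : (0 : ℝ) ≤ 2 * Kc) hAS (1 + w) hre.le).2.trans ?_)
      have e3 : ‖(1 : ℂ) + w - 1‖ = w := by
        rw [add_sub_cancel_left, Complex.norm_real, Real.norm_eq_abs, abs_of_pos hw]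
      have e4 : ‖(1 : ℂ) + w‖ = 1 + w := by
        have : ((1 : ℂ) + w) = ((1 + w : ℝ) : ℂ) := by push_cast; rfl
        rw [this, Complex.norm_real, Real.norm_eq_abs, abs_of_pos (by linarith)]
      rw [e3, e4]
      have e5 : w * (1 + w) ≤ 2 := by nlinarith
      calc w * (1 + w) * (2 * Kc) * K32 ≤ 2 * (2 * Kc) * K32 := by gcongr
        _ = 4 * Kc * K32 := by ring
    have h21 : 0 ≤ 4 * Kc * K32 := by positivity
    nlinarith [abs_nonneg (E2 (1 + w)).re]
  rw [h11]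
  have h14 : |κ * (Pool.Agent.H341R2.lam w + Real.log w)| ≤ |κ| * C1 := by
    rw [abs_mul]; exact mul_le_mul_of_nonneg_left h2 (abs_nonneg _)
  have h16 := abs_le.1 h13
  have h17 := abs_le.1 h14
  have h18 := abs_le.1 (le_refl |C|)
  have h19 := abs_le.1 h13b
  rcases hε with h | h
  · rw [h]
    nlinarith [h16.1, h16.2, h17.1, h17.2, h18.1, h18.2, h19.1, h19.2]
  · rw [h]
    nlinarith [h16.1, h16.2, h17.1, h17.2, h18.1, h18.2, h19.1, h19.2]

lemma const2T (h : TD t K F) (ht1 : t 1 = 0) (ε κ : ℝ) (hε : ε = 1 ∨ ε = -1) (C0 : ℝ)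
    (hb : ∀ᶠ n : ℕ in atTop, ε * (∑ k ∈ Finset.Icc 2 n, ut t κ k / k) ≤ C0 * Real.log n) :
    ∃ C : ℝ, ∀ n, 0 ≤ AS C (mt t ε κ) n := by
  have hApos := h.K0
  have hε1 : |ε| = 1 := by rcases hε with h | h <;> rw [h] <;> simp
  obtain ⟨C1, hC1, hup⟩ := Pool.Agent.Helper256.KM.mertens_upper
  obtain ⟨C2, hC2, hlow⟩ := Pool.Agent.Helper256.KM.mertens_lower
  obtain ⟨n0, hn0⟩ := eventually_atTop.1 hb
  set n1 := max n0 2 with hn1
  set Kc : ℝ := |(0 : ℝ)| + 2 * (|κ| + K) with hKc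
  have hKc0 : 0 ≤ Kc := by positivity
  set K' := |κ| * (C1 + C2) with hK'
  have hK'0 : 0 ≤ K' := by positivity
  set C : ℝ := |C0| + K' + 2 * Kc * (n1 : ℝ) ^ (1 / 2 : ℝ) with hC
  have hpos2 : 0 ≤ 2 * Kc * (n1 : ℝ) ^ (1 / 2 : ℝ) := by positivity
  have hpos3 : 0 ≤ |C0| := abs_nonneg _
  have hCpos : 0 ≤ C := by positivity
  refine ⟨C, fun n => ?_⟩
  set m := mt t ε κ with hm
  rcases Nat.eq_zero_or_pos n with h0 | h0
  · rw [h0]
    unfold AS
    rw [PS_zero]
  rcases Nat.lt_or_ge n n1 with hlt | hge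
  · rw [AS_lin]
    have h1 := AS_le hKc0 (fun k hk => PSt_le h ε κ 0 hε1 k hk) n
    have h2 : (n : ℝ) ^ (1 / 2 : ℝ) ≤ (n1 : ℝ) ^ (1 / 2 : ℝ) :=
      Real.rpow_le_rpow (by positivity) (by exact_mod_cast hlt.le) (by norm_num)
    have h3 : |AS 0 m n| ≤ 2 * Kc * (n1 : ℝ) ^ (1 / 2 : ℝ) :=
      h1.trans (mul_le_mul_of_nonneg_left h2 (by positivity))
    have h4 := (abs_le.1 h3).1
    have h5 : 1 ≤ ∑ k ∈ Finset.Icc 1 n, (1 : ℝ) / k := by
      rw [Icc_split h0, Finset.sum_insert (by simp)]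
      have : 0 ≤ ∑ k ∈ Finset.Icc 2 n, (1 : ℝ) / k := Finset.sum_nonneg fun k _ => by positivity
      simp only [Nat.cast_one, div_one]
      linarith
    have h6 : C * 1 ≤ C * ∑ k ∈ Finset.Icc 1 n, (1 : ℝ) / k := mul_le_mul_of_nonneg_left h5 hCpos
    linarith
  · have hn2 : 2 ≤ n := le_trans (le_max_right _ _) hge
    have hnr : (2 : ℝ) ≤ n := by exact_mod_cast hn2
    have h3 := hn0 n ((le_max_left _ _).trans hge)
    have hAS : AS C m n = C + ∑ k ∈ Finset.Icc 2 n, PS C m k / k := by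
      unfold AS
      rw [PS, zero_add, Icc_split h0, Finset.sum_insert (by simp)]
      congr 1
      rw [Nat.cast_one, div_one, hm]
      unfold PS mt
      simp [Nat.not_prime_one, ht1]
    have hterm : ∀ k ∈ Finset.Icc 2 n, (C - K') * (1 / (k : ℝ)) -
        ε * (ut t κ k / k) ≤ PS C m k / k := by
      intro k hk
      have hk2 : 2 ≤ k := (Finset.mem_Icc.1 hk).1
      have hkr : (2 : ℝ) ≤ k := by exact_mod_cast hk2
      have hk0 : (0 : ℝ) < k := by linarith
      have h1 := hup k hkr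
      have h2 := hlow k hkr
      rw [Nat.floor_natCast] at h1 h2
      rw [hm, PSt_eq]
      unfold ut
      set S : ℝ := ∑ p ∈ (Finset.Icc 1 k).filter Nat.Prime, (1 : ℝ) / p with hS
      set ll := Real.log (Real.log (k : ℝ)) with hll
      set TT := ∑ j ∈ Finset.Icc 1 k, t j with hTT
      have h4 : |ε * (κ * (S - ll))| ≤ K' := by
        rw [abs_mul, hε1, one_mul, abs_mul, hK']
        refine mul_le_mul_of_nonneg_left ?_ (abs_nonneg _)
        rw [abs_le]
        constructor <;> linarith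
      have h5 := (abs_le.1 h4).1
      have e1 : (C - K') * (1 / (k : ℝ)) - ε * ((TT - κ * ll) / k) =
          (C - K' - ε * (TT - κ * ll)) / k := by
        field_simp
      rw [e1]
      apply div_le_div_of_nonneg_right _ hk0.le
      have e2 : C + ε * (κ * S - TT) =
          C + ε * (κ * (S - ll)) - ε * (TT - κ * ll) := by ring
      rw [e2]
      linarith
    have hsum := Finset.sum_le_sum hterm
    rw [Finset.sum_sub_distrib, ← Finset.mul_sum, ← Finset.mul_sum] at hsum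
    rw [hAS]
    have h7 := log_le_sum n h0
    have h8 : Real.log n ≤ Real.log (n + 1) := Real.log_le_log (by linarith) (by linarith)
    have h9 : 0 ≤ Real.log n := Real.log_nonneg (by linarith)
    have h10 : C0 * Real.log n ≤ |C0| * Real.log n := mul_le_mul_of_nonneg_right (le_abs_self _) h9
    have hCK : 0 ≤ C - K' := by rw [hC]; linarith
    have h11 : (C - K') * (Real.log n - 1) ≤ (C - K') * ∑ k ∈ Finset.Icc 2 n, (1 : ℝ) / k :=
      mul_le_mul_of_nonneg_left (by linarith) hCK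
    have h12 : |C0| * Real.log n ≤ (C - K') * Real.log n :=
      mul_le_mul_of_nonneg_right (by rw [hC]; linarith) h9
    nlinarith

/-- **One-sided bounds for the logarithmic averages.** -/
theorem avgT (h : TD t K F) (ht1 : t 1 = 0) (ε κ : ℝ) (hε : ε = 1 ∨ ε = -1) (C0 : ℝ)
    (hb : ∀ᶠ n : ℕ in atTop, ε * ((∑ k ∈ Finset.Icc 2 n, ut t κ k / k) / Real.log n) ≤ C0)
    (hreal : ε = -1 → ∀ σ : ℝ, 1 < σ → F σ ≠ 0) (m : ℕ) (hm : analyticOrderAt F 1 = m) :
    (∀ s : ℂ, 1 < s.re → F s ≠ 0) ∧ ε * (m - κ) ≤ 0 := by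
  obtain ⟨C, hC⟩ := const2T h ht1 ε κ hε C0 (by
    filter_upwards [hb, log_nat_tendsto.eventually (eventually_gt_atTop 0)] with n hn hl
    rwa [← mul_div_assoc, div_le_iff₀ hl] at hn)
  obtain ⟨h1, K', hK'⟩ := abs2T h ε κ C hε hC hreal
  exact ⟨h1, Pool.Agent.H438R3.BSD.Gen.order_of_bound h.diff ε κ K' hε hK' m hm⟩

end

end Pool.Agent.H230R4.BSD
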