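import Pool.Agent.H230R4.BSD.TKey2

/-! Sums over prime powers: logarithmic averages at the critical exponent, without any growth
hypothesis. -/

set_option autoImplicit false

open Complex Filter Topology Finset

namespace Pool.Agent.H230R4.BSD

open Pool.Agent.H438R3.BSD

/-- the logarithmic mean of `T(n) - κ log log n` over `2 ≤ n ≤ x` -/
noncomputable def LM (T : ℕ → ℝ) (κ : ℝ) (x : ℕ) : ℝ :=
  (∑ n ∈ Finset.Icc 2 x, (T n - κ * Real.log (Real.log n)) / n) / Real.log x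

section

variable {t : ℕ → ℝ} {K : ℝ} {F : ℂ → ℂ}

/-- The abstract theorem, for logarithmic averages, with the exact constant. -/
theorem keyA (h : TD t K F) (ε κ C : ℝ) (hε : ε = 1 ∨ ε = -1) (n0 : ℕ)
    (hG : ∀ n, n0 ≤ n → 0 ≤ AS C (mt t ε κ) n)
    (hreal : ε = -1 → ∀ σ : ℝ, 1 < σ → F σ ≠ 0) (η : ℝ) (hη : 0 < η) :
    ∀ᶠ w : ℝ in 𝓝[>] 0, -(ε * (κ * Pool.Agent.H341R2.lam w)) - C - η ≤ ε * Real.log ‖F (1 + w)‖ := by
  have hε1 : |ε| = 1 := by rcases hε with h | h <;> rw [h] <;> simp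
  have hε2 : (ε : ℂ) * ε = 1 := by
    rcases hε with h | h <;> rw [h] <;> push_cast <;> ring
  have hε3 : ε * ε = 1 := by rcases hε with h | h <;> rw [h] <;> norm_num
  have hApos := h.K0
  set m := mt t ε κ with hm
  set Kc : ℝ := |C| + 2 * (|κ| + K) with hKc
  have hKc0 : 0 ≤ Kc := by positivity
  have hPS : ∀ n : ℕ, 1 ≤ n → |PS C m n| ≤ Kc * (n : ℝ) ^ (1 / 2 : ℝ) :=
    fun n hn => PSt_le h ε κ C hε1 n hn
  have hAS : ∀ n : ℕ, 1 ≤ n → |AS C m n| ≤ 2 * Kc * (n : ℝ) ^ (1 / 2 : ℝ) :=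
    fun n _ => AS_le hKc0 hPS n
  set G : ℕ → ℝ := fun n => if n0 ≤ n then AS C m n else 0 with hGdef
  have hG0 : ∀ n, 0 ≤ G n := by
    intro n
    rw [hGdef]
    simp only
    split_ifs with h
    · exact hG n h
    · exact le_rfl
  set E2 : ℂ → ℂ := EE 0 (fun k => PS C m k / k) with hE2
  set W : ℂ → ℂ := fun s => -(κ * LSeries pr s) - ε * (EE C m s + C)
    - ε * ((s - 1) * E2 s) + ε * (s - 1) ^ 2 * fin0 n0 (AS C m) s with hW
  have hWd : DifferentiableOn ℂ W {s | 1 < s.re} := by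
    apply DifferentiableOn.add
    · apply DifferentiableOn.sub
      · apply DifferentiableOn.sub
        · exact (pr_differentiable.const_mul _).neg
        · exact ((EE_differentiable hKc0 hPS).add_const _).const_mul _
      · apply DifferentiableOn.const_mul
        apply DifferentiableOn.mul (by fun_prop)
        exact EE_differentiable (by positivity : (0 : ℝ) ≤ 2 * Kc) hAS
    · apply DifferentiableOn.mul (by fun_prop)
      exact (fin0_differentiable n0 (AS C m)).differentiableOn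
  have hrel : ∀ s : ℂ, 3 / 2 < s.re →
      F s = exp (W s + ε * (s - 1) ^ 2 * LSeries (fun n => (G n : ℂ)) s) := by
    intro s hs
    have hs1 : 1 < s.re := by linarith
    have hFe := h.eq s hs
    have hL := t_summable h hs
    have hP : HasSum (fun n : ℕ => (m (n + 1) : ℂ) * ((n + 1 : ℕ) : ℂ) ^ (1 - s))
        (ε * (κ * LSeries pr s - ∑' n : ℕ, (t n : ℂ) * (n : ℂ) ^ (1 - s))) := by
      have h1 : HasSum (LSeries.term pr s) (LSeries pr s) := (pr_summable hs1).hasSum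
      have h2 := ((h1.mul_left (κ : ℂ)).sub hL.hasSum).mul_left (ε : ℂ)
      have e : (fun n : ℕ => (ε : ℂ) * (κ * LSeries.term pr s n - (t n : ℂ) * (n : ℂ) ^ (1 - s))) =
          fun n : ℕ => (m n : ℂ) * ((n : ℕ) : ℂ) ^ (1 - s) := by
        funext n
        by_cases hp : n.Prime
        · have hnc : (n : ℂ) ≠ 0 := by exact_mod_cast hp.ne_zero
          rw [LSeries.term_of_ne_zero hp.ne_zero, hm]
          unfold mt pr
          rw [if_pos hp, if_pos hp, sub_eq_add_neg 1 s, Complex.cpow_add _ _ hnc, Complex.cpow_one,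
            Complex.cpow_neg]
          have hns : (n : ℂ) ^ s ≠ 0 := by
            rw [Complex.cpow_ne_zero_iff]; exact Or.inl hnc
          push_cast
          field_simp
        · rw [hm]
          unfold mt LSeries.term pr
          simp [hp]
          ring
      rw [e] at h2
      have h3 := (hasSum_nat_add_iff' (f := fun n : ℕ => (m n : ℂ) * ((n : ℕ) : ℂ) ^ (1 - s)) 1).2 h2
      have h4 : m 0 = 0 := by rw [hm]; unfold mt; simp [Nat.not_prime_zero, h.zero]
      simp only [sum_range_one, h4, Complex.ofReal_zero, zero_mul, sub_zero] at h3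
      exact h3
    have hab := abel_rel hKc0 hPS s hs _ hP
    have hP2 : HasSum (fun n : ℕ => ((PS C m (n + 1) / ((n + 1 : ℕ) : ℝ) : ℝ) : ℂ) * ((n + 1 : ℕ) : ℂ) ^ (1 - s))
        (LSeries (fun n => (PS C m n : ℂ)) s) := by
      have h3 : HasSum (LSeries.term (fun n => (PS C m n : ℂ)) s) (LSeries (fun n => (PS C m n : ℂ)) s) :=
        (PS_summable hPS s hs).hasSum
      have h4 := (hasSum_nat_add_iff' (f := LSeries.term (fun n => (PS C m n : ℂ)) s) 1).2 h3
      simp only [sum_range_one, LSeries.term_zero, sub_zero] at h4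
      have e : (fun n : ℕ => ((PS C m (n + 1) / ((n + 1 : ℕ) : ℝ) : ℝ) : ℂ) * ((n + 1 : ℕ) : ℂ) ^ (1 - s)) =
          fun n => LSeries.term (fun n => (PS C m n : ℂ)) s (n + 1) := by
        funext n
        have hn : ((n + 1 : ℕ) : ℂ) ≠ 0 := by exact_mod_cast (by omega : n + 1 ≠ 0)
        have hns : ((n + 1 : ℕ) : ℂ) ^ s ≠ 0 := by
          rw [Complex.cpow_ne_zero_iff]; exact Or.inl hn
        rw [LSeries.term_of_ne_zero (by omega : n + 1 ≠ 0), sub_eq_add_neg 1 s,
          Complex.cpow_add _ _ hn, Complex.cpow_one, Complex.cpow_neg]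
        push_cast at hn hns ⊢
        field_simp
      rw [e]
      exact h4
    have hab2 := abel_rel (C := 0) (m := fun k => PS C m k / k) (by positivity : (0 : ℝ) ≤ 2 * Kc) hAS s hs _ hP2
    have hab2' : (s - 1) * LSeries (fun n => (AS C m n : ℂ)) s = E2 s + LSeries (fun n => (PS C m n : ℂ)) s := by
      have := hab2
      simp only [Complex.ofReal_zero, add_zero] at this
      exact this
    have hsp := (split_LSeries n0 (AS C m) s (PS_summable hAS s hs)).2
    rw [hFe]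
    congr 1
    have e6 : (ε : ℂ) * (s - 1) ^ 2 * LSeries (fun n => (AS C m n : ℂ)) s =
        ε * ((s - 1) * E2 s) + ε * (EE C m s + C + ε * (κ * LSeries pr s -
          ∑' n : ℕ, (t n : ℂ) * (n : ℂ) ^ (1 - s))) := by
      have e7 : (ε : ℂ) * (s - 1) ^ 2 * LSeries (fun n => (AS C m n : ℂ)) s =
          ε * ((s - 1) * ((s - 1) * LSeries (fun n => (AS C m n : ℂ)) s)) := by ring
      rw [e7, hab2', ← hab]; ring
    have e7 : (ε : ℂ) * (s - 1) ^ 2 * LSeries (fun n => (G n : ℂ)) s =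
        ε * ((s - 1) * E2 s) + ε * (EE C m s + C + ε * (κ * LSeries pr s -
          ∑' n : ℕ, (t n : ℂ) * (n : ℂ) ^ (1 - s))) - ε * (s - 1) ^ 2 * fin0 n0 (AS C m) s := by
      rw [← e6, hsp]
      ring
    rw [e7, hW]
    simp only
    linear_combination (-(κ * LSeries pr s - ∑' n : ℕ, (t n : ℂ) * (n : ℂ) ^ (1 - s))) * hε2
  obtain ⟨hsum, hall⟩ := core2 G hG0 ε hε F W h.diff hWd
    (fun s hs => (split_LSeries n0 (AS C m) s (PS_summable hAS s hs)).1) hrel hreal
  have hw1 : ∀ᶠ w : ℝ in 𝓝[>] 0, w ≤ 1 := by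
    have : Set.Iic (1 : ℝ) ∈ 𝓝 (0 : ℝ) := Iic_mem_nhds one_pos
    exact mem_nhdsWithin_of_mem_nhds this
  -- the three small terms
  have hs1 : Tendsto (fun w : ℝ => w * (2 * Kc * K32)) (𝓝[>] 0) (𝓝 0) := by
    have : Tendsto (fun w : ℝ => w * (2 * Kc * K32)) (𝓝 0) (𝓝 (0 * (2 * Kc * K32))) :=
      (continuous_id.mul continuous_const).tendsto 0
    rw [zero_mul] at this
    exact this.mono_left nhdsWithin_le_nhds
  have hs1b : Tendsto (fun w : ℝ => w * (4 * Kc * K32)) (𝓝[>] 0) (𝓝 0) := by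
    have : Tendsto (fun w : ℝ => w * (4 * Kc * K32)) (𝓝 0) (𝓝 (0 * (4 * Kc * K32))) :=
      (continuous_id.mul continuous_const).tendsto 0
    rw [zero_mul] at this
    exact this.mono_left nhdsWithin_le_nhds
  have hs2 : Tendsto (fun w : ℝ => w * ‖fin0 n0 (AS C m) (1 + w)‖) (𝓝[>] 0) (𝓝 0) := by
    have hc : Continuous (fun w : ℝ => w * ‖fin0 n0 (AS C m) (1 + w)‖) := by
      have := (fin0_differentiable n0 (AS C m)).continuous
      fun_prop
    have := hc.tendsto 0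
    rw [zero_mul] at this
    exact this.mono_left nhdsWithin_le_nhds
  have hη3 : (0 : ℝ) < η / 3 := by linarith
  filter_upwards [self_mem_nhdsWithin, hw1, hs1.eventually (eventually_lt_nhds hη3),
    hs1b.eventually (eventually_lt_nhds hη3), hs2.eventually (eventually_lt_nhds hη3)]
    with w h3 h4 ha1 ha2 ha3
  have hw : (0 : ℝ) < w := h3
  have hre : (1 : ℝ) < ((1 : ℂ) + w).re := by simp [hw]
  have h5 := hall (1 + w) hre
  have h6 : Real.log ‖F (1 + w)‖ = (W (1 + w)).re +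
      (ε * ((1 + w : ℂ) - 1) ^ 2 * LSeries (fun n => (G n : ℂ)) (1 + w)).re := by
    rw [h5, Complex.norm_exp, Real.log_exp, add_re]
  have h7 : (ε * ((1 + w : ℂ) - 1) ^ 2 * LSeries (fun n => (G n : ℂ)) (1 + w)).re =
      ε * (w ^ 2 * (LSeries (fun n => (G n : ℂ)) ((1 + w : ℝ) : ℂ)).re) := by
    have e1 : (ε : ℂ) * ((1 + w : ℂ) - 1) ^ 2 = ((ε * w ^ 2 : ℝ) : ℂ) := by push_cast; ring
    have e2 : ((1 : ℂ) + w) = ((1 + w : ℝ) : ℂ) := by push_cast; rfl
    rw [e1, Complex.re_ofReal_mul, e2]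
    ring
  have h8 := re_LSeries_nonneg G hG0 (1 + w)
  have h9 : 0 ≤ w ^ 2 * (LSeries (fun n => (G n : ℂ)) ((1 + w : ℝ) : ℂ)).re := mul_nonneg (by positivity) h8
  have h10 : ε * Real.log ‖F (1 + w)‖ = ε * (W (1 + w)).re +
      w ^ 2 * (LSeries (fun n => (G n : ℂ)) ((1 + w : ℝ) : ℂ)).re := by
    rw [h6, h7, mul_add, ← mul_assoc ε ε, hε3, one_mul]
  rw [h10]
  have h11 : (W (1 + w)).re = -(κ * Pool.Agent.H341R2.lam w) -
      ε * ((EE C m (1 + w)).re + C) - ε * (w * (E2 (1 + w)).re) +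
      ε * (w ^ 2 * (fin0 n0 (AS C m) (1 + w)).re) := by
    rw [hW]
    simp only
    rw [pr_eq_lam hw]
    have e8 : ((1 : ℂ) + w - 1) * E2 (1 + w) = (w : ℂ) * E2 (1 + w) := by ring
    have e9 : (ε : ℂ) * ((1 : ℂ) + w - 1) ^ 2 * fin0 n0 (AS C m) (1 + w) =
        ((ε * w ^ 2 : ℝ) : ℂ) * fin0 n0 (AS C m) (1 + w) := by push_cast; ring
    rw [e8, e9]
    simp only [sub_re, re_ofReal_mul, add_re, ofReal_re, neg_re]
    ring
  have e3 : ‖(1 : ℂ) + w - 1‖ = w := by
    rw [add_sub_cancel_left, Complex.norm_real, Real.norm_eq_abs, abs_of_pos hw]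
  have e4 : ‖(1 : ℂ) + w‖ = 1 + w := by
    have : ((1 : ℂ) + w) = ((1 + w : ℝ) : ℂ) := by push_cast; rfl
    rw [this, Complex.norm_real, Real.norm_eq_abs, abs_of_pos (by linarith)]
  have e5 : w * (1 + w) ≤ w * 2 := by nlinarith
  have hK32 : 0 ≤ K32 := tsum_nonneg fun n => by positivity
  have h13 : |(EE C m (1 + w)).re| ≤ w * (2 * Kc * K32) := by
    refine (Complex.abs_re_le_norm _).trans ((EE_bound hKc0 hPS (1 + w) hre.le).2.trans ?_)
    rw [e3, e4]
    calc w * (1 + w) * Kc * K32 ≤ w * 2 * Kc * K32 := by gcongr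
      _ = _ := by ring
  have h13b : |w * (E2 (1 + w)).re| ≤ w * (4 * Kc * K32) := by
    rw [abs_mul, abs_of_pos hw]
    refine mul_le_mul_of_nonneg_left ?_ hw.le
    refine (Complex.abs_re_le_norm _).trans
      ((EE_bound (by positivity : (0 : ℝ) ≤ 2 * Kc) hAS (1 + w) hre.le).2.trans ?_)
    rw [e3, e4]
    have e6 : w * (1 + w) ≤ 2 := by nlinarith
    calc w * (1 + w) * (2 * Kc) * K32 ≤ 2 * (2 * Kc) * K32 := by gcongr
      _ = 4 * Kc * K32 := by ring
  have h14 : |w ^ 2 * (fin0 n0 (AS C m) (1 + w)).re| ≤ w * ‖fin0 n0 (AS C m) (1 + w)‖ := by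
    rw [abs_mul, abs_of_nonneg (by positivity)]
    have e7 : w ^ 2 ≤ w := by nlinarith
    exact mul_le_mul e7 (Complex.abs_re_le_norm _) (abs_nonneg _) hw.le
  rw [h11]
  have h16 := abs_le.1 h13
  have h17 := abs_le.1 h13b
  have h18 := abs_le.1 h14
  have e20 : ε * (-(κ * Pool.Agent.H341R2.lam w) -
      ε * ((EE C m (1 + w)).re + C) - ε * (w * (E2 (1 + w)).re) +
      ε * (w ^ 2 * (fin0 n0 (AS C m) (1 + w)).re)) =
      -(ε * (κ * Pool.Agent.H341R2.lam w)) - ((EE C m (1 + w)).re + C) - (w * (E2 (1 + w)).re) +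
        (w ^ 2 * (fin0 n0 (AS C m) (1 + w)).re) := by
    linear_combination ((w ^ 2 * (fin0 n0 (AS C m) (1 + w)).re) - ((EE C m (1 + w)).re + C) -
      (w * (E2 (1 + w)).re)) * hε3
  rw [e20]
  linarith [h16.1, h16.2, h17.1, h17.2, h18.1, h18.2]

/-- A one-sided bound for the logarithmic means at the critical exponent bounds the constant. -/
theorem critA (h : TD t K F) (ht1 : t 1 = 0) (ε : ℝ) (hε : ε = 1 ∨ ε = -1) (m : ℕ) (c : ℝ)
    (hb : ∀ᶠ n : ℕ in atTop, ε * ((∑ k ∈ Finset.Icc 2 n, ut t m k / k) / Real.log n) ≤ c)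
    (hreal : ε = -1 → ∀ σ : ℝ, 1 < σ → F σ ≠ 0) (l : ℂ) (hl : l ≠ 0)
    (hlim : Tendsto (fun s => F s / (s - 1) ^ m) (𝓝[≠] 1) (𝓝 l)) :
    ε * (m * Real.eulerMascheroniConstant - Real.log ‖l‖) ≤ c := by
  refine le_of_forall_pos_le_add fun η' hη' => ?_
  set η : ℝ := η' / 4 with hη
  have hη0 : 0 < η := by positivity
  set γ := Real.eulerMascheroniConstant with hγ
  set dn : ℕ → ℝ := fun n => (∑ p ∈ (Finset.Icc 1 n).filter Nat.Prime, (1 : ℝ) / p) -
    Real.log (Real.log n) with hdn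
  have hdlim : Tendsto dn atTop (𝓝 (γ - KK)) := mertens_two
  set C : ℝ := c - ε * m * (γ - KK) + η with hC
  have hv : Tendsto (fun n => C + ε * m * dn n) atTop (𝓝 (c + η)) := by
    have h1 := (hdlim.const_mul (ε * m)).const_add C
    have e : C + ε * m * (γ - KK) = c + η := by rw [hC]; ring
    rwa [e] at h1
  have hv2 := logavg hv
  have hAS : ∀ n : ℕ, 1 ≤ n → AS C (mt t ε m) n = C +
      (∑ k ∈ Finset.Icc 2 n, (C + ε * m * dn k) / k - ε * ∑ k ∈ Finset.Icc 2 n, ut t m k / k) := by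
    intro n hn
    unfold AS
    rw [PS, zero_add, Icc_split hn, Finset.sum_insert (by simp)]
    congr 1
    · rw [Nat.cast_one, div_one]
      unfold PS mt
      simp [Nat.not_prime_one, ht1]
    · rw [Finset.mul_sum, ← Finset.sum_sub_distrib]
      refine Finset.sum_congr rfl fun k _ => ?_
      rw [PSt_eq, hdn]
      unfold ut
      ring
  have hlogn := log_nat_tendsto
  have hbig : ∀ᶠ n : ℕ in atTop, |C| ≤ η / 2 * Real.log n := by
    have h1 := hlogn.const_mul_atTop (by positivity : (0 : ℝ) < η / 2)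
    exact h1.eventually_ge_atTop _
  obtain ⟨n0, hn0⟩ := eventually_atTop.1 ((((hb.and (hv2.eventually
    (eventually_gt_nhds (by linarith : c + η / 2 < c + η)))).and hbig).and
      (hlogn.eventually (eventually_gt_atTop 0))).and (eventually_ge_atTop 1))
  have hG : ∀ n, n0 ≤ n → 0 ≤ AS C (mt t ε m) n := by
    intro n hn
    obtain ⟨⟨⟨⟨h1, h2⟩, h3⟩, h4⟩, h5⟩ := hn0 n hn
    rw [hAS n h5]
    rw [← mul_div_assoc, div_le_iff₀ h4] at h1
    rw [lt_div_iff₀ h4] at h2
    have h6 := neg_abs_le C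
    nlinarith
  have hkey := keyA h ε m C hε n0 hG hreal η hη0
  have hL := ((log_lead hl hlim).add (lam_log_tendsto.const_mul (m : ℝ))).const_mul ε
  have hL2 : ∀ᶠ w : ℝ in 𝓝[>] 0, ε * ((Real.log ‖F (1 + w)‖ - m * Real.log w) +
      m * (Pool.Agent.H341R2.lam w + Real.log w)) < ε * (Real.log ‖l‖ + m * -KK) + η :=
    hL.eventually (eventually_lt_nhds (by linarith))
  obtain ⟨w, hw1, hw3⟩ := (hkey.and hL2).exists
  have e2 : ε * ((Real.log ‖F (1 + w)‖ - m * Real.log w) +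
      m * (Pool.Agent.H341R2.lam w + Real.log w)) =
      ε * Real.log ‖F (1 + w)‖ + ε * (m * Pool.Agent.H341R2.lam w) := by ring
  rw [e2] at hw3
  have e4 : η' = 4 * η := by rw [hη]; ring
  rw [e4]
  nlinarith

end

end Pool.Agent.H230R4.BSD
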