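import Pool.Agent.H230R4.BSD.TKey3

/-! Sums over prime powers: limit points of the logarithmic averages. -/

set_option autoImplicit false

open Filter Topology

namespace Pool.Agent.H230R4.BSD

open Pool.Agent.H438R3.BSD

section

variable {t : ℕ → ℝ} {K : ℝ} {F : ℂ → ℂ}

lemma mean_step {P : ℕ → ℝ} {c : ℝ} (hc : 0 ≤ c)
    (hP : ∀ n : ℕ, 1 ≤ n → |P n| ≤ c * (n : ℝ) ^ (1 / 2 : ℝ)) :
    Tendsto (fun n : ℕ => (∑ k ∈ Finset.Icc 2 (n + 1), P k / k) / Real.log ((n + 1 : ℕ) : ℝ) -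
      (∑ k ∈ Finset.Icc 2 n, P k / k) / Real.log n) atTop (𝓝 0) := by
  have hl2 : 0 < Real.log 2 := Real.log_pos (by norm_num)
  have hz : Tendsto (fun n : ℕ => (c / Real.log 2 + 2 * c / (Real.log 2) ^ 2) *
      (n : ℝ) ^ (-(1 / 2) : ℝ)) atTop (𝓝 0) := by
    have h2 : Tendsto (fun n : ℕ => (n : ℝ) ^ (-(1 / 2) : ℝ)) atTop (𝓝 0) :=
      (tendsto_rpow_neg_atTop (by norm_num : (0 : ℝ) < 1 / 2)).comp tendsto_natCast_atTop_atTop
    have h3 := h2.const_mul (c / Real.log 2 + 2 * c / (Real.log 2) ^ 2)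
    rw [mul_zero] at h3
    exact h3
  refine squeeze_zero_norm' ?_ hz
  filter_upwards [eventually_ge_atTop 2] with n hn
  have hnr : (2 : ℝ) ≤ n := by exact_mod_cast hn
  have hn0 : (0 : ℝ) < n := by linarith
  have hn1 : (0 : ℝ) < ((n + 1 : ℕ) : ℝ) := by positivity
  have hln : Real.log 2 ≤ Real.log n := Real.log_le_log (by norm_num) hnr
  have hln0 : 0 < Real.log n := by linarith
  have hle : (n : ℝ) ≤ ((n + 1 : ℕ) : ℝ) := by push_cast; linarith
  have hln1 : Real.log n ≤ Real.log ((n + 1 : ℕ) : ℝ) := Real.log_le_log hn0 hle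
  have hln10 : 0 < Real.log ((n + 1 : ℕ) : ℝ) := by linarith
  set S : ℝ := ∑ k ∈ Finset.Icc 2 n, P k / k with hS
  have hSle : |S| ≤ 2 * c * (n : ℝ) ^ (1 / 2 : ℝ) := by
    rw [hS]
    calc |∑ k ∈ Finset.Icc 2 n, P k / k| ≤ ∑ k ∈ Finset.Icc 2 n, |P k / k| :=
          Finset.abs_sum_le_sum_abs _ _
      _ ≤ ∑ k ∈ Finset.Icc 2 n, c * (k : ℝ) ^ (-(1 / 2) : ℝ) := by
          refine Finset.sum_le_sum fun k hk => ?_
          have hk2 := (Finset.mem_Icc.1 hk).1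
          have hk0 : (0 : ℝ) < k := by exact_mod_cast (by omega : 0 < k)
          rw [abs_div, abs_of_pos hk0, div_le_iff₀ hk0]
          refine (hP k (by omega)).trans (le_of_eq ?_)
          rw [mul_assoc]
          congr 1
          nth_rewrite 3 [← Real.rpow_one (k : ℝ)]
          rw [← Real.rpow_add hk0]
          norm_num
      _ ≤ ∑ k ∈ Finset.Icc 1 n, c * (k : ℝ) ^ (-(1 / 2) : ℝ) := by
          refine Finset.sum_le_sum_of_subset_of_nonneg (Finset.Icc_subset_Icc (by norm_num) le_rfl) ?_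
          intro k _ _
          positivity
      _ ≤ c * (2 * (n : ℝ) ^ (1 / 2 : ℝ)) := by
          rw [← Finset.mul_sum]
          exact mul_le_mul_of_nonneg_left (sum_rpow_half n) hc
      _ = _ := by ring
  rw [Finset.sum_Icc_succ_top (by omega), Real.norm_eq_abs]
  have e1 : (S + P (n + 1) / ((n + 1 : ℕ) : ℝ)) / Real.log ((n + 1 : ℕ) : ℝ) - S / Real.log n =
      (P (n + 1) / ((n + 1 : ℕ) : ℝ)) / Real.log ((n + 1 : ℕ) : ℝ) -
        S * ((Real.log ((n + 1 : ℕ) : ℝ) - Real.log n) /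
          (Real.log n * Real.log ((n + 1 : ℕ) : ℝ))) := by
    field_simp
    ring
  rw [e1]
  refine (abs_sub _ _).trans ?_
  rw [add_mul]
  apply add_le_add
  · rw [abs_div, abs_div, abs_of_pos hn1, abs_of_pos hln10]
    have h1 := hP (n + 1) (by omega)
    calc |P (n + 1)| / ((n + 1 : ℕ) : ℝ) / Real.log ((n + 1 : ℕ) : ℝ)
        ≤ (c * (((n + 1 : ℕ) : ℝ)) ^ (1 / 2 : ℝ)) / ((n + 1 : ℕ) : ℝ) / Real.log 2 := by
          gcongr
          linarith
      _ = c / Real.log 2 * ((((n + 1 : ℕ) : ℝ)) ^ (1 / 2 : ℝ) / ((n + 1 : ℕ) : ℝ)) := by ring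
      _ = c / Real.log 2 * (((n + 1 : ℕ) : ℝ)) ^ (-(1 / 2) : ℝ) := by
          congr 1
          nth_rewrite 2 [← Real.rpow_one (((n + 1 : ℕ) : ℝ))]
          rw [← Real.rpow_sub hn1]
          norm_num
      _ ≤ c / Real.log 2 * (n : ℝ) ^ (-(1 / 2) : ℝ) := by
          refine mul_le_mul_of_nonneg_left ?_ (by positivity)
          exact Real.rpow_le_rpow_of_nonpos hn0 hle (by norm_num)
  · have h2 : Real.log ((n + 1 : ℕ) : ℝ) - Real.log n ≤ 1 / n := by
      rw [← Real.log_div hn1.ne' hn0.ne']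
      refine (Real.log_le_sub_one_of_pos (by positivity)).trans (le_of_eq ?_)
      push_cast
      field_simp
      ring
    have h3 : 0 ≤ Real.log ((n + 1 : ℕ) : ℝ) - Real.log n := by linarith
    have h4 : (Real.log 2) ^ 2 ≤ Real.log n * Real.log ((n + 1 : ℕ) : ℝ) := by nlinarith
    rw [abs_mul, abs_of_nonneg (by positivity :
      0 ≤ (Real.log ((n + 1 : ℕ) : ℝ) - Real.log n) / (Real.log n * Real.log ((n + 1 : ℕ) : ℝ)))]
    calc |S| * ((Real.log ((n + 1 : ℕ) : ℝ) - Real.log n) /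
          (Real.log n * Real.log ((n + 1 : ℕ) : ℝ)))
        ≤ (2 * c * (n : ℝ) ^ (1 / 2 : ℝ)) * ((1 / n) / (Real.log 2) ^ 2) := by gcongr
      _ = 2 * c / (Real.log 2) ^ 2 * ((n : ℝ) ^ (1 / 2 : ℝ) / n) := by ring
      _ = 2 * c / (Real.log 2) ^ 2 * (n : ℝ) ^ (-(1 / 2) : ℝ) := by
          congr 1
          nth_rewrite 2 [← Real.rpow_one (n : ℝ)]
          rw [← Real.rpow_sub hn0]
          norm_num

lemma LM_step (h : TD t K F) (κ : ℝ) :
    Tendsto (fun n : ℕ => (∑ k ∈ Finset.Icc 2 (n + 1), ut t κ k / k) / Real.log ((n + 1 : ℕ) : ℝ) -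
      (∑ k ∈ Finset.Icc 2 n, ut t κ k / k) / Real.log n) atTop (𝓝 0) := by
  have hK := h.K0
  have h1 := mean_step (P := PS 0 (mt t (-1) κ)) (c := |(0 : ℝ)| + 2 * (|κ| + K)) (by positivity)
    (fun n hn => PSt_le h (-1) κ 0 (by norm_num) n hn)
  have hdlim := logavg mertens_two
  have h2 := (hdlim.comp (tendsto_add_atTop_nat 1)).sub hdlim
  rw [sub_self] at h2
  have h3 := h1.add (h2.const_mul κ)
  rw [mul_zero, add_zero] at h3
  refine h3.congr fun n => ?_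
  simp only [Function.comp]
  have e : ∀ N : ℕ, ∑ k ∈ Finset.Icc 2 N, ut t κ k / k =
      ∑ k ∈ Finset.Icc 2 N, PS 0 (mt t (-1) κ) k / k + κ * ∑ k ∈ Finset.Icc 2 N,
        (∑ p ∈ (Finset.Icc 1 k).filter Nat.Prime, (1 : ℝ) / p - Real.log (Real.log k)) / k := by
    intro N
    rw [Finset.mul_sum, ← Finset.sum_add_distrib]
    refine Finset.sum_congr rfl fun k _ => ?_
    rw [PSt_eq]
    unfold ut
    ring
  rw [e, e]
  ring

/-- **The limit points**, without any growth hypothesis. -/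
theorem pointsT (h : TD t K F) (ht1 : t 1 = 0) (T : ℕ → ℝ)
    (hT : ∀ x, T x = ∑ N ∈ Finset.Icc 1 x, t N) :
    ∃ (m : ℕ) (l : ℂ), analyticOrderAt F 1 = m ∧ l ≠ 0 ∧
    Tendsto (fun s => F s / (s - 1) ^ m) (𝓝[≠] 1) (𝓝 l) ∧
    (∀ c < m * Real.eulerMascheroniConstant - Real.log ‖l‖,
      (∃ᶠ n : ℕ in atTop, c < T n - m * Real.log (Real.log n)) ∧ ∃ᶠ n : ℕ in atTop, c < LM T m n) ∧
    ((∀ σ : ℝ, 1 < σ → F σ ≠ 0) →
      (∃ φ : ℕ → ℕ, StrictMono φ ∧ Tendsto (fun n => T (φ n) - m * Real.log (Real.log (φ n))) atTop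
        (𝓝 (m * Real.eulerMascheroniConstant - Real.log ‖l‖))) ∧
      ∃ φ : ℕ → ℕ, StrictMono φ ∧ Tendsto (fun n => LM T m (φ n)) atTop
        (𝓝 (m * Real.eulerMascheroniConstant - Real.log ‖l‖))) ∧
    ((∃ C, ∀ᶠ n : ℕ in atTop, T n - m * Real.log (Real.log n) ≤ C) ∨
      ((∀ σ : ℝ, 1 < σ → F σ ≠ 0) ∧
        ∃ C, ∀ᶠ n : ℕ in atTop, C ≤ T n - m * Real.log (Real.log n)) →
      (∀ s : ℂ, 1 < s.re → F s ≠ 0) ∧
      Tendsto (LM T m) atTop (𝓝 (m * Real.eulerMascheroniConstant - Real.log ‖l‖))) := by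
  obtain ⟨m, hm⟩ := ordT h
  obtain ⟨l, hl, hlim⟩ := lead h.diff m hm
  have hu : ∀ (κ : ℝ) (n : ℕ), T n - κ * Real.log (Real.log n) = ut t κ n := by
    intro κ n
    unfold ut
    rw [hT]
  have hLM : ∀ (κ : ℝ) (x : ℕ), LM T κ x = (∑ n ∈ Finset.Icc 2 x, ut t κ n / n) / Real.log x := by
    intro κ x
    unfold LM
    simp_rw [hu]
  obtain ⟨h1, h2, h3⟩ := finT h m l hl hlim
  have hupA : ∀ c < m * Real.eulerMascheroniConstant - Real.log ‖l‖,
      ∃ᶠ n : ℕ in atTop, c < LM T m n := by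
    intro c hc hcon
    have h4 := critA h ht1 1 (Or.inl rfl) m c (by
      filter_upwards [hcon] with n hn
      rw [one_mul, ← hLM]
      exact not_lt.1 hn) (fun h => by norm_num at h) l hl hlim
    rw [one_mul] at h4
    exact absurd h4 (not_le.2 hc)
  refine ⟨m, l, hm, hl, hlim, fun c hc => ⟨?_, hupA c hc⟩, fun hreal => ⟨?_, ?_⟩, ?_⟩
  · simp_rw [hu]; exact h1 c hc
  · simp_rw [hu]; exact h2 hreal
  · have hdnA : ∀ c, m * Real.eulerMascheroniConstant - Real.log ‖l‖ < c →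
        ∃ᶠ n : ℕ in atTop, LM T m n < c := by
      intro c hc hcon
      have h4 := critA h ht1 (-1) (Or.inr rfl) m (-c) (by
        filter_upwards [hcon] with n hn
        rw [← hLM]
        have := not_lt.1 hn
        linarith) (fun _ => hreal) l hl hlim
      linarith
    have hstep : Tendsto (fun n => LM T m (n + 1) - LM T m n) atTop (𝓝 0) := by
      refine (LM_step h m).congr fun n => ?_
      rw [hLM, hLM]
    obtain ⟨c, hc, φ, hφ, hφ2⟩ := cross hstep (le_refl _) hupA hdnA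
    have : c = m * Real.eulerMascheroniConstant - Real.log ‖l‖ := le_antisymm hc.2 hc.1
    rw [this] at hφ2
    exact ⟨φ, hφ, hφ2⟩
  · simp_rw [hu]
    intro hb
    obtain ⟨h4, h5⟩ := h3 hb
    exact ⟨h4, h5.congr fun x => (hLM m x).symm⟩

end

end Pool.Agent.H230R4.BSD
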