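import Mathlib

/-! The multiplicative form of the limits. -/

set_option autoImplicit false

open Filter Topology

namespace Pool.Agent.H230R4.BSD

lemma mulT {T : ℕ → ℝ} {m : ℕ} {l : ℂ} (hl : l ≠ 0) {φ : ℕ → ℕ} (hφ : StrictMono φ)
    (h : Tendsto (fun n => T (φ n) - m * Real.log (Real.log (φ n))) atTop
      (𝓝 (m * Real.eulerMascheroniConstant - Real.log ‖l‖))) :
    Tendsto (fun n => (Real.exp Real.eulerMascheroniConstant * Real.log (φ n)) ^ m *
      Real.exp (-T (φ n))) atTop (𝓝 ‖l‖) := by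
  have h1 := (h.const_sub (m * Real.eulerMascheroniConstant)).rexp
  have e : Real.exp (m * Real.eulerMascheroniConstant -
      (m * Real.eulerMascheroniConstant - Real.log ‖l‖)) = ‖l‖ := by
    rw [sub_sub_cancel, Real.exp_log (norm_pos_iff.2 hl)]
  rw [e] at h1
  refine h1.congr' ?_
  have hφ2 : ∀ᶠ n in atTop, 2 ≤ φ n := hφ.tendsto_atTop.eventually (eventually_ge_atTop 2)
  filter_upwards [hφ2] with n hn
  have hn2 : (2 : ℝ) ≤ φ n := by exact_mod_cast hn
  have hlog : 0 < Real.log (φ n) := Real.log_pos (by linarith)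
  have e1 : (m : ℝ) * Real.eulerMascheroniConstant - (T (φ n) - m * Real.log (Real.log (φ n))) =
      m * (Real.eulerMascheroniConstant + Real.log (Real.log (φ n))) + -T (φ n) := by ring
  rw [e1, Real.exp_add, Real.exp_nat_mul, Real.exp_add, Real.exp_log hlog]

end Pool.Agent.H230R4.BSD
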