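import Pool.Agent.H230R4.BSD.TFin

/-! Sums over prime powers: Euler products indexed by places. -/

set_option autoImplicit false

open Filter Topology

namespace Pool.Agent.H230R4.BSD

section

variable {P : Type}

/-- places `v` of norm `nrm v`, with traces of Frobenius `c v m` of size `nrm v ^ (m / 2)`; `S N` is
the set of the pairs `(v, k)` with `nrm v ^ (k + 1) = N` -/
structure PD (nrm : P → ℕ) (c : P → ℕ → ℝ) (A : ℝ) (B : ℕ) (S : ℕ → Finset (P × ℕ)) : Prop where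
  A0 : 0 ≤ A
  two_le : ∀ v, 2 ≤ nrm v
  cle : ∀ v (m : ℕ), 1 ≤ m → |c v m| ≤ A * (nrm v : ℝ) ^ ((m : ℝ) / 2)
  mem : ∀ N q, q ∈ S N ↔ nrm q.1 ^ (q.2 + 1) = N
  card : ∀ N, (S N).card ≤ B

/-- the term of the pair `q = (v, k)` -/
noncomputable def aq (nrm : P → ℕ) (c : P → ℕ → ℝ) (q : P × ℕ) : ℝ :=
  -(c q.1 (q.2 + 1)) / (((q.2 : ℝ) + 1) * (nrm q.1 : ℝ) ^ (q.2 + 1))

/-- the sum of the terms of norm `N` -/
noncomputable def tq (nrm : P → ℕ) (c : P → ℕ → ℝ) (S : ℕ → Finset (P × ℕ)) (N : ℕ) : ℝ :=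
  ∑ q ∈ S N, aq nrm c q

variable {nrm : P → ℕ} {c : P → ℕ → ℝ} {A : ℝ} {B : ℕ} {S : ℕ → Finset (P × ℕ)}

lemma aq_le (h : PD nrm c A B S) (q : P × ℕ) :
    |aq nrm c q| ≤ A * ((nrm q.1 ^ (q.2 + 1) : ℕ) : ℝ) ^ (-(1 / 2) : ℝ) := by
  have h2 := h.two_le q.1
  have hn0 : (0 : ℝ) < nrm q.1 := by exact_mod_cast (by omega : 0 < nrm q.1)
  have h1 := h.cle q.1 (q.2 + 1) (by omega)
  have hA := h.A0
  unfold aq
  have hN : (0 : ℝ) < (nrm q.1 : ℝ) ^ (q.2 + 1) := by positivity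
  have hk : (1 : ℝ) ≤ (q.2 : ℝ) + 1 := by
    have : (0 : ℝ) ≤ q.2 := Nat.cast_nonneg _
    linarith
  rw [abs_div, abs_neg, abs_of_pos (by positivity : (0 : ℝ) < ((q.2 : ℝ) + 1) * (nrm q.1 : ℝ) ^ (q.2 + 1)),
    div_le_iff₀ (by positivity)]
  have e1 : ((nrm q.1 ^ (q.2 + 1) : ℕ) : ℝ) ^ (-(1 / 2) : ℝ) * (nrm q.1 : ℝ) ^ (q.2 + 1) =
      (nrm q.1 : ℝ) ^ (((q.2 + 1 : ℕ) : ℝ) / 2) := by
    rw [Nat.cast_pow]
    nth_rewrite 2 [← Real.rpow_one ((nrm q.1 : ℝ) ^ (q.2 + 1))]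
    rw [← Real.rpow_add hN, ← Real.rpow_natCast, ← Real.rpow_mul hn0.le]
    congr 1
    ring
  calc |c q.1 (q.2 + 1)| ≤ A * (nrm q.1 : ℝ) ^ (((q.2 + 1 : ℕ) : ℝ) / 2) := h1
    _ = (A * ((nrm q.1 ^ (q.2 + 1) : ℕ) : ℝ) ^ (-(1 / 2) : ℝ)) * (1 * (nrm q.1 : ℝ) ^ (q.2 + 1)) := by
        rw [← e1]; ring
    _ ≤ (A * ((nrm q.1 ^ (q.2 + 1) : ℕ) : ℝ) ^ (-(1 / 2) : ℝ)) *
        (((q.2 : ℝ) + 1) * (nrm q.1 : ℝ) ^ (q.2 + 1)) := by
        refine mul_le_mul_of_nonneg_left ?_ (by positivity)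
        exact mul_le_mul_of_nonneg_right hk hN.le

lemma tq_le (h : PD nrm c A B S) (N : ℕ) : |tq nrm c S N| ≤ (B * A) * (N : ℝ) ^ (-(1 / 2) : ℝ) := by
  have hA := h.A0
  unfold tq
  calc |∑ q ∈ S N, aq nrm c q| ≤ ∑ q ∈ S N, |aq nrm c q| := Finset.abs_sum_le_sum_abs _ _
    _ ≤ ∑ q ∈ S N, A * (N : ℝ) ^ (-(1 / 2) : ℝ) := by
        refine Finset.sum_le_sum fun q hq => ?_
        have h1 := aq_le h q
        rwa [(h.mem N q).1 hq] at h1
    _ = (S N).card * (A * (N : ℝ) ^ (-(1 / 2) : ℝ)) := by rw [Finset.sum_const, nsmul_eq_mul]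
    _ ≤ B * (A * (N : ℝ) ^ (-(1 / 2) : ℝ)) := by
        refine mul_le_mul_of_nonneg_right ?_ (by positivity)
        exact_mod_cast h.card N
    _ = _ := by ring

lemma S_zero (h : PD nrm c A B S) : S 0 = ∅ := by
  rw [Finset.eq_empty_iff_forall_notMem]
  intro q hq
  have h1 := (h.mem 0 q).1 hq
  have h2 := h.two_le q.1
  have h3 : 0 < nrm q.1 ^ (q.2 + 1) := by positivity
  omega

lemma tq_zero (h : PD nrm c A B S) : tq nrm c S 0 = 0 := by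
  unfold tq
  rw [S_zero h, Finset.sum_empty]

lemma tq_one (h : PD nrm c A B S) : tq nrm c S 1 = 0 := by
  unfold tq
  have : S 1 = ∅ := by
    rw [Finset.eq_empty_iff_forall_notMem]
    intro q hq
    have h1 := (h.mem 1 q).1 hq
    have h2 := h.two_le q.1
    have h3 : nrm q.1 ≤ nrm q.1 ^ (q.2 + 1) := Nat.le_self_pow (by omega) _
    omega
  rw [this, Finset.sum_empty]

/-- the whole series -/
lemma q_summable (h : PD nrm c A B S) {s : ℂ} (hs : 3 / 2 < s.re) :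
    Summable (fun q : P × ℕ => (aq nrm c q : ℂ) * ((nrm q.1 ^ (q.2 + 1) : ℕ) : ℂ) ^ (1 - s)) := by
  have hA := h.A0
  have hpos : ∀ q : P × ℕ, 0 < nrm q.1 ^ (q.2 + 1) := by
    intro q
    have h2 := h.two_le q.1
    positivity
  have hg : Summable (fun q : P × ℕ => A * ((nrm q.1 ^ (q.2 + 1) : ℕ) : ℝ) ^ (1 / 2 - s.re)) := by
    have hfib : Summable (fun x : (Σ N : ℕ, {q : P × ℕ // nrm q.1 ^ (q.2 + 1) = N}) =>
        A * ((nrm x.2.1.1 ^ (x.2.1.2 + 1) : ℕ) : ℝ) ^ (1 / 2 - s.re)) := by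
      rw [summable_sigma_of_nonneg (fun x => by positivity)]
      have hfin : ∀ N : ℕ, Fintype {q : P × ℕ // nrm q.1 ^ (q.2 + 1) = N} := fun N =>
        Fintype.subtype (S N) fun q => h.mem N q
      refine ⟨fun N => ?_, ?_⟩
      · have := hfin N
        exact (hasSum_fintype _).summable
      · refine Summable.of_nonneg_of_le (fun N => tsum_nonneg fun y => by positivity) (fun N => ?_)
          ((Real.summable_nat_rpow.2 (by linarith : 1 / 2 - s.re < -1)).mul_left (B * A))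
        have := hfin N
        rw [tsum_fintype]
        have e : ∀ y : {q : P × ℕ // nrm q.1 ^ (q.2 + 1) = N},
            A * ((nrm y.1.1 ^ (y.1.2 + 1) : ℕ) : ℝ) ^ (1 / 2 - s.re) = A * (N : ℝ) ^ (1 / 2 - s.re) := by
          intro y
          rw [y.2]
        simp_rw [e]
        rw [Finset.sum_const, nsmul_eq_mul, Finset.card_univ]
        have hc : Fintype.card {q : P × ℕ // nrm q.1 ^ (q.2 + 1) = N} = (S N).card :=
          Fintype.card_of_subtype (S N) fun q => h.mem N q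
        rw [hc]
        calc ((S N).card : ℝ) * (A * (N : ℝ) ^ (1 / 2 - s.re)) ≤ B * (A * (N : ℝ) ^ (1 / 2 - s.re)) := by
              refine mul_le_mul_of_nonneg_right ?_ (by positivity)
              exact_mod_cast h.card N
          _ = _ := by ring
    exact (Equiv.summable_iff (Equiv.sigmaFiberEquiv (fun q : P × ℕ => nrm q.1 ^ (q.2 + 1)))).1 hfib
  refine Summable.of_norm_bounded hg fun q => ?_
  have h1 := aq_le h q
  have h3 : (0 : ℝ) < ((nrm q.1 ^ (q.2 + 1) : ℕ) : ℝ) := by exact_mod_cast hpos q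
  rw [norm_mul, Complex.norm_real, Real.norm_eq_abs, Complex.norm_natCast_cpow_of_pos (hpos q)]
  calc |aq nrm c q| * ((nrm q.1 ^ (q.2 + 1) : ℕ) : ℝ) ^ (1 - s).re ≤
      (A * ((nrm q.1 ^ (q.2 + 1) : ℕ) : ℝ) ^ (-(1 / 2) : ℝ)) *
        ((nrm q.1 ^ (q.2 + 1) : ℕ) : ℝ) ^ (1 - s).re := mul_le_mul_of_nonneg_right h1 (by positivity)
    _ = A * (((nrm q.1 ^ (q.2 + 1) : ℕ) : ℝ) ^ (-(1 / 2) : ℝ) *
        ((nrm q.1 ^ (q.2 + 1) : ℕ) : ℝ) ^ (1 - s).re) := by ring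
    _ = A * ((nrm q.1 ^ (q.2 + 1) : ℕ) : ℝ) ^ (1 / 2 - s.re) := by
        rw [← Real.rpow_add h3]; congr 2; simp; ring

/-- grouping by norms -/
lemma q_norms (h : PD nrm c A B S) {s : ℂ} (hs : 3 / 2 < s.re) :
    HasSum (fun N : ℕ => (tq nrm c S N : ℂ) * (N : ℂ) ^ (1 - s))
      (∑' q : P × ℕ, (aq nrm c q : ℂ) * ((nrm q.1 ^ (q.2 + 1) : ℕ) : ℂ) ^ (1 - s)) := by
  have h1 := (q_summable h hs).hasSum
  have h2 := (Equiv.hasSum_iff (Equiv.sigmaFiberEquiv (fun q : P × ℕ => nrm q.1 ^ (q.2 + 1)))).2 h1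
  refine h2.sigma fun N => ?_
  have : Fintype {q : P × ℕ // nrm q.1 ^ (q.2 + 1) = N} := Fintype.subtype (S N) fun q => h.mem N q
  have h3 := hasSum_fintype (fun q : {q : P × ℕ // nrm q.1 ^ (q.2 + 1) = N} =>
    (aq nrm c q.1 : ℂ) * ((nrm q.1.1 ^ (q.1.2 + 1) : ℕ) : ℂ) ^ (1 - s))
  have h4 : (tq nrm c S N : ℂ) * (N : ℂ) ^ (1 - s) =
      ∑ q : {q : P × ℕ // nrm q.1 ^ (q.2 + 1) = N},
        (aq nrm c q.1 : ℂ) * ((nrm q.1.1 ^ (q.1.2 + 1) : ℕ) : ℂ) ^ (1 - s) := by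
    rw [← Finset.sum_subtype (S N) (fun q => h.mem N q)
      (fun q : P × ℕ => (aq nrm c q : ℂ) * ((nrm q.1 ^ (q.2 + 1) : ℕ) : ℂ) ^ (1 - s))]
    unfold tq
    rw [Complex.ofReal_sum, Finset.sum_mul]
    refine Finset.sum_congr rfl fun q hq => ?_
    rw [(h.mem N q).1 hq]
  rw [h4]
  exact h3

/-- the term in the Euler factor -/
lemma aq_term (h : PD nrm c A B S) (v : P) (k : ℕ) (s : ℂ) :
    (aq nrm c (v, k) : ℂ) * ((nrm v ^ (k + 1) : ℕ) : ℂ) ^ (1 - s) =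
      -((c v (k + 1) : ℂ) * (nrm v : ℂ) ^ (-((k + 1 : ℂ) * s)) / (k + 1 : ℂ)) := by
  have h2 := h.two_le v
  have hn : (nrm v : ℂ) ≠ 0 := by exact_mod_cast (by omega : nrm v ≠ 0)
  have hk : ((k : ℂ) + 1) ≠ 0 := by exact_mod_cast (by omega : k + 1 ≠ 0)
  have e1 : (((nrm v ^ (k + 1) : ℕ) : ℂ)) ^ (1 - s) =
      (nrm v : ℂ) ^ (k + 1) * (nrm v : ℂ) ^ (-((k + 1 : ℂ) * s)) := by
    rw [Nat.cast_pow, ← Complex.natCast_cpow_natCast_mul, ← Complex.cpow_natCast,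
      ← Complex.cpow_add _ _ hn]
    congr 1
    push_cast
    ring
  unfold aq
  rw [e1]
  push_cast
  field_simp

/-- grouping by places -/
lemma q_places (h : PD nrm c A B S) {s : ℂ} (hs : 3 / 2 < s.re) :
    HasSum (fun v : P => -∑' k : ℕ, (c v (k + 1) : ℂ) * (nrm v : ℂ) ^ (-((k + 1 : ℂ) * s)) / (k + 1 : ℂ))
      (∑' q : P × ℕ, (aq nrm c q : ℂ) * ((nrm q.1 ^ (q.2 + 1) : ℕ) : ℂ) ^ (1 - s)) := by
  have h0 := q_summable h hs
  refine h0.hasSum.prod_fiberwise fun v => ?_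
  have h1 := (h0.prod_factor v).hasSum
  have h2 : (∑' k : ℕ, (aq nrm c (v, k) : ℂ) * ((nrm v ^ (k + 1) : ℕ) : ℂ) ^ (1 - s)) =
      -∑' k : ℕ, (c v (k + 1) : ℂ) * (nrm v : ℂ) ^ (-((k + 1 : ℂ) * s)) / (k + 1 : ℂ) := by
    rw [← tsum_neg]
    exact tsum_congr fun k => aq_term h v k s
  rw [← h2]
  exact h1

lemma q_td (h : PD nrm c A B S) {F : ℂ → ℂ} (hF : Differentiable ℂ F)
    (hprod : ∀ s : ℂ, 3 / 2 < s.re → HasProd (fun v : P =>
      Complex.exp (∑' k : ℕ, (c v (k + 1) : ℂ) * (nrm v : ℂ) ^ (-((k + 1 : ℂ) * s)) / (k + 1 : ℂ))) (F s)) :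
    TD (tq nrm c S) (B * A) F := by
  have hA := h.A0
  refine ⟨by positivity, tq_zero h, fun n _ => tq_le h n, hF, fun s hs => ?_⟩
  rw [(q_norms h hs).tsum_eq]
  refine (hprod s hs).unique ?_
  have h1 := (q_places h hs).neg.cexp
  simpa only [Function.comp_def, neg_neg] using h1

open Classical in
/-- the sum of the terms of norm at most `x` -/
lemma T_eq (h : PD nrm c A B S) (x : ℕ) :
    (∑ᶠ q : P × ℕ, if nrm q.1 ^ (q.2 + 1) ≤ x then aq nrm c q else 0) =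
      ∑ N ∈ Finset.Icc 1 x, tq nrm c S N := by
  have hsub : Function.support (fun q : P × ℕ => if nrm q.1 ^ (q.2 + 1) ≤ x then aq nrm c q else 0) ⊆
      ((Finset.Icc 1 x).biUnion S : Finset (P × ℕ)) := by
    intro q hq
    rw [Function.mem_support] at hq
    have h1 : nrm q.1 ^ (q.2 + 1) ≤ x := by
      by_contra hh
      exact hq (if_neg hh)
    rw [Finset.mem_coe, Finset.mem_biUnion]
    have h2 := h.two_le q.1
    have h3 : 0 < nrm q.1 ^ (q.2 + 1) := by positivity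
    exact ⟨nrm q.1 ^ (q.2 + 1), Finset.mem_Icc.2 ⟨h3, h1⟩, (h.mem _ q).2 rfl⟩
  rw [finsum_eq_sum_of_support_subset _ hsub, Finset.sum_biUnion]
  · refine Finset.sum_congr rfl fun N hN => ?_
    unfold tq
    refine Finset.sum_congr rfl fun q hq => ?_
    rw [if_pos]
    rw [(h.mem N q).1 hq]
    exact (Finset.mem_Icc.1 hN).2
  · intro m _ n _ hmn
    rw [Function.onFun, Finset.disjoint_left]
    intro q h1 h2
    exact hmn (((h.mem m q).1 h1).symm.trans ((h.mem n q).1 h2))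

end

end Pool.Agent.H230R4.BSD
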