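import Pool.Agent.H230R4.BSD.Key2

/-! The Tauberian theorem: logarithmic averages. -/

set_option autoImplicit false

open Filter Topology

namespace Pool.Agent.H230R4.BSD

open Pool.Agent.H438R3.BSD Pool.Agent.H341R2

lemma log_nat_tendsto : Tendsto (fun N : ℕ => Real.log (N : ℝ)) atTop atTop :=
  Real.tendsto_log_atTop.comp tendsto_natCast_atTop_atTop

lemma harm : Tendsto (fun N : ℕ => (∑ n ∈ Finset.Icc 2 N, (1 : ℝ) / n) / Real.log N) atTop (𝓝 1) := by
  have h1 := Real.tendsto_harmonic_sub_log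
  have h2 := ((h1.sub_const 1).div_atTop log_nat_tendsto).add_const 1
  rw [zero_add] at h2
  refine h2.congr' ?_
  filter_upwards [log_nat_tendsto.eventually (eventually_gt_atTop 0), eventually_ge_atTop 1] with N hN hN1
  have h3 : ((harmonic N : ℚ) : ℝ) = 1 + ∑ n ∈ Finset.Icc 2 N, (1 : ℝ) / n := by
    rw [harmonic_eq_sum_Icc, Icc_split hN1, Finset.sum_insert (by simp)]
    push_cast
    simp
  rw [h3]
  field_simp
  ring

lemma logavg0 {v : ℕ → ℝ} (h : Tendsto v atTop (𝓝 0)) :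
    Tendsto (fun N : ℕ => (∑ n ∈ Finset.Icc 2 N, v n / n) / Real.log N) atTop (𝓝 0) := by
  set f : ℕ → ℝ := fun n => if 2 ≤ n then v n / n else 0 with hf
  set g : ℕ → ℝ := fun n => if 2 ≤ n then 1 / n else 0 with hg
  have hrange : ∀ (u : ℕ → ℝ) (N : ℕ), ∑ i ∈ Finset.range (N + 1), (if 2 ≤ i then u i else 0) =
      ∑ n ∈ Finset.Icc 2 N, u n := by
    intro u N
    rw [← Finset.sum_filter]
    congr 1
    ext k
    simp only [Finset.mem_filter, Finset.mem_range, Finset.mem_Icc]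
    omega
  have hg0 : 0 ≤ g := by
    intro n
    simp only [hg, Pi.zero_apply]
    split_ifs <;> positivity
  have hsg : Tendsto (fun N : ℕ => ∑ i ∈ Finset.range (N + 1), g i) atTop atTop := by
    have h1 := harm.pos_mul_atTop one_pos log_nat_tendsto
    refine h1.congr' ?_
    filter_upwards [log_nat_tendsto.eventually (eventually_gt_atTop 0)] with N hN
    rw [hg]
    simp only
    rw [hrange (fun n => 1 / (n : ℝ)) N, div_mul_cancel₀ _ hN.ne']
  have hsg' : Tendsto (fun N : ℕ => ∑ i ∈ Finset.range N, g i) atTop atTop :=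
    (tendsto_add_atTop_iff_nat 1).1 hsg
  have ho : f =o[atTop] g := by
    have h1 : (fun n => v n * g n) =o[atTop] (fun n => 1 * g n) := by
      refine Asymptotics.IsLittleO.mul_isBigO ?_ (Asymptotics.isBigO_refl _ _)
      exact (Asymptotics.isLittleO_one_iff ℝ).2 h
    refine h1.congr (fun n => ?_) (fun n => one_mul _)
    rw [hf, hg]
    simp only
    split_ifs <;> ring
  have h2 := (ho.sum_range hg0 hsg').tendsto_div_nhds_zero
  have h3 := h2.comp (tendsto_add_atTop_nat 1)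
  have h4 := h3.mul harm
  rw [zero_mul] at h4
  refine h4.congr' ?_
  filter_upwards [log_nat_tendsto.eventually (eventually_gt_atTop 0), hsg.eventually (eventually_gt_atTop 0)] with N hN hN2
  simp only [Function.comp]
  have e1 : ∑ i ∈ Finset.range (N + 1), f i = ∑ n ∈ Finset.Icc 2 N, v n / n := by
    rw [hf]; exact hrange (fun n => v n / n) N
  have e2 : ∑ i ∈ Finset.range (N + 1), g i = ∑ n ∈ Finset.Icc 2 N, (1 : ℝ) / n := by
    rw [hg]; exact hrange (fun n => 1 / n) N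
  rw [e1, e2]
  rw [e2] at hN2
  field_simp

lemma logavg {v : ℕ → ℝ} {c : ℝ} (h : Tendsto v atTop (𝓝 c)) :
    Tendsto (fun N : ℕ => (∑ n ∈ Finset.Icc 2 N, v n / n) / Real.log N) atTop (𝓝 c) := by
  have h1 : Tendsto (fun n => v n - c) atTop (𝓝 0) := by
    have := h.sub_const c
    rwa [sub_self] at this
  have h2 := (logavg0 h1).add (harm.const_mul c)
  rw [zero_add, mul_one] at h2
  refine h2.congr fun N => ?_
  rw [← mul_div_assoc, ← add_div, Finset.mul_sum, ← Finset.sum_add_distrib]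
  congr 1
  refine Finset.sum_congr rfl fun n _ => ?_
  ring

/-- a nonnegative sequence whose Dirichlet series behaves like `A / w` at `1 + w` has logarithmic
mean `A` -/
lemma kar_L (G : ℕ → ℝ) (hG : ∀ n, 0 ≤ G n) (hG1 : G 1 = 0)
    (hs : ∀ s : ℂ, 1 < s.re → LSeriesSummable (fun n => (G n : ℂ)) s) (A : ℝ)
    (hlim : Tendsto (fun w : ℝ => w * (LSeries (fun n => (G n : ℂ)) ((1 + w : ℝ) : ℂ)).re)
      (𝓝[>] 0) (𝓝 A)) :
    Tendsto (fun N : ℕ => (∑ n ∈ Finset.Icc 2 N, G n / n) / Real.log N) atTop (𝓝 A) := by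
  have hterm : ∀ w : ℝ, ∀ n : ℕ, LSeries.term (fun n => (G n : ℂ)) ((1 + w : ℝ) : ℂ) n =
      ((G n / n * (n : ℝ) ^ (-w) : ℝ) : ℂ) := by
    intro w n
    rcases Nat.eq_zero_or_pos n with h0 | h0
    · rw [h0]; simp
    · have hn0 : (0 : ℝ) < n := by exact_mod_cast h0
      have e1 : (n : ℂ) ^ (((1 + w : ℝ)) : ℂ) = (((n : ℝ) ^ (1 + w) : ℝ) : ℂ) := by
        rw [Complex.ofReal_cpow hn0.le]; push_cast; rfl
      rw [LSeries.term_of_ne_zero h0.ne', e1, Real.rpow_neg hn0.le, Real.rpow_add hn0, Real.rpow_one]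
      push_cast
      field_simp
  have hsum : ∀ w : ℝ, 0 < w → HasSum (fun n : ℕ => G n / n * (n : ℝ) ^ (-w))
      (LSeries (fun n => (G n : ℂ)) ((1 + w : ℝ) : ℂ)).re := by
    intro w hw
    have h1 := (hs ((1 + w : ℝ) : ℂ) (by simp [hw])).hasSum
    have h2 := Complex.hasSum_re h1
    convert h2 using 1
    · funext n
      rw [hterm, Complex.ofReal_re]
    · rfl
  have hk := kar (fun n => G n / n) (fun n => div_nonneg (hG n) (by positivity)) (by simp)
    (fun w hw => (hsum w hw).summable) A (by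
      refine hlim.congr' ?_
      filter_upwards [self_mem_nhdsWithin] with w hw
      rw [(hsum w hw).tsum_eq])
  refine hk.congr' ?_
  filter_upwards [eventually_ge_atTop 1] with N hN
  rw [Icc_split hN, Finset.sum_insert (by simp), hG1]
  simp

open Classical in
/-- **The Tauberian theorem** at the critical exponent. -/
theorem taub {a b : ℤ} {F : ℂ → ℂ} (hF : IsL a b F) (ε : ℝ) (hε : ε = 1 ∨ ε = -1) (D : ℝ)
    (hD : Tendsto (fun w : ℝ => (∑' p, dd (Good a b) (al a b) p (1 + w)).re) (𝓝[>] 0) (𝓝 D)) (C0 : ℝ)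
    (m : ℕ) (h : ∀ᶠ n : ℕ in atTop, ε * uu a b m n ≤ C0)
    (hreal : ε = -1 → ∀ σ : ℝ, 1 < σ → F σ ≠ 0) (l : ℂ) (hl : l ≠ 0)
    (hlim : Tendsto (fun s => F s / (s - 1) ^ m) (𝓝[≠] 1) (𝓝 l)) :
    (∀ s : ℂ, 1 < s.re → F s ≠ 0) ∧
    Tendsto (fun N : ℕ => (∑ n ∈ Finset.Icc 2 N, uu a b m n / n) / Real.log N) atTop
      (𝓝 (m * Real.eulerMascheroniConstant - Real.log ‖l‖ + D)) := by
  have hg : ∀ p, Good a b p → p.Prime := fun p hp => hp.1
  have ha : ∀ p, Good a b p → ‖al a b p‖ = (p : ℝ) ^ (1 / 2 : ℝ) := fun p hp => al_norm hp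
  have hε3 : ε * ε = 1 := by rcases hε with h | h <;> rw [h] <;> norm_num
  set γ := Real.eulerMascheroniConstant with hγ
  set dn : ℕ → ℝ := fun n => (∑ p ∈ (Finset.Icc 1 n).filter Nat.Prime, (1 : ℝ) / p) -
    Real.log (Real.log n) with hdn
  have hdlim : Tendsto dn atTop (𝓝 (γ - KK)) := mertens_two
  set C1 : ℝ := C0 - ε * m * (γ - KK) + 1 with hC1
  have hM := (hdlim.const_mul (ε * m)).sub_const (ε * m * (γ - KK))
  rw [sub_self] at hM
  have hM2 : ∀ᶠ n : ℕ in atTop, |ε * m * dn n - ε * m * (γ - KK)| < 1 := by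
    have := (Metric.tendsto_nhds.1 hM) 1 one_pos
    filter_upwards [this] with n hn
    rwa [Real.dist_eq, sub_zero] at hn
  have hPSn : ∀ n : ℕ, PS C1 (mm (Good a b) (al a b) ε m) n = C1 - ε * uu a b m n + ε * m * dn n := by
    intro n
    rw [PS_eq, hdn]
    unfold uu
    ring
  obtain ⟨n1, hn1⟩ := eventually_atTop.1 (h.and hM2)
  set n0 := max n1 2 with hn0
  have hG : ∀ n, n0 ≤ n → 0 ≤ PS C1 (mm (Good a b) (al a b) ε m) n := by
    intro n hn
    obtain ⟨h1, h2⟩ := hn1 n ((le_max_left _ _).trans hn)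
    rw [hPSn, hC1]
    have h3 := (abs_lt.1 h2).1
    linarith
  obtain ⟨hsum, hne, hk⟩ := key2 hg ha ε m C1 hε n0 hG F hF.1 (prod_of_isL hF) hreal
  refine ⟨hne, ?_⟩
  set G : ℕ → ℝ := fun n => if n0 ≤ n then PS C1 (mm (Good a b) (al a b) ε m) n else 0 with hGdef
  have hG0 : ∀ n, 0 ≤ G n := by
    intro n
    rw [hGdef]
    simp only
    split_ifs with h
    · exact hG n h
    · exact le_rfl
  have hn02 : 2 ≤ n0 := le_max_right _ _
  have hG1 : G 1 = 0 := by
    rw [hGdef]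
    simp only
    rw [if_neg (by omega)]
  set A : ℝ := ε * (Real.log ‖l‖ - m * KK - D) + C1 with hA
  have hlimA : Tendsto (fun w : ℝ => w * (LSeries (fun n => (G n : ℂ)) ((1 + w : ℝ) : ℂ)).re)
      (𝓝[>] 0) (𝓝 A) := by
    have h1 := (((log_lead hl hlim).add (lam_log_tendsto.const_mul (m : ℝ))).sub hD).const_mul ε
    have h2 := hk.add (h1.add_const C1)
    have e1 : 0 + (ε * (Real.log ‖l‖ + m * -KK - D) + C1) = A := by rw [hA]; ring
    rw [e1] at h2
    refine h2.congr fun w => ?_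
    rw [hGdef]
    ring
  have h5 := kar_L G hG0 hG1 hsum A hlimA
  -- the remaining part
  have h6 : Tendsto (fun n => uu a b m n + ε * G n) atTop (𝓝 (ε * C1 + m * (γ - KK))) := by
    have h7 := (hdlim.const_mul (m : ℝ)).const_add (ε * C1)
    refine h7.congr' ?_
    filter_upwards [eventually_ge_atTop n0] with n hn
    rw [hGdef]
    simp only
    rw [if_pos hn, hPSn]
    linear_combination (uu a b m n - m * dn n) * hε3
  have h8 := (logavg h6).sub (h5.const_mul ε)
  have e2 : ε * C1 + m * (γ - KK) - ε * A = m * γ - Real.log ‖l‖ + D := by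
    rw [hA]
    linear_combination (-(Real.log ‖l‖ - m * KK - D)) * hε3
  rw [e2] at h8
  refine h8.congr fun N => ?_
  rw [← mul_div_assoc, ← sub_div, Finset.mul_sum, ← Finset.sum_sub_distrib]
  congr 1
  refine Finset.sum_congr rfl fun n _ => ?_
  ring

end Pool.Agent.H230R4.BSD
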